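import Pool.Agent.W_198aa6_h88.Defs
import Pool.Agent.W_156d3b_h46.SizeIneq

set_option autoImplicit false

namespace Fac88

open Nat

/-- `n! ≤ (a+n)^t` with `t ≤ T` forces `a` to be large: `log (n!) ≥ n (log n - 1)`
(`Sur46.SizeIneq_log_fact`), so `log (a + n) ≥ n (log n - 1) / T ≥ 2 (k + T + 3) (log n - 1)`, while
`log (16 q^{k+T+3} + n) ≤ log (32 q^{k+T+3}) ≤ log 32 + (k + T + 3) (log 2 + log n)`; and `k + T + 3 ≥ 4`. -/
theorem a_big : ∃ N0 : ℕ, ∀ n ≥ N0, ∀ t a q k T : ℕ, 1 ≤ t → t ≤ T → 2 * T * (k + T + 3) ≤ n →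
    n ! ≤ (a + n) ^ t → n ≤ q → q ≤ 2 * n → 16 * q ^ (k + T + 3) ≤ a := by
  refine ⟨64, ?_⟩
  intro n hn t a q k T ht htT hTn hfac hnq hq2
  by_contra hcon
  push Not at hcon
  obtain ⟨s, hs⟩ : ∃ s : ℕ, s = k + T + 3 := ⟨_, rfl⟩
  rw [← hs] at hTn hcon
  have hs4 : 4 ≤ s := by omega
  have hn1 : 1 ≤ n := by omega
  have hnR : (64 : ℝ) ≤ (n : ℝ) := by exact_mod_cast hn
  have hn0 : (0 : ℝ) < (n : ℝ) := by linarith
  have hq1 : 1 ≤ q := by omega
  have h1 : a + n ≤ 32 * q ^ s := by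
    have h2 : n ≤ q ^ s := hnq.trans (by
      calc q = q ^ 1 := (pow_one q).symm
        _ ≤ q ^ s := Nat.pow_le_pow_right hq1 (by omega))
    omega
  have h3 : n ! ≤ (32 * q ^ s) ^ T := by
    calc n ! ≤ (a + n) ^ t := hfac
      _ ≤ (a + n) ^ T := Nat.pow_le_pow_right (by omega) htT
      _ ≤ (32 * q ^ s) ^ T := Nat.pow_le_pow_left h1 T
  have hqR : (1 : ℝ) ≤ (q : ℝ) := by exact_mod_cast hq1
  have h4 : Real.log (n ! : ℝ) ≤ (T : ℝ) * (Real.log 32 + (s : ℝ) * Real.log q) := by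
    have h5 : Real.log (n ! : ℝ) ≤ Real.log (((32 * q ^ s) ^ T : ℕ) : ℝ) :=
      Real.log_le_log (by exact_mod_cast Nat.factorial_pos n) (by exact_mod_cast h3)
    refine h5.trans (le_of_eq ?_)
    push_cast
    rw [Real.log_pow, Real.log_mul (by norm_num) (by positivity), Real.log_pow]
  have h6 := Sur46.SizeIneq_log_fact n hn1
  have h7 : Real.log q ≤ Real.log 2 + Real.log n := by
    rw [← Real.log_mul (by norm_num) (by linarith)]
    exact Real.log_le_log (by linarith) (by exact_mod_cast hq2)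
  have h8 : Real.log 32 = 5 * Real.log 2 := by
    rw [show (32 : ℝ) = 2 ^ 5 by norm_num, Real.log_pow]
    norm_num
  have hl2 : Real.log 2 < 0.6931471808 := Real.log_two_lt_d9
  have hl2' : 0.6931471803 < Real.log 2 := Real.log_two_gt_d9
  have hln : 6 * Real.log 2 ≤ Real.log n := by
    have : Real.log 64 = 6 * Real.log 2 := by
      rw [show (64 : ℝ) = 2 ^ 6 by norm_num, Real.log_pow]
      norm_num
    rw [← this]
    exact Real.log_le_log (by norm_num) hnR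
  have hTs : 2 * ((T : ℝ) * s) ≤ n := by
    have : ((2 * T * s : ℕ) : ℝ) ≤ (n : ℝ) := by exact_mod_cast hTn
    push_cast at this
    linarith
  have hT0 : (0 : ℝ) ≤ (T : ℝ) := Nat.cast_nonneg _
  have hs4' : (4 : ℝ) ≤ (s : ℝ) := by exact_mod_cast hs4
  have hT8 : 8 * (T : ℝ) ≤ n := by nlinarith
  have h9 : (T : ℝ) * (Real.log 32 + (s : ℝ) * Real.log q) ≤
      (n : ℝ) * ((5 / 8 + 1 / 2) * Real.log 2 + Real.log n / 2) := by
    have h10 : (T : ℝ) * Real.log 32 ≤ (n : ℝ) * (5 / 8 * Real.log 2) := by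
      rw [h8]
      have := mul_le_mul_of_nonneg_right hT8 (show (0 : ℝ) ≤ 5 / 8 * Real.log 2 by linarith)
      linarith
    have h11 : (T : ℝ) * ((s : ℝ) * Real.log q) ≤ (n : ℝ) * ((Real.log 2 + Real.log n) / 2) := by
      have h12 : (T : ℝ) * ((s : ℝ) * Real.log q) ≤ ((T : ℝ) * s) * (Real.log 2 + Real.log n) := by
        rw [← mul_assoc]
        exact mul_le_mul_of_nonneg_left h7 (by positivity)
      have h13 := mul_le_mul_of_nonneg_right hTs
        (show (0 : ℝ) ≤ (Real.log 2 + Real.log n) / 2 by linarith)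
      linarith
    nlinarith
  have h14 : (n : ℝ) * (Real.log n - 1) ≤
      (n : ℝ) * ((5 / 8 + 1 / 2) * Real.log 2 + Real.log n / 2) := h6.trans (h4.trans h9)
  have h15 : Real.log n - 1 ≤ (5 / 8 + 1 / 2) * Real.log 2 + Real.log n / 2 :=
    le_of_mul_le_mul_left h14 hn0
  linarith


end Fac88
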