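import Pool.Agent.W_198aa6_h88.Defs
import Pool.Agent.W_156d3b_h46.Small
import Pool.Agent.W_156d3b_h46.Small2

set_option autoImplicit false

namespace Fac88

open Nat

/-- From `Sur46.asymp 3` (`C X^(1/3) ≤ C X^θ`): `60 ≤ 2 * (12 * 3)` and `20 (Lg X)^2 ≤ 2 * 12 * (DD X)^2` because with
`L = Nat.log 2 (4 X) ≥ 2`, `Lg X = L + 3`, `DD X = 4 L^2`: `20 (L+3)^2 ≤ 384 L^4` for `L ≥ 2`. -/
theorem asy_few (θ : ℝ) (hθ : 1 / 3 ≤ θ) : ∃ C : ℝ, ∃ X0 : ℕ, 0 ≤ C ∧ ∀ X ≥ X0,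
    ((((X + 1) / (Sur46.W X + 1) + 1) *
      (20 * 3 * (Sur46.primesTo (Sur46.Y 3 X)).card +
        20 * (Lg X) ^ 2 * (Sur46.primesTo (Sur46.Y 4 X)).card) : ℕ) : ℝ)
      ≤ C * (X : ℝ) ^ θ := by
  obtain ⟨C, X0, hC, h⟩ := Sur46.asymp 3 (by norm_num)
  refine ⟨2 * C, max X0 1, by linarith, fun X hX => ?_⟩
  have hX0 : X0 ≤ X := le_trans (le_max_left _ _) hX
  have hX1 : 1 ≤ X := le_trans (le_max_right _ _) hX
  have hX' : (1 : ℝ) ≤ X := by exact_mod_cast hX1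
  have h1 := h X hX0
  have hL : 2 ≤ Nat.log 2 (4 * X) := Nat.le_log_of_pow_le (by norm_num) (by omega)
  have h2 : 20 * (Lg X) ^ 2 ≤ 2 * (12 * (Sur46.DD X) ^ 2) := by
    unfold Lg Sur46.DD
    set L := Nat.log 2 (4 * X) with hLd
    have e1 : 2 * (L + 3) ≤ 5 * L := by omega
    have e2 : (2 * (L + 3)) ^ 2 ≤ (5 * L) ^ 2 := Nat.pow_le_pow_left e1 2
    have e3 : 1 ≤ L ^ 2 := Nat.one_le_pow _ _ (by omega)
    have e4 : L ^ 2 ≤ L ^ 2 * L ^ 2 := Nat.le_mul_of_pos_right _ (by omega)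
    nlinarith
  have h3 : 20 * 3 * (Sur46.primesTo (Sur46.Y 3 X)).card +
      20 * (Lg X) ^ 2 * (Sur46.primesTo (Sur46.Y 4 X)).card ≤
      2 * (12 * 3 * (Sur46.primesTo (Sur46.Y 3 X)).card +
        12 * (Sur46.DD X) ^ 2 * (Sur46.primesTo (Sur46.Y (3 + 1) X)).card) := by
    have e1 := Nat.mul_le_mul_right (Sur46.primesTo (Sur46.Y 4 X)).card h2
    have e2 : (3 + 1 : ℕ) = 4 := rfl
    rw [e2]
    nlinarith
  have h4 : ((((X + 1) / (Sur46.W X + 1) + 1) *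
      (20 * 3 * (Sur46.primesTo (Sur46.Y 3 X)).card +
        20 * (Lg X) ^ 2 * (Sur46.primesTo (Sur46.Y 4 X)).card) : ℕ) : ℝ) ≤
      2 * ((((X + 1) / (Sur46.W X + 1) + 1) *
        (12 * 3 * (Sur46.primesTo (Sur46.Y 3 X)).card +
          12 * (Sur46.DD X) ^ 2 * (Sur46.primesTo (Sur46.Y (3 + 1) X)).card) : ℕ) : ℝ) := by
    have e1 := Nat.mul_le_mul_left ((X + 1) / (Sur46.W X + 1) + 1) h3
    have e2 : ((X + 1) / (Sur46.W X + 1) + 1) *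
        (20 * 3 * (Sur46.primesTo (Sur46.Y 3 X)).card +
          20 * (Lg X) ^ 2 * (Sur46.primesTo (Sur46.Y 4 X)).card) ≤
        2 * (((X + 1) / (Sur46.W X + 1) + 1) *
          (12 * 3 * (Sur46.primesTo (Sur46.Y 3 X)).card +
            12 * (Sur46.DD X) ^ 2 * (Sur46.primesTo (Sur46.Y (3 + 1) X)).card)) := by
      refine e1.trans (le_of_eq ?_)
      ring
    exact_mod_cast e2
  have h5 : (X : ℝ) ^ ((1 : ℝ) / (3 : ℕ)) ≤ (X : ℝ) ^ θ := by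
    refine Real.rpow_le_rpow_of_exponent_le hX' ?_
    push_cast
    exact hθ
  calc _ ≤ 2 * ((((X + 1) / (Sur46.W X + 1) + 1) *
        (12 * 3 * (Sur46.primesTo (Sur46.Y 3 X)).card +
          12 * (Sur46.DD X) ^ 2 * (Sur46.primesTo (Sur46.Y (3 + 1) X)).card) : ℕ) : ℝ) := h4
    _ ≤ 2 * (C * (X : ℝ) ^ ((1 : ℝ) / (3 : ℕ))) := by linarith
    _ ≤ 2 * (C * (X : ℝ) ^ θ) := by
      have := mul_le_mul_of_nonneg_left h5 hC
      linarith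
    _ = 2 * C * (X : ℝ) ^ θ := by ring


end Fac88
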