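import Pool.Agent.W_198aa6_h88.Defs
import Pool.Agent.W_156d3b_h46.Small
import Pool.Agent.W_156d3b_h46.Small2

set_option autoImplicit false

namespace Fac88

open Nat

/-- number of windows of length `X^(1-θ)/8` -/
theorem asy_med (θ : ℝ) (hθ : 1 / 3 ≤ θ) (hθ2 : θ ≤ 1 / 2) : ∃ C : ℝ, ∃ X0 : ℕ, 0 ≤ C ∧ ∀ X ≥ X0,
    ((((X + 1) / (⌊(X : ℝ) ^ (1 - θ) / 8⌋₊ + 1) + 1) * 1 : ℕ) : ℝ) ≤ C * (X : ℝ) ^ θ := by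
  refine ⟨17, 1, by norm_num, ?_⟩
  intro X hX
  have hX' : (1 : ℝ) ≤ (X : ℝ) := by exact_mod_cast hX
  have hX0 : (0 : ℝ) < (X : ℝ) := by linarith
  obtain ⟨w, hw⟩ : ∃ w : ℕ, w = ⌊(X : ℝ) ^ (1 - θ) / 8⌋₊ := ⟨_, rfl⟩
  rw [← hw]
  have h1 : (X : ℝ) ^ (1 - θ) / 8 < (w : ℝ) + 1 := by
    rw [hw]
    exact Nat.lt_floor_add_one _
  have h2 : (((X + 1) / (w + 1) : ℕ) : ℝ) ≤ ((X + 1 : ℕ) : ℝ) / ((w + 1 : ℕ) : ℝ) :=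
    Nat.cast_div_le
  have h3 : (X : ℝ) ^ (1 - θ) * (X : ℝ) ^ θ = X := by
    rw [← Real.rpow_add hX0]
    norm_num
  have h4 : (1 : ℝ) ≤ (X : ℝ) ^ θ := Real.one_le_rpow hX' (by linarith)
  have h5 : ((X + 1 : ℕ) : ℝ) / ((w + 1 : ℕ) : ℝ) ≤ 16 * (X : ℝ) ^ θ := by
    push_cast
    rw [div_le_iff₀ (by positivity)]
    have h6 : (X : ℝ) ≤ 8 * (((w : ℝ) + 1) * (X : ℝ) ^ θ) := by
      have h7 := mul_le_mul_of_nonneg_right h1.le (show (0 : ℝ) ≤ (X : ℝ) ^ θ by positivity)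
      have h8 : (X : ℝ) ^ (1 - θ) / 8 * (X : ℝ) ^ θ = X / 8 := by
        rw [div_mul_eq_mul_div, h3]
      rw [h8] at h7
      linarith
    nlinarith
  push_cast at h2 h5 ⊢
  linarith

/-- `τ = ⌊(2X+1)^θ/4⌋ ≤ (3X)^θ/4`, `w = ⌊X^(1-θ)/8⌋`: `2 τ w ≤ (3X)^θ X^(1-θ)/16 ≤ √3 X/16`,
`2 τ^2 ≤ (3X)^(2θ)/8 ≤ 3 X/8`, `6 τ ≤ 2 (3X)^(1/2) ≤ X/4` for large `X`. -/
theorem asy_cond (θ : ℝ) (hθ : 1 / 3 ≤ θ) (hθ2 : θ ≤ 1 / 2) : ∃ X0 : ℕ, ∀ X ≥ X0,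
    2 * ⌊((2 * X + 1 : ℕ) : ℝ) ^ θ / 4⌋₊ *
      (⌊(X : ℝ) ^ (1 - θ) / 8⌋₊ + ⌊((2 * X + 1 : ℕ) : ℝ) ^ θ / 4⌋₊ + 3) ≤ X := by
  refine ⟨108, ?_⟩
  intro X hX
  have hX' : (108 : ℝ) ≤ (X : ℝ) := by exact_mod_cast hX
  have hX0 : (0 : ℝ) < (X : ℝ) := by linarith
  obtain ⟨w, hw⟩ : ∃ w : ℕ, w = ⌊(X : ℝ) ^ (1 - θ) / 8⌋₊ := ⟨_, rfl⟩
  obtain ⟨τ, hτ⟩ : ∃ τ : ℕ, τ = ⌊((2 * X + 1 : ℕ) : ℝ) ^ θ / 4⌋₊ := ⟨_, rfl⟩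
  rw [← hw, ← hτ]
  have hw1 : (w : ℝ) ≤ (X : ℝ) ^ (1 - θ) / 8 := by
    rw [hw]
    exact Nat.floor_le (by positivity)
  have hτ1 : (τ : ℝ) ≤ (3 * (X : ℝ)) ^ θ / 4 := by
    have h1 : (τ : ℝ) ≤ ((2 * X + 1 : ℕ) : ℝ) ^ θ / 4 := by
      rw [hτ]
      exact Nat.floor_le (by positivity)
    have h2 : ((2 * X + 1 : ℕ) : ℝ) ^ θ ≤ (3 * (X : ℝ)) ^ θ := by
      apply Real.rpow_le_rpow (by positivity) _ (by linarith)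
      push_cast
      linarith
    linarith
  have hτ0 : (0 : ℝ) ≤ (τ : ℝ) := Nat.cast_nonneg _
  have hw0 : (0 : ℝ) ≤ (w : ℝ) := Nat.cast_nonneg _
  have hR : (3 * (X : ℝ)) ^ θ ≤ Real.sqrt (3 * X) := by
    rw [Real.sqrt_eq_rpow]
    exact Real.rpow_le_rpow_of_exponent_le (by linarith) hθ2
  obtain ⟨R, hRd⟩ : ∃ R : ℝ, R = Real.sqrt (3 * X) := ⟨_, rfl⟩
  rw [← hRd] at hR
  have hR2 : R * R = 3 * X := by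
    rw [hRd]
    exact Real.mul_self_sqrt (by linarith)
  have hR0 : 0 ≤ R := by
    rw [hRd]
    exact Real.sqrt_nonneg _
  have hRX : 6 * R ≤ X := by
    by_contra hcon
    push Not at hcon
    nlinarith
  have hτR : (τ : ℝ) ≤ R / 4 := by linarith
  have h3 : (τ : ℝ) * w ≤ 3 * X / 32 := by
    have h4 : (τ : ℝ) * w ≤ ((3 * (X : ℝ)) ^ θ / 4) * ((X : ℝ) ^ (1 - θ) / 8) :=
      mul_le_mul hτ1 hw1 hw0 (by positivity)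
    have h5 : (3 * (X : ℝ)) ^ θ * (X : ℝ) ^ (1 - θ) ≤ 3 * X := by
      rw [Real.mul_rpow (by norm_num) hX0.le, mul_assoc, ← Real.rpow_add hX0]
      have h6 : (3 : ℝ) ^ θ ≤ 3 := by
        calc (3 : ℝ) ^ θ ≤ (3 : ℝ) ^ (1 : ℝ) :=
              Real.rpow_le_rpow_of_exponent_le (by norm_num) (by linarith)
          _ = 3 := Real.rpow_one 3
      have h7 : (X : ℝ) ^ (θ + (1 - θ)) = X := by
        rw [show θ + (1 - θ) = 1 by ring, Real.rpow_one]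
      rw [h7]
      exact mul_le_mul_of_nonneg_right h6 hX0.le
    calc (τ : ℝ) * w ≤ ((3 * (X : ℝ)) ^ θ / 4) * ((X : ℝ) ^ (1 - θ) / 8) := h4
      _ = ((3 * (X : ℝ)) ^ θ * (X : ℝ) ^ (1 - θ)) / 32 := by ring
      _ ≤ 3 * X / 32 := by linarith
  have h8 : (τ : ℝ) * τ ≤ 3 * X / 16 := by
    have h9 : (τ : ℝ) * τ ≤ (R / 4) * (R / 4) := mul_le_mul hτR hτR hτ0 (by positivity)
    have h10 : (R / 4) * (R / 4) = (R * R) / 16 := by ring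
    rw [h10, hR2] at h9
    exact h9
  have h11 : (((2 * τ * (w + τ + 3) : ℕ)) : ℝ) ≤ (X : ℝ) := by
    push_cast
    have h12 : 2 * (τ : ℝ) * ((w : ℝ) + τ + 3) = 2 * ((τ : ℝ) * w) + 2 * ((τ : ℝ) * τ) + 6 * τ := by
      ring
    rw [h12]
    linarith
  exact_mod_cast h11

end Fac88
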