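import Pool.Agent.W_198aa6_h88.Defs
import Pool.Agent.W_156d3b_h46.Small
import Pool.Agent.W_156d3b_h46.Small2

set_option autoImplicit false

namespace Fac88

open Nat

/-- `(X+1)/(W2 2 X + 1) + 1 = O(log X)`, so the left side is `O(log^2 X)`. -/
theorem asy_two (θ : ℝ) (hθ : 1 / 3 ≤ θ) : ∃ C : ℝ, ∃ X0 : ℕ, 0 ≤ C ∧ ∀ X ≥ X0,
    ((((X + 1) / (Sur46.W2 2 X + 1) + 1) * (32 * (Nat.log 2 (4 * X) + 1)) : ℕ) : ℝ)
      ≤ C * (X : ℝ) ^ θ := by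
  refine ⟨1632 * 72, 2, by norm_num, ?_⟩
  intro X hX
  have hX' : (2 : ℝ) ≤ (X : ℝ) := by exact_mod_cast hX
  have hl2 := Real.log_two_gt_d9
  obtain ⟨L, hL⟩ : ∃ L : ℝ, L = Real.log (4 * X) := ⟨_, rfl⟩
  have hLpos : (2 : ℝ) ≤ L := by
    have h4 : Real.log ((2 : ℝ) ^ 3) ≤ Real.log (4 * X) :=
      Real.log_le_log (by norm_num) (by norm_num; linarith)
    rw [Real.log_pow] at h4
    push_cast at h4
    linarith
  have h1 : (((X + 1) / (Sur46.W2 2 X + 1) : ℕ) : ℝ) ≤ 16 * L := by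
    have hw : (((2 : ℕ) : ℝ) * X : ℝ) / (16 * L) < (Sur46.W2 2 X : ℝ) + 1 := by
      unfold Sur46.W2
      rw [hL]
      exact Nat.lt_floor_add_one _
    have h2 : (((X + 1) / (Sur46.W2 2 X + 1) : ℕ) : ℝ) ≤
        ((X + 1 : ℕ) : ℝ) / ((Sur46.W2 2 X + 1 : ℕ) : ℝ) := Nat.cast_div_le
    refine h2.trans ?_
    push_cast at hw ⊢
    rw [div_lt_iff₀ (by positivity)] at hw
    rw [div_le_iff₀ (by positivity)]
    nlinarith
  have h2 : ((Nat.log 2 (4 * X) : ℕ) : ℝ) + 1 ≤ 3 * L := by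
    have h3 : ((2 : ℝ)) ^ Nat.log 2 (4 * X) ≤ 4 * X := by
      have := Nat.pow_log_le_self 2 (x := 4 * X) (by omega)
      exact_mod_cast this
    have h4 : (Nat.log 2 (4 * X) : ℝ) * Real.log 2 ≤ L := by
      rw [hL, ← Real.log_pow]
      exact Real.log_le_log (by positivity) h3
    have h5 : (0 : ℝ) ≤ (Nat.log 2 (4 * X) : ℝ) := Nat.cast_nonneg _
    nlinarith
  have h3 : ((((X + 1) / (Sur46.W2 2 X + 1) + 1) * (32 * (Nat.log 2 (4 * X) + 1)) : ℕ) : ℝ) ≤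
      1632 * L ^ 2 := by
    push_cast
    have h4 : (((X + 1) / (Sur46.W2 2 X + 1) : ℕ) : ℝ) + 1 ≤ 17 * L := by linarith
    have h5 : (32 : ℝ) * (((Nat.log 2 (4 * X) : ℕ) : ℝ) + 1) ≤ 96 * L := by linarith
    calc ((((X + 1) / (Sur46.W2 2 X + 1) : ℕ) : ℝ) + 1) *
          (32 * (((Nat.log 2 (4 * X) : ℕ) : ℝ) + 1)) ≤ (17 * L) * (96 * L) :=
          mul_le_mul h4 h5 (by positivity) (by linarith)
      _ = 1632 * L ^ 2 := by ring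
  have h4 : L ^ 2 ≤ 72 * (X : ℝ) ^ θ := by
    have h5 : L ≤ (4 * (X : ℝ)) ^ ((1 : ℝ) / 6) / (1 / 6) := by
      rw [hL]
      exact Real.log_le_rpow_div (by linarith) (by norm_num)
    have h6 : L ≤ 6 * (4 * (X : ℝ)) ^ ((1 : ℝ) / 6) := by linarith
    have h7 : L ^ 2 ≤ (6 * (4 * (X : ℝ)) ^ ((1 : ℝ) / 6)) ^ 2 :=
      pow_le_pow_left₀ (by linarith) h6 2
    have h8 : (6 * (4 * (X : ℝ)) ^ ((1 : ℝ) / 6)) ^ 2 = 36 * (4 * (X : ℝ)) ^ ((1 : ℝ) / 3) := by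
      rw [mul_pow, ← Real.rpow_natCast ((4 * (X : ℝ)) ^ ((1 : ℝ) / 6)) 2,
        ← Real.rpow_mul (by positivity)]
      norm_num
    have h9 : (4 * (X : ℝ)) ^ ((1 : ℝ) / 3) ≤ 2 * (X : ℝ) ^ ((1 : ℝ) / 3) := by
      rw [Real.mul_rpow (by norm_num) (by linarith)]
      refine mul_le_mul_of_nonneg_right ?_ (by positivity)
      calc (4 : ℝ) ^ ((1 : ℝ) / 3) ≤ (8 : ℝ) ^ ((1 : ℝ) / 3) :=
            Real.rpow_le_rpow (by norm_num) (by norm_num) (by norm_num)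
        _ = 2 := by
            rw [show (8 : ℝ) = 2 ^ (3 : ℝ) by norm_num, ← Real.rpow_mul (by norm_num)]
            norm_num
    have h10 : (X : ℝ) ^ ((1 : ℝ) / 3) ≤ (X : ℝ) ^ θ :=
      Real.rpow_le_rpow_of_exponent_le (by linarith) hθ
    rw [h8] at h7
    linarith
  linarith


end Fac88
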