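import Pool.Agent.W_198aa6_h88.Padic
import Pool.Agent.W_156d3b_h46.Defs

set_option autoImplicit false

namespace Fac88

open Nat

/-- the multiplier -/
noncomputable def Mul (X y : ℕ) : ℕ :=
  ∏ p ∈ Sur46.primesTo y, p ^ (Nat.log p (4 * X) * Lg X)

theorem Mul_pos (X y : ℕ) : 0 < Mul X y := by
  unfold Mul
  apply Finset.prod_pos
  intro p hp
  have : p.Prime := by
    simp only [Sur46.primesTo, Finset.mem_filter] at hp
    exact hp.2
  exact pow_pos this.pos _

/-- every factor is at most `(4X)^(Lg X)` (`Nat.pow_log_le_self`) and there are at most `y` of them -/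
theorem Mul_le (X y : ℕ) (hX : 1 ≤ X) : Mul X y ≤ (4 * X) ^ (y * Lg X) := by
  unfold Mul
  have h1 : ∀ p ∈ Sur46.primesTo y, p ^ (Nat.log p (4 * X) * Lg X) ≤ (4 * X) ^ (Lg X) := by
    intro p _
    rw [pow_mul]
    exact Nat.pow_le_pow_left (Nat.pow_log_le_self p (by omega)) _
  have h2 : (Sur46.primesTo y).card ≤ y := by
    have h3 : Sur46.primesTo y ⊆ Finset.Icc 1 y := by
      intro p hp
      simp only [Sur46.primesTo, Finset.mem_filter, Finset.mem_range] at hp
      rw [Finset.mem_Icc]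
      exact ⟨hp.2.pos, by omega⟩
    have h4 := Finset.card_le_card h3
    rwa [Nat.card_Icc, Nat.add_sub_cancel] at h4
  calc ∏ p ∈ Sur46.primesTo y, p ^ (Nat.log p (4 * X) * Lg X)
      ≤ ∏ _p ∈ Sur46.primesTo y, (4 * X) ^ (Lg X) := Finset.prod_le_prod' h1
    _ = (4 * X) ^ (Lg X * (Sur46.primesTo y).card) := by
        rw [Finset.prod_const, ← pow_mul]
    _ ≤ (4 * X) ^ (y * Lg X) := by
        refine Nat.pow_le_pow_right (by omega) ?_
        rw [mul_comm]
        exact Nat.mul_le_mul_right _ h2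

/-- From `IsFac.padic`: `v_p(n!) ≤ v_p(x) + (t-1) log_p m ≤ v_p (x * Mul X y)` because `p ≤ y`,
`t ≤ Lg X`, `m ≤ 4 X`; `x = a + i` with `i ≤ m`. -/
theorem padic_mul {n t a m X y : ℕ} {A : Finset ℕ} (h : IsFac n t a m A) (ht : t ≤ Lg X)
    (hm : m ≤ 4 * X) {p : ℕ} (hp : p.Prime) (hpy : p ≤ y) :
    ∃ i ≤ m, ∀ e, p ^ e ∣ n ! → p ^ e ∣ (a + i) * Mul X y := by
  obtain ⟨x, hx, _, h2⟩ := h.padic hp
  have hb := h.bd x hx
  refine ⟨x - a, by omega, fun e he => ?_⟩
  have h3 : a + (x - a) = x := by omega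
  rw [h3]
  have h4 : e ≤ (n !).factorization p :=
    (hp.pow_dvd_iff_le_factorization (Nat.factorial_ne_zero n)).1 he
  have h5 : p ^ (x.factorization p) ∣ x := Nat.ordProj_dvd x p
  have hmem : p ∈ Sur46.primesTo y := by
    simp only [Sur46.primesTo, Finset.mem_filter, Finset.mem_range]
    exact ⟨by omega, hp⟩
  have h6 : p ^ (Nat.log p (4 * X) * Lg X) ∣ Mul X y :=
    Finset.dvd_prod_of_mem (fun p => p ^ (Nat.log p (4 * X) * Lg X)) hmem
  have h7 : (t - 1) * Nat.log p m ≤ Nat.log p (4 * X) * Lg X := by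
    rw [mul_comm (Nat.log p (4 * X))]
    exact Nat.mul_le_mul (by omega) (Nat.log_mono_right hm)
  have h8 : p ^ ((t - 1) * Nat.log p m) ∣ Mul X y := (pow_dvd_pow p h7).trans h6
  have h9 : p ^ (x.factorization p + (t - 1) * Nat.log p m) ∣ x * Mul X y := by
    rw [pow_add]
    exact mul_dvd_mul h5 h8
  exact (pow_dvd_pow p (h4.trans h2)).trans h9

end Fac88
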