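import Pool.Agent.W_198aa6_h88.Defs
import Pool.Agent.W_156d3b_h46.SizeIneq
import Pool.Agent.W_156d3b_h46.Small

set_option autoImplicit false

namespace Fac88

open Nat

theorem SizeS_asy (r : ℝ) (hr : 0 ≤ r) : ∀ᶠ u : ℝ in Filter.atTop,
    9 * √u * (Real.log u + 2 * r) + r * (81 / 2 * (√u * Real.log u ^ 2) + 3 * Real.log u) <
      u / 4 := by
  have h1 : (fun u : ℝ => Real.log u) =o[Filter.atTop] (fun u : ℝ => u ^ ((1 : ℝ) / 4)) :=
    isLittleO_log_rpow_atTop (by norm_num)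
  have h2 : (fun u : ℝ => √u * (Real.log u * Real.log u)) =o[Filter.atTop]
      (fun u : ℝ => √u * (u ^ ((1 : ℝ) / 4) * u ^ ((1 : ℝ) / 4))) :=
    (Asymptotics.isBigO_refl _ _).mul_isLittleO (h1.mul h1)
  have e1 : (0 : ℝ) < 1 / (800 * (1 + r)) := by positivity
  filter_upwards [h2.def e1, Filter.eventually_ge_atTop (Real.exp 1)] with u h4 h6
  have hu1 : 1 ≤ u := (Real.one_le_exp (by norm_num)).trans h6
  have hu : 0 < u := by linarith
  have hL : 1 ≤ Real.log u := by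
    rw [Real.le_log_iff_exp_le hu]
    exact h6
  have hs : 1 ≤ √u := Real.one_le_sqrt.2 hu1
  have h5 : √u * (u ^ ((1 : ℝ) / 4) * u ^ ((1 : ℝ) / 4)) = u := by
    rw [← Real.rpow_add hu, show (1 : ℝ) / 4 + 1 / 4 = 1 / 2 by norm_num, ← Real.sqrt_eq_rpow,
      Real.mul_self_sqrt hu.le]
  rw [h5, Real.norm_of_nonneg (by positivity), Real.norm_of_nonneg hu.le] at h4
  set L := Real.log u with hLdef
  have h7 : 800 * ((1 + r) * (√u * (L * L))) ≤ u := by
    have h8 : (800 * (1 + r)) * (√u * (L * L)) ≤ (800 * (1 + r)) * (1 / (800 * (1 + r)) * u) :=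
      mul_le_mul_of_nonneg_left h4 (by positivity)
    have h9 : (800 * (1 + r)) * (1 / (800 * (1 + r)) * u) = u := by
      field_simp
    rw [h9] at h8
    linarith
  have hLL : 1 ≤ L * L := by nlinarith
  have a1 : √u * L ≤ √u * (L * L) := mul_le_mul_of_nonneg_left (by nlinarith) (by linarith)
  have a2 : √u ≤ √u * (L * L) := le_mul_of_one_le_right (by linarith) hLL
  have a3 : L ≤ √u * (L * L) := by
    have : 1 * L ≤ √u * (L * L) := mul_le_mul hs (by nlinarith) (by linarith) (by linarith)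
    linarith
  have b1 : r * √u ≤ r * (√u * (L * L)) := mul_le_mul_of_nonneg_left a2 hr
  have b2 : r * L ≤ r * (√u * (L * L)) := mul_le_mul_of_nonneg_left a3 hr
  have hq : 0 ≤ √u * (L * L) := by positivity
  have hrq : 0 ≤ r * (√u * (L * L)) := by positivity
  have e2 : 9 * √u * (L + 2 * r) + r * (81 / 2 * (√u * L ^ 2) + 3 * L) =
      9 * (√u * L) + 18 * (r * √u) + 81 / 2 * (r * (√u * (L * L))) + 3 * (r * L) := by ring
  rw [e2]
  have e3 : 800 * ((1 + r) * (√u * (L * L))) = 800 * (√u * (L * L)) + 800 * (r * (√u * (L * L))) := by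
    ring
  rw [e3] at h7
  linarith

/-- Compare `Sur46.size_ineq` (W_156d3b_h46/SizeIneq.lean; its proof can be adapted, only the small factor
changes).  Write `y = Y r X ≥ 8 (4X)^{1/r}`.  `log (y!) ≥ y (log y - 1)` and `y * (K / y) ≥ K - y` give
`log RHS ≥ (K - y)(log y - 1) ≥ (K - y)((log K)/r + log 8 - 1)`, so
`r log RHS ≥ K log K + r (log 8 - 1) K - y (log K + 3 r)`, and `r (log 8 - 1) ≥ 2.14`.
`r log LHS ≤ log (k!) + r (y Lg(X) log (4X) + log (16 y^2 X))` and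
`log (k!) ≤ K log K + K` (`k ≤ K + W X`). As `y = O(√X)` and `Lg X = O(log X)` this is enough. -/
theorem size_ineq (r : ℕ) (hr : 2 ≤ r) : ∃ X0 : ℕ, ∀ X ≥ X0, ∀ K, X ≤ K → K ≤ 3 * X →
    ∀ k ≤ K + Sur46.W X, ∀ a : ℕ, a ^ r ≤ k ! →
      (4 * X) ^ (Sur46.Y r X * Lg X) * ((2 * Sur46.Y r X) ^ 2 * (4 * X)) * a <
        (Sur46.Y r X)! ^ (K / Sur46.Y r X) := by
  have hrR : (2 : ℝ) ≤ (r : ℝ) := by exact_mod_cast hr
  obtain ⟨U, hU⟩ := Filter.eventually_atTop.1 (SizeS_asy (r : ℝ) (by linarith))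
  refine ⟨max 1 ⌈U⌉₊, ?_⟩
  intro X hX K hXK hK3 k hk m hm
  have hX1 : 1 ≤ X := (le_max_left _ _).trans hX
  have hX1R : (1 : ℝ) ≤ (X : ℝ) := by exact_mod_cast hX1
  have hUX : U ≤ 4 * (X : ℝ) := by
    have h1 : (⌈U⌉₊ : ℝ) ≤ X := by exact_mod_cast (le_max_right _ _).trans hX
    have h2 := Nat.le_ceil U
    linarith
  have hmain := hU _ hUX
  have h4 : (4 : ℝ) * (X : ℝ) / 4 = X := by ring
  rw [h4] at hmain
  set u : ℝ := 4 * (X : ℝ) with hu
  set L : ℝ := Real.log u with hL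
  have hu4 : 4 ≤ u := by rw [hu]; linarith
  have hu0 : 0 < u := by linarith
  have hl2 := Real.log_two_gt_d9
  have hl2' := Real.log_two_lt_d9
  have hL1 : 1 ≤ L := by
    have h1 : Real.log 4 ≤ L := Real.log_le_log (by norm_num) hu4
    have h2 : Real.log 4 = 2 * Real.log 2 := by
      rw [show (4 : ℝ) = 2 ^ 2 by norm_num, Real.log_pow]
      norm_num
    linarith
  -- the rest is trivial for m = 0
  have hRpos : 0 < (Sur46.Y r X)! ^ (K / Sur46.Y r X) := pow_pos (Nat.factorial_pos _) _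
  rcases Nat.eq_zero_or_pos m with hm0 | hm0
  · rw [hm0, mul_zero]
    exact hRpos
  -- y
  set y := Sur46.Y r X with hy
  set t : ℝ := u ^ ((1 : ℝ) / r) with ht
  have ht1 : 1 ≤ t := Real.one_le_rpow (by linarith) (by positivity)
  have htu : t ≤ √u := by
    rw [Real.sqrt_eq_rpow]
    refine Real.rpow_le_rpow_of_exponent_le (by linarith) ?_
    exact one_div_le_one_div_of_le (by norm_num) hrR
  have hy8 : 8 * t ≤ y := Nat.le_ceil _
  have hy9 : (y : ℝ) ≤ 9 * √u := by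
    have h1 : (y : ℝ) < 8 * t + 1 := Nat.ceil_lt_add_one (by positivity)
    linarith
  have hy0 : (0 : ℝ) < y := by linarith
  have hy1 : 1 ≤ y := by exact_mod_cast (show (0 : ℝ) < y from hy0)
  have hlogt : Real.log t = L / r := by
    rw [ht, Real.log_rpow hu0]
    ring
  have hl8 : Real.log 8 = 3 * Real.log 2 := by
    rw [show (8 : ℝ) = 2 ^ 3 by norm_num, Real.log_pow]
    norm_num
  have hlogy : 3 * Real.log 2 + L / r ≤ Real.log y := by
    rw [← hl8, ← hlogt, ← Real.log_mul (by norm_num) (by positivity)]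
    exact Real.log_le_log (by positivity) hy8
  -- the number of factors
  set g := Lg X with hg
  have hg9 : (g : ℝ) ≤ 9 / 2 * L := by
    have h1 : (Nat.log 2 (4 * X) : ℝ) ≤ Real.logb 2 ((4 * X : ℕ) : ℝ) := Real.natLog_le_logb _ _
    have h2 : Real.logb 2 ((4 * X : ℕ) : ℝ) = L / Real.log 2 := by
      push_cast
      rfl
    have h3 : L / Real.log 2 ≤ 3 / 2 * L := by
      rw [div_le_iff₀ (by linarith)]
      nlinarith
    have h7 : (g : ℝ) = (Nat.log 2 (4 * X) : ℝ) + 3 := by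
      rw [hg]
      unfold Lg
      push_cast
      ring
    rw [h7]
    linarith
  have hsu : 0 ≤ √u := Real.sqrt_nonneg u
  have hprod : 0 ≤ 9 * √u * (L + 2 * r) := by positivity
  have hprod2 : 0 ≤ (r : ℝ) * (81 / 2 * (√u * L ^ 2) + 3 * L) := by positivity
  have hyX : (y : ℝ) ≤ X := by
    have h1 : 9 * √u * 1 ≤ 9 * √u * (L + 2 * r) :=
      mul_le_mul_of_nonneg_left (by linarith) (by positivity)
    linarith
  -- left side
  have hw : (Sur46.W X : ℝ) * L ≤ X := by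
    have h1 : (Sur46.W X : ℝ) ≤ X / L := Nat.floor_le (by positivity)
    calc (Sur46.W X : ℝ) * L ≤ X / L * L := mul_le_mul_of_nonneg_right h1 (by linarith)
      _ = X := by field_simp
  have hkR : (k : ℝ) ≤ K + Sur46.W X := by exact_mod_cast hk
  have hWX : (Sur46.W X : ℝ) ≤ X := by
    have h1 : (Sur46.W X : ℝ) * 1 ≤ Sur46.W X * L :=
      mul_le_mul_of_nonneg_left hL1 (Nat.cast_nonneg _)
    linarith
  have hKR3 : (K : ℝ) ≤ 3 * X := by exact_mod_cast hK3
  have hKRX : (X : ℝ) ≤ K := by exact_mod_cast hXK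
  have hlogk : Real.log (k ! : ℝ) ≤ K * L + K := by
    rcases Nat.eq_zero_or_pos k with hk0 | hk0
    · rw [hk0]
      simp only [Nat.factorial_zero, Nat.cast_one, Real.log_one]
      positivity
    · have hk0' : (0 : ℝ) < k := by exact_mod_cast hk0
      have h1 := Sur46.SizeIneq_fact_le k hk0 (c := L)
        (Real.log_le_log hk0' (by rw [hu]; linarith))
      have h2 : (k : ℝ) * L ≤ (K + Sur46.W X) * L := mul_le_mul_of_nonneg_right hkR (by linarith)
      nlinarith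
  have hm0' : (0 : ℝ) < m := by exact_mod_cast hm0
  have hlogm : (r : ℝ) * Real.log m ≤ K * L + K := by
    have h1 : ((m : ℝ)) ^ r ≤ (k ! : ℝ) := by exact_mod_cast hm
    have h2 := Real.log_le_log (by positivity) h1
    rw [Real.log_pow] at h2
    linarith
  have hlogg : ((y * g : ℕ) : ℝ) * L ≤ 81 / 2 * (√u * L ^ 2) := by
    have h1 : (y : ℝ) * g ≤ 9 * √u * (9 / 2 * L) :=
      mul_le_mul hy9 hg9 (Nat.cast_nonneg _) (by positivity)
    have h2 : (y : ℝ) * g * L ≤ 9 * √u * (9 / 2 * L) * L :=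
      mul_le_mul_of_nonneg_right h1 (by linarith)
    push_cast
    calc (y : ℝ) * g * L ≤ 9 * √u * (9 / 2 * L) * L := h2
      _ = 81 / 2 * (√u * L ^ 2) := by ring
  have hlogyD : Real.log ((2 * (y : ℝ)) ^ 2 * u) ≤ 3 * L := by
    have h1 : (2 * (y : ℝ)) ^ 2 * u ≤ u ^ 3 := by
      have h2 : (2 * (y : ℝ)) ^ 2 ≤ u ^ 2 := pow_le_pow_left₀ (by positivity) (by linarith) 2
      calc (2 * (y : ℝ)) ^ 2 * u ≤ u ^ 2 * u := mul_le_mul_of_nonneg_right h2 hu0.le
        _ = u ^ 3 := by ring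
    have h2 := Real.log_le_log (by positivity) h1
    rw [Real.log_pow] at h2
    exact_mod_cast h2
  -- right side
  have hdiv : (K : ℝ) - y ≤ (K / y : ℕ) * y := by
    have h1 := Nat.div_add_mod K y
    have h2 := Nat.mod_lt K (show 0 < y by omega)
    have h3 : (K : ℝ) = y * (K / y : ℕ) + (K % y : ℕ) := by exact_mod_cast h1.symm
    have h5 : ((K % y : ℕ) : ℝ) ≤ y := by exact_mod_cast h2.le
    rw [h3]
    linarith
  have hlogR : ((K : ℝ) - y) * (3 * Real.log 2 - 1 + L / r) ≤ (K / y : ℕ) * Real.log (y ! : ℝ) := by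
    have h1 := Sur46.SizeIneq_log_fact y hy1
    have h2 : (y : ℝ) * (3 * Real.log 2 - 1 + L / r) ≤ Real.log (y ! : ℝ) :=
      (mul_le_mul_of_nonneg_left (by linarith) hy0.le).trans h1
    have hpos : 0 ≤ 3 * Real.log 2 - 1 + L / r := by
      have : 0 ≤ L / r := by positivity
      linarith
    calc ((K : ℝ) - y) * (3 * Real.log 2 - 1 + L / r)
        ≤ ((K / y : ℕ) * y) * (3 * Real.log 2 - 1 + L / r) :=
          mul_le_mul_of_nonneg_right hdiv hpos
      _ = (K / y : ℕ) * (y * (3 * Real.log 2 - 1 + L / r)) := by ring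
      _ ≤ _ := mul_le_mul_of_nonneg_left h2 (Nat.cast_nonneg _)
  -- comparison of the logarithms
  have hyf : (0 : ℝ) < (y ! : ℝ) := by exact_mod_cast Nat.factorial_pos y
  have hlt : Real.log (u ^ (y * g) * ((2 * (y : ℝ)) ^ 2 * u) * m) <
      Real.log ((y ! : ℝ) ^ (K / y)) := by
    rw [Real.log_mul (by positivity) hm0'.ne', Real.log_mul (by positivity) (by positivity),
      Real.log_pow, Real.log_pow]
    have hr0 : (0 : ℝ) < r := by linarith
    refine lt_of_mul_lt_mul_left (a := (r : ℝ)) ?_ hr0.le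
    have h1 : (r : ℝ) * (((K : ℝ) - y) * (3 * Real.log 2 - 1 + L / r)) =
        ((K : ℝ) - y) * (r * (3 * Real.log 2 - 1) + L) := by
      field_simp
    have h2 : (r : ℝ) * (((K : ℝ) - y) * (3 * Real.log 2 - 1 + L / r)) ≤
        r * ((K / y : ℕ) * Real.log (y ! : ℝ)) := mul_le_mul_of_nonneg_left hlogR hr0.le
    rw [h1] at h2
    have h3 : (r : ℝ) * (((y * g : ℕ) : ℝ) * L) ≤ r * (81 / 2 * (√u * L ^ 2)) :=
      mul_le_mul_of_nonneg_left hlogg hr0.le
    have h5 : (r : ℝ) * Real.log ((2 * (y : ℝ)) ^ 2 * u) ≤ r * (3 * L) :=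
      mul_le_mul_of_nonneg_left hlogyD hr0.le
    have h6 : (2 : ℝ) ≤ r * (3 * Real.log 2 - 1) := by nlinarith
    have h7 : (r : ℝ) * (3 * Real.log 2 - 1) ≤ 2 * r := by nlinarith
    have h8 : (K : ℝ) * 2 ≤ K * (r * (3 * Real.log 2 - 1)) :=
      mul_le_mul_of_nonneg_left h6 (Nat.cast_nonneg _)
    have h9 : (y : ℝ) * (L + r * (3 * Real.log 2 - 1)) ≤ 9 * √u * (L + 2 * r) :=
      mul_le_mul hy9 (by linarith) (by linarith) (by positivity)
    have h10 : ((K : ℝ) - y) * (r * (3 * Real.log 2 - 1) + L) =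
        K * L + K * (r * (3 * Real.log 2 - 1)) - y * (L + r * (3 * Real.log 2 - 1)) := by ring
    rw [h10] at h2
    have h11 : (r : ℝ) * (((y * g : ℕ) : ℝ) * Real.log u +
        Real.log ((2 * (y : ℝ)) ^ 2 * u) + Real.log m) =
        r * (((y * g : ℕ) : ℝ) * L) + r * Real.log ((2 * (y : ℝ)) ^ 2 * u) + r * Real.log m := by
      rw [hL]
      ring
    rw [h11]
    have h12 : (r : ℝ) * (81 / 2 * (√u * L ^ 2) + 3 * L) =
        r * (81 / 2 * (√u * L ^ 2)) + r * (3 * L) := by ring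
    rw [h12] at hmain
    linarith
  have hfin := (Real.log_lt_log_iff (by positivity) (by positivity)).1 hlt
  rw [hu] at hfin
  exact_mod_cast hfin

/-- `(2 Y)^2 ≤ 1156 X` is `Sur46.small_Y`; also `2 ≤ Y r X` because `Y r X ≥ 8`. -/
theorem small_ineq (r : ℕ) (hr : 2 ≤ r) :
    ∃ X0 : ℕ, ∀ X ≥ X0, (2 * Sur46.Y r X) ^ 2 * (4 * X) ≤ X ^ 3 ∧ 2 ≤ Sur46.Y r X ∧ 2 ≤ X := by
  refine ⟨4624, fun X hX => ?_⟩
  have hX1 : 1 ≤ X := le_trans (by norm_num) hX
  refine ⟨?_, ?_, le_trans (by norm_num) hX⟩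
  · calc (2 * Sur46.Y r X) ^ 2 * (4 * X) ≤ (1156 * X) * (4 * X) :=
          Nat.mul_le_mul_right _ (Sur46.small_Y r hr X hX1)
      _ = 4624 * (X * X) := by ring
      _ ≤ X * (X * X) := Nat.mul_le_mul_right _ hX
      _ = X ^ 3 := by ring
  · have h5 : (8 : ℝ) ≤ (Sur46.Y r X : ℝ) := by
      have h6 : 8 * (4 * (X : ℝ)) ^ ((1 : ℝ) / r) ≤ (Sur46.Y r X : ℝ) := by
        unfold Sur46.Y
        exact Nat.le_ceil _
      have h7 : (1 : ℝ) ≤ (4 * (X : ℝ)) ^ ((1 : ℝ) / r) := by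
        refine Real.one_le_rpow ?_ (by positivity)
        have hX' : (1 : ℝ) ≤ (X : ℝ) := by exact_mod_cast hX1
        linarith
      linarith
    have h8 : (2 : ℝ) ≤ (Sur46.Y r X : ℝ) := by linarith
    exact_mod_cast h8

end Fac88
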