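import Pool.Agent.W_198aa6_h88.DvdComb
import Pool.Agent.W_198aa6_h88.Mult
import Pool.Agent.W_198aa6_h88.SizeS
import Pool.Agent.W_156d3b_h46.Core

set_option autoImplicit false

namespace Fac88

open Nat

/-- Every lacunary set of solutions in a window has fewer than `2 π(y)` elements.
Same proof as `Sur46.core` (W_156d3b_h46/Core.lean), with `D = 4 X`, multiplier `Mul X y` (`Mul_le`,
`padic_mul`), `G = X^3`, `dvd_comb`, `size_ineq`, `small_ineq` of this folder and `Sur46.siegel`,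
`Sur46.comb_ne_zero`, `Sur46.primesTo_card_le`, `Sur46.two_mem_primesTo`. -/
theorem core (r : ℕ) (hr : 2 ≤ r) : ∃ X0 : ℕ, ∀ X ≥ X0, ∀ K, X ≤ K → K ≤ 3 * X →
    ∀ (T : Finset ℕ) (t a m : ℕ → ℕ) (A : ℕ → Finset ℕ),
    (∀ k ∈ T, K ≤ k ∧ k ≤ K + Sur46.W X ∧ IsFac k (t k) (a k) (m k) (A k) ∧ m k ≤ 4 * X ∧
      t k ≤ Lg X ∧ (a k) ^ r ≤ k !) →
    (∀ k ∈ T, ∀ k' ∈ T, k ≠ k' → X ^ 3 * a k < a k' ∨ X ^ 3 * a k' < a k) →
    T.card < 2 * (Sur46.primesTo (Sur46.Y r X)).card := by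
  obtain ⟨X1, h1⟩ := size_ineq r hr
  obtain ⟨X2, h2⟩ := small_ineq r hr
  refine ⟨max X1 X2, ?_⟩
  intro X hX K hXK hK3 T t a m A hT hlac
  have hX1 : X1 ≤ X := le_trans (le_max_left _ _) hX
  have hX2 : X2 ≤ X := le_trans (le_max_right _ _) hX
  obtain ⟨hs1, hY2, hX22⟩ := h2 X hX2
  have hsize := h1 X hX1 K hXK hK3
  obtain ⟨y, hy⟩ : ∃ y : ℕ, y = Sur46.Y r X := ⟨_, rfl⟩
  obtain ⟨D, hD⟩ : ∃ D : ℕ, D = 4 * X := ⟨_, rfl⟩
  rw [← hy] at hs1 hY2 hsize ⊢
  rw [← hD] at hs1 hsize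
  have hD1 : 1 ≤ D := by omega
  by_contra hcon
  push Not at hcon
  obtain ⟨T', hT'T, hT'card⟩ := Finset.exists_subset_card_eq hcon
  have hPpos : 0 < (Sur46.primesTo y).card := Sur46.two_mem_primesTo hY2
  have hPle : (Sur46.primesTo y).card ≤ y := Sur46.primesTo_card_le y
  -- the indices
  have hex : ∀ p k, ∃ i, (p.Prime → p ≤ y → k ∈ T' → (i ≤ m k ∧
      ∀ e, p ^ e ∣ k ! → p ^ e ∣ (a k + i) * Mul X y)) := by
    intro p k
    by_cases hp : p.Prime
    · by_cases hpy : p ≤ y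
      · by_cases hk : k ∈ T'
        · obtain ⟨-, -, hk3, hk4, hk5, -⟩ := hT k (hT'T hk)
          obtain ⟨i, hi, hi2⟩ := padic_mul hk3 hk5 hk4 hp hpy
          exact ⟨i, fun _ _ _ => ⟨hi, hi2⟩⟩
        · exact ⟨0, fun _ _ h => absurd h hk⟩
      · exact ⟨0, fun _ h => absurd h hpy⟩
    · exact ⟨0, fun h => absurd h hp⟩
  choose i hi using hex
  have hmem : ∀ p, p ∈ Sur46.primesTo y ↔ p ≤ y ∧ p.Prime := by
    intro p
    simp only [Sur46.primesTo, Finset.mem_filter, Finset.mem_range, Nat.lt_succ_iff]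
  obtain ⟨u, hu1, hu2, hu3⟩ := Sur46.siegel (Sur46.primesTo y) T' hPpos hT'card
    (fun p k => (i p k : ℤ)) D hD1
    (by
      intro p hp k hk
      have h3 := (hi p k ((hmem p).1 hp).2 ((hmem p).1 hp).1 hk).1
      have h4 := (hT k (hT'T hk)).2.2.2.1
      have h5 : i p k ≤ D := by omega
      show |((i p k : ℕ) : ℤ)| ≤ (D : ℤ)
      rw [abs_of_nonneg (by positivity)]
      exact_mod_cast h5)
  have hyK : (K / y) * y ≤ K := Nat.div_mul_le_self K y
  have hdvd := dvd_comb (K := K) (y := y) (r := K / y) (M := Mul X y) T' a i u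
    (fun k hk => (hT k (hT'T hk)).1) hyK
    (fun p hp hpy k hk e he => (hi p k hp hpy hk).2 e he)
    (by
      intro p hp hpy
      exact hu2 p ((hmem p).2 ⟨hpy, hp⟩))
  have hcard : T'.card ≤ 2 * y := by omega
  have hne := Sur46.comb_ne_zero (G := X ^ 3) (N := T'.card) (B := T'.card * D) T' a u le_rfl
    (by
      calc T'.card * (T'.card * D) ≤ (2 * y) * ((2 * y) * D) :=
            Nat.mul_le_mul hcard (Nat.mul_le_mul_right _ hcard)
        _ = (2 * y) ^ 2 * D := by ring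
        _ ≤ X ^ 3 := hs1)
    (fun k hk k' hk' hkk' => hlac k (hT'T hk) k' (hT'T hk') hkk')
    (fun k hk => by
      have := (hT k (hT'T hk)).2.2.1.a_pos
      omega)
    (by
      intro k hk
      have := hu3 k hk
      push_cast
      exact this)
    hu1
  -- the maximal a
  have hT'ne : T'.Nonempty := by
    rw [← Finset.card_pos, hT'card]; omega
  obtain ⟨k0, hk0, hk0max⟩ := Finset.exists_max_image T' a hT'ne
  have hkk := hT k0 (hT'T hk0)
  have hfin := hsize k0 hkk.2.1 (a k0) hkk.2.2.2.2.2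
  have hMle : Mul X y ≤ D ^ (y * Lg X) := by
    rw [hD]
    exact Mul_le X y (by omega)
  -- bound for L
  have hL : |∑ k ∈ T', (a k : ℤ) * u k| ≤ (((2 * y) ^ 2 * D * a k0 : ℕ) : ℤ) := by
    calc |∑ k ∈ T', (a k : ℤ) * u k| ≤ ∑ k ∈ T', |(a k : ℤ) * u k| :=
          Finset.abs_sum_le_sum_abs _ _
      _ ≤ ∑ k ∈ T', (a k0 : ℤ) * ((T'.card : ℤ) * D) := by
          apply Finset.sum_le_sum
          intro k hk
          rw [abs_mul, abs_of_nonneg (by positivity : (0:ℤ) ≤ (a k : ℤ))]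
          apply mul_le_mul
          · exact_mod_cast hk0max k hk
          · exact hu3 k hk
          · exact abs_nonneg _
          · positivity
      _ = (T'.card : ℤ) * ((a k0 : ℤ) * ((T'.card : ℤ) * D)) := by
          rw [Finset.sum_const, nsmul_eq_mul]
      _ ≤ (((2 * y) ^ 2 * D * a k0 : ℕ) : ℤ) := by
          have : T'.card * (a k0 * (T'.card * D)) ≤ (2 * y) ^ 2 * D * a k0 := by
            calc T'.card * (a k0 * (T'.card * D)) ≤ (2 * y) * (a k0 * ((2 * y) * D)) := by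
                  gcongr
              _ = (2 * y) ^ 2 * D * a k0 := by ring
          exact_mod_cast this
  have hne2 : ((Mul X y : ℕ) : ℤ) * ∑ k ∈ T', (a k : ℤ) * u k ≠ 0 := by
    apply mul_ne_zero _ hne
    have : Mul X y ≠ 0 := (Mul_pos X y).ne'
    exact_mod_cast this
  have hle := Int.le_of_dvd (abs_pos.2 hne2) ((dvd_abs _ _).2 hdvd)
  rw [abs_mul, abs_of_nonneg (by positivity : (0:ℤ) ≤ ((Mul X y : ℕ) : ℤ))] at hle
  have h6 : (((y !) ^ (K / y) : ℕ) : ℤ) ≤ ((Mul X y * ((2 * y) ^ 2 * D) * a k0 : ℕ) : ℤ) := by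
    calc (((y !) ^ (K / y) : ℕ) : ℤ) ≤ ((Mul X y : ℕ) : ℤ) * |∑ k ∈ T', (a k : ℤ) * u k| := hle
      _ ≤ ((Mul X y : ℕ) : ℤ) * (((2 * y) ^ 2 * D * a k0 : ℕ) : ℤ) := by
          apply mul_le_mul_of_nonneg_left hL (by positivity)
      _ = ((Mul X y * ((2 * y) ^ 2 * D) * a k0 : ℕ) : ℤ) := by
          push_cast; ring
  have h7 : (y !) ^ (K / y) ≤ Mul X y * ((2 * y) ^ 2 * D) * a k0 := by exact_mod_cast h6
  have h8 : Mul X y * ((2 * y) ^ 2 * D) * a k0 ≤ D ^ (y * Lg X) * ((2 * y) ^ 2 * D) * a k0 :=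
    Nat.mul_le_mul_right _ (Nat.mul_le_mul_right _ hMle)
  omega

end Fac88
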