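import Mathlib

/-!
MP_198aa6_nt (Erdos-Graham: minimal spread of a factorisation of `n!` into distinct factors), helper88.

THEOREM.  Let `1/3 ≤ θ ≤ 1/2`. There is `C` with
`#{2 ≤ n ≤ N : f n < n - C n^(1-θ) log n} ≤ C N^θ` for all `N`.

PLAN.  `n! = ∏ A`, `|A| = t`, `min A = a`, `max A = a + m`, `m < n`.
* `t > n^θ / 4` (many factors): the prime 2 forces `m ≥ n - C n^(1-θ) log n` (Large.lean).
* `log_2 n + 3 ≤ t ≤ n^θ / 4`: at most one such `n` in every interval of length `n^(1-θ)/8` (Pair.lean).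
* `3 ≤ t ≤ log_2 n + 2` (few factors): Siegel's lemma (the method of helper46, W_156d3b_h46).
* `t = 2`: Plotkin averaging (helper46).
-/

set_option autoImplicit false

namespace Fac88

open Nat

/-- `A` is a set of `t` integers with product `n!`, smallest element `a`, largest element `a + m`. -/
structure IsFac (n t a m : ℕ) (A : Finset ℕ) : Prop where
  card : A.card = t
  prod : (∏ x ∈ A, x) = Nat.factorial n
  lo : a ∈ A
  hi : a + m ∈ A
  bd : ∀ x ∈ A, a ≤ x ∧ x ≤ a + m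

/-- the minimal spread -/
noncomputable def f (n : ℕ) : ℕ :=
  sInf {m : ℕ | 1 ≤ m ∧ ∃ (a : ℕ) (A : Finset ℕ), a ∈ A ∧ a + m ∈ A ∧
    (∀ x ∈ A, a ≤ x ∧ x ≤ a + m) ∧ (∏ x ∈ A, x) = Nat.factorial n}

/-- the number `log_2 (4X) + 3`, an upper bound for `log_2 n + 2` when `n ≤ 4 X` -/
def Lg (X : ℕ) : ℕ := Nat.log 2 (4 * X) + 3

/-- `n` has a factorisation with spread `< n` and `log_2 n + 3 ≤ t ≤ τ` factors -/
def Med (τ n : ℕ) : Prop :=
  ∃ (t a m : ℕ) (A : Finset ℕ), IsFac n t a m A ∧ m < n ∧ Nat.log 2 n + 3 ≤ t ∧ t ≤ τ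

/-- `n` has a factorisation with spread `< n` and exactly `t` factors -/
def Eqt (t n : ℕ) : Prop :=
  ∃ (a m : ℕ) (A : Finset ℕ), IsFac n t a m A ∧ m < n

/-- `n` has a factorisation with spread `< n` and `r ≤ t ≤ log_2 n + 2` factors -/
def Few (r n : ℕ) : Prop :=
  ∃ (t a m : ℕ) (A : Finset ℕ), IsFac n t a m A ∧ m < n ∧ r ≤ t ∧ t ≤ Nat.log 2 n + 2

/-! easy facts -/

theorem IsFac.pos {n t a m : ℕ} {A : Finset ℕ} (h : IsFac n t a m A) {x : ℕ} (hx : x ∈ A) :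
    0 < x := by
  rcases Nat.eq_zero_or_pos x with h0 | h0
  · exfalso
    have h1 : ∏ y ∈ A, y = 0 := Finset.prod_eq_zero hx h0
    rw [h.prod] at h1
    exact (Nat.factorial_ne_zero n) h1
  · exact h0

theorem IsFac.a_pos {n t a m : ℕ} {A : Finset ℕ} (h : IsFac n t a m A) : 0 < a := h.pos h.lo

theorem IsFac.pow_le {n t a m : ℕ} {A : Finset ℕ} (h : IsFac n t a m A) : a ^ t ≤ n ! := by
  rw [← h.prod, ← h.card]
  calc a ^ A.card = ∏ _x ∈ A, a := by rw [Finset.prod_const]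
    _ ≤ ∏ x ∈ A, x := Finset.prod_le_prod' (fun x hx => (h.bd x hx).1)

theorem IsFac.le_pow {n t a m : ℕ} {A : Finset ℕ} (h : IsFac n t a m A) :
    n ! ≤ (a + m) ^ t := by
  rw [← h.prod, ← h.card]
  calc ∏ x ∈ A, x ≤ ∏ _x ∈ A, (a + m) := Finset.prod_le_prod' (fun x hx => (h.bd x hx).2)
    _ = (a + m) ^ A.card := by rw [Finset.prod_const]

theorem IsFac.dist {n t a m : ℕ} {A : Finset ℕ} (h : IsFac n t a m A) {x y : ℕ} (hx : x ∈ A)
    (hy : y ∈ A) : x ≤ y + m := by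
  have h1 := (h.bd x hx).2
  have h2 := (h.bd y hy).1
  omega

/-- `(x - m)^t ≤ n! ≤ (x + m)^t` for every `x ∈ A`. -/
theorem IsFac.pow_le' {n t a m : ℕ} {A : Finset ℕ} (h : IsFac n t a m A) {x : ℕ} (hx : x ∈ A) :
    (x - m) ^ t ≤ n ! := by
  rw [← h.prod, ← h.card]
  calc (x - m) ^ A.card = ∏ _y ∈ A, (x - m) := by rw [Finset.prod_const]
    _ ≤ ∏ y ∈ A, y := Finset.prod_le_prod' (fun y hy => by
        have := h.dist hx hy
        omega)

theorem IsFac.le_pow' {n t a m : ℕ} {A : Finset ℕ} (h : IsFac n t a m A) {x : ℕ} (hx : x ∈ A) :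
    n ! ≤ (x + m) ^ t := by
  rw [← h.prod, ← h.card]
  calc ∏ y ∈ A, y ≤ ∏ _y ∈ A, (x + m) := Finset.prod_le_prod' (fun y hy => by
        have := h.dist hy hx
        omega)
    _ = (x + m) ^ A.card := by rw [Finset.prod_const]

theorem IsFac.t_pos {n t a m : ℕ} {A : Finset ℕ} (h : IsFac n t a m A) : 0 < t := by
  rw [← h.card]
  exact Finset.card_pos.2 ⟨a, h.lo⟩

theorem IsFac.two_le {n t a m : ℕ} {A : Finset ℕ} (h : IsFac n t a m A) (hm : 1 ≤ m) : 2 ≤ t := by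
  rw [← h.card]
  have h1 : ({a, a + m} : Finset ℕ) ⊆ A := by
    intro z hz
    rw [Finset.mem_insert, Finset.mem_singleton] at hz
    rcases hz with rfl | rfl
    · exact h.lo
    · exact h.hi
  have h2 := Finset.card_le_card h1
  rw [Finset.card_pair (by omega)] at h2
  exact h2

end Fac88
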