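import Pool.Agent.W_198aa6_h88.Defs

set_option autoImplicit false

namespace Fac88

open Nat

/-- Same proof as `Sur46.dvd_comb` (W_156d3b_h46/DvdComb.lean), with the multiplier `M`.
It suffices (`Nat.dvd_iff_prime_pow_dvd_dvd` applied to `natAbs`) that every prime power `p^e`
dividing `(y!)^r` divides the right side. If `e = 0` trivial; otherwise `p ∣ y!`, so `p ≤ y`.
`(y!)^r ∣ (r*y)! ∣ K! ∣ k!` for `k ∈ T`.  So `p^e ∣ k!`, hence `p^e ∣ (a k + i p k) * M`. Now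
`M * ∑ a_k u_k = ∑ u_k M (a_k + i_p(k)) - M * ∑ i_p(k) u_k` and the last sum is zero. -/
theorem dvd_comb {K y r M : ℕ} (T : Finset ℕ) (a : ℕ → ℕ) (i : ℕ → ℕ → ℕ) (u : ℕ → ℤ)
    (hK : ∀ k ∈ T, K ≤ k) (hr : r * y ≤ K)
    (hi : ∀ p, p.Prime → p ≤ y → ∀ k ∈ T, ∀ e, p ^ e ∣ k ! → p ^ e ∣ (a k + i p k) * M)
    (hu : ∀ p, p.Prime → p ≤ y → ∑ k ∈ T, (i p k : ℤ) * u k = 0) :
    (((y !) ^ r : ℕ) : ℤ) ∣ ((M : ℕ) : ℤ) * ∑ k ∈ T, (a k : ℤ) * u k := by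
  rw [Int.natCast_dvd, Nat.dvd_iff_prime_pow_dvd_dvd]
  intro p e hp hpe
  rw [← Int.natCast_dvd]
  rcases Nat.eq_zero_or_pos e with rfl | he
  · simp
  have hpy : p ≤ y := by
    have h1 : p ∣ (y !) ^ r := (dvd_pow_self p he.ne').trans hpe
    exact (hp.dvd_factorial).1 (hp.dvd_of_dvd_pow h1)
  have hfac : (y !) ^ r ∣ (r * y)! := by
    have h1 := Nat.prod_factorial_dvd_factorial_sum (Finset.range r) (fun _ => y)
    simpa using h1
  have hsum : ((M : ℕ) : ℤ) * ∑ k ∈ T, (a k : ℤ) * u k =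
      ∑ k ∈ T, (((a k + i p k) * M : ℕ) : ℤ) * u k := by
    have h1 := hu p hp hpy
    calc ((M : ℕ) : ℤ) * ∑ k ∈ T, (a k : ℤ) * u k
        = ((M : ℕ) : ℤ) * (∑ k ∈ T, (a k : ℤ) * u k + ∑ k ∈ T, (i p k : ℤ) * u k) := by
          rw [h1, add_zero]
      _ = _ := by
          rw [← Finset.sum_add_distrib, Finset.mul_sum]
          refine Finset.sum_congr rfl fun k _ => ?_
          push_cast
          ring
  rw [hsum]
  refine Finset.dvd_sum fun k hk => Dvd.dvd.mul_right ?_ _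
  rw [Int.natCast_dvd_natCast]
  have h1 : p ^ e ∣ k ! :=
    (hpe.trans hfac).trans (Nat.factorial_dvd_factorial (hr.trans (hK k hk)))
  exact hi p hp hpy k hk e h1

end Fac88
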