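import Mathlib

set_option autoImplicit false

namespace Fac88

/-- Same as `Sur46.dyadic` (W_156d3b_h46/Cover.lean) with a real exponent `θ > 0` instead of `1/r`: copy the
proof with `ρ = θ`. -/
theorem dyadic (Q : ℕ → Prop) [DecidablePred Q] (h0 : ¬ Q 0) (θ : ℝ) (hθ : 0 < θ) (C : ℝ)
    (hC : 0 ≤ C) (X0 : ℕ)
    (h : ∀ X ≥ X0, (((Finset.Ioc X (2 * X + 1)).filter Q).card : ℝ) ≤ C * (X : ℝ) ^ θ) :
    ∃ A : ℝ, ∀ x : ℕ, (((Finset.range (x + 1)).filter Q).card : ℝ) ≤ A * (x : ℝ) ^ θ := by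
  obtain ⟨ρ, hρ⟩ : ∃ ρ : ℝ, ρ = θ := ⟨_, rfl⟩
  have hr0 : 0 < ρ := by rw [hρ]; exact hθ
  simp only [← hρ] at h ⊢
  have h2 : (1 : ℝ) < (2 : ℝ) ^ ρ := Real.one_lt_rpow (by norm_num) hr0
  obtain ⟨A, hA⟩ : ∃ A : ℝ, A = max (C / ((2 : ℝ) ^ ρ - 1)) (2 * X0 + 3) := ⟨_, rfl⟩
  have hA1 : C / ((2 : ℝ) ^ ρ - 1) ≤ A := hA ▸ le_max_left _ _
  have hA2 : (2 * X0 + 3 : ℝ) ≤ A := hA ▸ le_max_right _ _
  have hA0 : 0 ≤ A := by
    have : (0 : ℝ) ≤ X0 := Nat.cast_nonneg _
    linarith
  have hA3 : C ≤ A * ((2 : ℝ) ^ ρ - 1) := (div_le_iff₀ (by linarith)).1 hA1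
  refine ⟨A, fun x => ?_⟩
  induction x using Nat.strong_induction_on with
  | _ x ih =>
    rcases Nat.eq_zero_or_pos x with hx | hx
    · subst hx
      have h3 : (Finset.range (0 + 1)).filter Q = ∅ := by
        rw [Finset.filter_eq_empty_iff]
        intro k hk hQ
        rw [Finset.mem_range] at hk
        obtain rfl : k = 0 := by omega
        exact h0 hQ
      rw [h3, Finset.card_empty]
      simp only [Nat.cast_zero]
      positivity
    · have hx1 : (1 : ℝ) ≤ x := by exact_mod_cast hx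
      by_cases hxX : x < 2 * X0 + 2
      · have h3 : ((Finset.range (x + 1)).filter Q).card ≤ x + 1 :=
          (Finset.card_filter_le _ _).trans (le_of_eq (Finset.card_range _))
        have h4 : (((Finset.range (x + 1)).filter Q).card : ℝ) ≤ x + 1 := by exact_mod_cast h3
        have h5 : (x : ℝ) < 2 * X0 + 2 := by exact_mod_cast hxX
        have h6 : (1 : ℝ) ≤ (x : ℝ) ^ ρ := Real.one_le_rpow hx1 hr0.le
        calc (((Finset.range (x + 1)).filter Q).card : ℝ) ≤ A := by linarith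
          _ = A * 1 := (mul_one A).symm
          _ ≤ A * (x : ℝ) ^ ρ := mul_le_mul_of_nonneg_left h6 hA0
      · have hX : X0 ≤ x / 2 := by omega
        have hlt : x / 2 < x := by omega
        have h3 := ih (x / 2) hlt
        have h4 := h (x / 2) hX
        have h5 : ((Finset.range (x + 1)).filter Q) ⊆ ((Finset.range (x / 2 + 1)).filter Q) ∪
            ((Finset.Ioc (x / 2) (2 * (x / 2) + 1)).filter Q) := by
          intro k hk
          rw [Finset.mem_filter, Finset.mem_range] at hk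
          rw [Finset.mem_union, Finset.mem_filter, Finset.mem_filter, Finset.mem_range,
            Finset.mem_Ioc]
          by_cases hk2 : k < x / 2 + 1
          · exact Or.inl ⟨hk2, hk.2⟩
          · exact Or.inr ⟨⟨by omega, by omega⟩, hk.2⟩
        have h6 : ((Finset.range (x + 1)).filter Q).card ≤
            ((Finset.range (x / 2 + 1)).filter Q).card +
            ((Finset.Ioc (x / 2) (2 * (x / 2) + 1)).filter Q).card :=
          (Finset.card_le_card h5).trans (Finset.card_union_le _ _)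
        have h7 : (((Finset.range (x + 1)).filter Q).card : ℝ) ≤
            (((Finset.range (x / 2 + 1)).filter Q).card : ℝ) +
            (((Finset.Ioc (x / 2) (2 * (x / 2) + 1)).filter Q).card : ℝ) := by exact_mod_cast h6
        have h8 : ((x / 2 : ℕ) : ℝ) ≤ (x : ℝ) / 2 := by
          have := @Nat.cast_div_le ℝ _ _ _ x 2
          simpa using this
        have h9 : ((x / 2 : ℕ) : ℝ) ^ ρ ≤ ((x : ℝ) / 2) ^ ρ :=
          Real.rpow_le_rpow (Nat.cast_nonneg _) h8 hr0.le
        have h10 : ((x : ℝ) / 2) ^ ρ * (2 : ℝ) ^ ρ = (x : ℝ) ^ ρ := by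
          rw [← Real.mul_rpow (by positivity) (by norm_num)]
          congr 1
          ring
        have h11 : (0 : ℝ) ≤ ((x : ℝ) / 2) ^ ρ := by positivity
        calc (((Finset.range (x + 1)).filter Q).card : ℝ)
            ≤ (A + C) * ((x / 2 : ℕ) : ℝ) ^ ρ := by linarith
          _ ≤ (A + C) * ((x : ℝ) / 2) ^ ρ := mul_le_mul_of_nonneg_left h9 (by linarith)
          _ ≤ A * (2 : ℝ) ^ ρ * ((x : ℝ) / 2) ^ ρ :=
              mul_le_mul_of_nonneg_right (by linarith) h11
          _ = A * (x : ℝ) ^ ρ := by rw [← h10]; ring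

end Fac88
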