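import Pool.Agent.W_198aa6_h88.Large

set_option autoImplicit false

namespace Fac88

open Nat

theorem FVal_mem (n : ℕ) (hn : 3 ≤ n) : 1 ≤ n - 2 ∧ ∃ (a : ℕ) (A : Finset ℕ), a ∈ A ∧ a + (n - 2) ∈ A ∧
    (∀ x ∈ A, a ≤ x ∧ x ≤ a + (n - 2)) ∧ (∏ x ∈ A, x) = Nat.factorial n := by
  refine ⟨by omega, 2, Finset.Icc 2 n, ?_, ?_, ?_, ?_⟩
  · rw [Finset.mem_Icc]; omega
  · rw [Finset.mem_Icc]; omega
  · intro x hx
    rw [Finset.mem_Icc] at hx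
    omega
  · have h1 : Finset.Ico 1 (n + 1) = insert 1 (Finset.Icc 2 n) := by
      ext x
      simp only [Finset.mem_Icc, Finset.mem_insert, Finset.mem_Ico]
      omega
    have h2 : ∏ x ∈ Finset.Ico 1 (n + 1), x = Nat.factorial n := Finset.prod_Ico_id_eq_factorial n
    rw [h1, Finset.prod_insert (by simp), one_mul] at h2
    exact h2

/-- `1 ≤ f n ≤ n - 2` for `n ≥ 3` (`n! = 2 · 3 ⋯ n`, `A = Finset.Icc 2 n`, `a = 2`, `m = n - 2`). -/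
theorem f_bounds (n : ℕ) (hn : 3 ≤ n) : 1 ≤ f n ∧ f n ≤ n - 2 := by
  have hmem := FVal_mem n hn
  constructor
  · have h := Nat.sInf_mem (s := {m : ℕ | 1 ≤ m ∧ ∃ (a : ℕ) (A : Finset ℕ), a ∈ A ∧ a + m ∈ A ∧
      (∀ x ∈ A, a ≤ x ∧ x ≤ a + m) ∧ (∏ x ∈ A, x) = Nat.factorial n}) ⟨n - 2, hmem⟩
    exact h.1
  · exact Nat.sInf_le hmem

/-- For `n ≥ 2` the value `f n` is attained (`Nat.sInf_mem`; the set is nonempty: `A = {1, 2}` for `n = 2`,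
`A = Icc 2 n` for `n ≥ 3`), and `f n < n`. -/
theorem f_spec (n : ℕ) (hn : 2 ≤ n) : 1 ≤ f n ∧ f n < n ∧
    ∃ (t a : ℕ) (A : Finset ℕ), IsFac n t a (f n) A := by
  have key : ∃ m < n, m ∈ {m : ℕ | 1 ≤ m ∧ ∃ (a : ℕ) (A : Finset ℕ), a ∈ A ∧ a + m ∈ A ∧
      (∀ x ∈ A, a ≤ x ∧ x ≤ a + m) ∧ (∏ x ∈ A, x) = Nat.factorial n} := by
    rcases Nat.lt_or_ge n 3 with h3 | h3
    · have h2 : n = 2 := by omega
      subst h2
      refine ⟨1, by omega, le_refl 1, 1, {1, 2}, by simp, by simp, ?_, ?_⟩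
      · intro x hx
        rw [Finset.mem_insert, Finset.mem_singleton] at hx
        omega
      · rw [Finset.prod_pair (by omega)]
        rfl
    · exact ⟨n - 2, by omega, FVal_mem n h3⟩
  obtain ⟨m, hmn, hm⟩ := key
  have h := Nat.sInf_mem ⟨m, hm⟩
  have hle : f n ≤ m := Nat.sInf_le hm
  have h' : 1 ≤ f n ∧ ∃ (a : ℕ) (A : Finset ℕ), a ∈ A ∧ a + f n ∈ A ∧
      (∀ x ∈ A, a ≤ x ∧ x ≤ a + f n) ∧ (∏ x ∈ A, x) = Nat.factorial n := h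
  obtain ⟨h1, a, A, hlo, hhi, hbd, hprod⟩ := h'
  exact ⟨h1, by omega, A.card, a, A, ⟨rfl, hprod, hlo, hhi, hbd⟩⟩

/-- Take the factorisation of `f_spec`; `large` excludes `t > n^θ/4`; `2 ≤ t` by `IsFac.two_le`. -/
theorem four_types : ∃ C : ℝ, 0 < C ∧ ∀ (θ : ℝ) (n : ℕ), 0 ≤ θ → θ ≤ 1 → 2 ≤ n →
    ((f n : ℕ) : ℝ) < (n : ℝ) - C * (n : ℝ) ^ (1 - θ) * Real.log n →
      Eqt 2 n ∨ Eqt 3 n ∨ Few 4 n ∨ Med ⌊(n : ℝ) ^ θ / 4⌋₊ n := by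
  obtain ⟨C, hC, hlarge⟩ := large
  refine ⟨C, hC, ?_⟩
  intro θ n hθ0 hθ1 hn hf
  obtain ⟨h1, hlt, t, a, A, hA⟩ := f_spec n hn
  have ht2 : 2 ≤ t := hA.two_le h1
  have hnot : ¬ ((n : ℝ) ^ θ / 4 < t) := by
    intro hlt'
    have := hlarge θ n t a (f n) A hθ0 hθ1 hn hA h1 hlt hlt'
    linarith
  have hle : t ≤ ⌊(n : ℝ) ^ θ / 4⌋₊ := by
    apply Nat.le_floor
    exact not_lt.1 hnot
  by_cases hmed : Nat.log 2 n + 3 ≤ t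
  · exact Or.inr (Or.inr (Or.inr ⟨t, a, f n, A, hA, hlt, hmed, hle⟩))
  · by_cases h4 : 4 ≤ t
    · exact Or.inr (Or.inr (Or.inl ⟨t, a, f n, A, hA, hlt, h4, by omega⟩))
    · by_cases h3 : t = 3
      · subst h3
        exact Or.inr (Or.inl ⟨a, f n, A, hA, hlt⟩)
      · have h2 : t = 2 := by omega
        subst h2
        exact Or.inl ⟨a, f n, A, hA, hlt⟩

end Fac88
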