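import Pool.Agent.W_198aa6_h88.Defs

set_option autoImplicit false

namespace Fac88

open Nat

theorem fiber_step {X K δ k k' a m a' m' v : ℕ} {A A' : Finset ℕ} (hX : 2 ≤ X) (hXK : X ≤ K)
    (hδ : 1 ≤ δ) (hK : K ≤ k) (h : IsFac k δ a m A) (h' : IsFac k' δ a' m' A') (hm' : m' ≤ 4 * X)
    (hv : (X ^ 3) ^ v ≤ a) (hv' : a' < (X ^ 3) ^ (v + 1)) (hkk : k ≤ k') : k' < k + 4 * δ := by
  obtain ⟨G, hG⟩ : ∃ G : ℕ, G = X ^ 3 := ⟨_, rfl⟩
  rw [← hG] at hv hv'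
  have hG4 : 4 * X ≤ G := by
    rw [hG]
    nlinarith [Nat.mul_le_mul hX hX]
  have hGK : 2 * G ≤ K ^ 4 := by
    rw [hG]
    have e1 : X ^ 3 ≤ K ^ 3 := Nat.pow_le_pow_left hXK 3
    have e2 : 2 ≤ K := by omega
    calc 2 * X ^ 3 ≤ K * K ^ 3 := Nat.mul_le_mul e2 e1
      _ = K ^ 4 := by ring
  have hK1 : 1 < K := by omega
  have hG1 : 1 ≤ G := by omega
  have h1 : (G ^ v) ^ δ ≤ k ! := le_trans (Nat.pow_le_pow_left hv δ) h.pow_le
  have h2 : k ! * K ^ (k' - k) ≤ k' ! := by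
    have h3 := Nat.factorial_mul_pow_le_factorial (m := k) (n := k' - k)
    have h4 : k + (k' - k) = k' := by omega
    rw [h4] at h3
    exact le_trans (Nat.mul_le_mul_left _ (Nat.pow_le_pow_left (by omega) _)) h3
  have hGv : G ≤ G ^ (v + 1) := by
    calc G = G ^ 1 := (pow_one G).symm
      _ ≤ G ^ (v + 1) := Nat.pow_le_pow_right hG1 (by omega)
  have h5 : (a' + m') ^ δ < (2 * G ^ (v + 1)) ^ δ :=
    Nat.pow_lt_pow_left (by omega) (by omega)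
  have h6 : (2 * G ^ (v + 1)) ^ δ ≤ (G ^ v) ^ δ * K ^ (4 * δ) := by
    have h7 : 2 * G ^ (v + 1) = G ^ v * (2 * G) := by ring
    rw [h7, Nat.mul_pow, pow_mul K 4 δ]
    exact Nat.mul_le_mul_left _ (Nat.pow_le_pow_left hGK δ)
  have h8 : (G ^ v) ^ δ * K ^ (k' - k) < (G ^ v) ^ δ * K ^ (4 * δ) :=
    calc (G ^ v) ^ δ * K ^ (k' - k) ≤ k ! * K ^ (k' - k) := Nat.mul_le_mul_right _ h1
      _ ≤ k' ! := h2
      _ ≤ (a' + m') ^ δ := h'.le_pow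
      _ < (2 * G ^ (v + 1)) ^ δ := h5
      _ ≤ _ := h6
  have h9 : K ^ (k' - k) < K ^ (4 * δ) := lt_of_mul_lt_mul_left h8 (Nat.zero_le _)
  have h10 : k' - k < 4 * δ := (Nat.pow_lt_pow_iff_right hK1).1 h9
  omega

/-- PROOF. Let `k < k'` be two elements of the filtered set and `G = X^3`, `G^v ≤ a k`, `a k' < G^(v+1)`.
`k! ≥ (a k)^δ ≥ (G^v)^δ` (`IsFac.pow_le`), `k'! ≤ (a k' + m k')^δ ≤ (G^(v+1) + 4X)^δ ≤ (2 G^(v+1))^δ`
(`IsFac.le_pow`, `4 X ≤ G ≤ G^(v+1)`), and `k'! ≥ k! * K^(k'-k)` (`Nat.factorial_mul_pow_le_factorial`). So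
`K^(k'-k) ≤ (2 G)^δ ≤ (K^4)^δ` (`2 X^3 ≤ K^4`), hence `k' - k ≤ 4 δ` (`K ≥ 2`). So the filtered set is inside
`[min, min + 4δ]` and has at most `4 δ + 1 ≤ 5 δ` elements. -/
theorem fiber_card {X K δ : ℕ} (hX : 2 ≤ X) (hXK : X ≤ K) (hδ : 1 ≤ δ) (S : Finset ℕ)
    (a m : ℕ → ℕ) (A : ℕ → Finset ℕ)
    (hS : ∀ k ∈ S, K ≤ k ∧ IsFac k δ (a k) (m k) (A k) ∧ m k ≤ 4 * X) (v : ℕ) :
    (S.filter (fun k => Nat.log (X ^ 3) (a k) = v)).card ≤ 5 * δ := by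
  rcases (S.filter (fun k => Nat.log (X ^ 3) (a k) = v)).eq_empty_or_nonempty with he | hne
  · rw [he]
    exact Nat.zero_le _
  · obtain ⟨k, hk, hmin⟩ := Finset.exists_min_image _ (fun k => k) hne
    have hX3 : 1 < X ^ 3 := Nat.one_lt_pow (by norm_num) (by omega)
    have hsub : S.filter (fun k => Nat.log (X ^ 3) (a k) = v) ⊆ Finset.Ico k (k + 4 * δ) := by
      intro k' hk'
      have hle : k ≤ k' := hmin k' hk'
      rw [Finset.mem_filter] at hk hk'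
      obtain ⟨hkS, hkv⟩ := hk
      obtain ⟨hkS', hkv'⟩ := hk'
      obtain ⟨hK, hfac, hm⟩ := hS k hkS
      obtain ⟨_, hfac', hm'⟩ := hS k' hkS'
      have hv : (X ^ 3) ^ v ≤ a k := by
        rw [← hkv]
        exact Nat.pow_log_le_self _ hfac.a_pos.ne'
      have hv' : a k' < (X ^ 3) ^ (v + 1) := by
        rw [← hkv']
        exact Nat.lt_pow_succ_log_self hX3 _
      exact Finset.mem_Ico.2 ⟨hle, fiber_step hX hXK hδ hK hfac hfac' hm' hv hv' hle⟩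
    calc (S.filter (fun k => Nat.log (X ^ 3) (a k) = v)).card ≤ (Finset.Ico k (k + 4 * δ)).card :=
          Finset.card_le_card hsub
      _ = 4 * δ := by rw [Nat.card_Ico]; omega
      _ ≤ 5 * δ := by omega

end Fac88
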