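import Pool.Agent.W_198aa6_h88.Defs

set_option autoImplicit false

namespace Fac88

open Nat

theorem Leg_sum_le (b k : ℕ) (l : List ℕ) (hl : ∀ x ∈ l, x ≤ b) (hk : l.length ≤ k) :
    l.sum ≤ k * b := by
  have h1 := List.sum_le_card_nsmul l b hl
  rw [smul_eq_mul] at h1
  exact h1.trans (Nat.mul_le_mul_right b hk)

/-- Legendre: `v_2 (n!) = n - s_2(n)` and `s_2(n) ≤ log_2 n + 1`
(`sub_one_mul_padicValNat_factorial`, `Nat.digits`; compare `DBound_val` in W_156d3b_h46/DBound.lean). -/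
theorem leg_two_ge (n : ℕ) (hn : 1 ≤ n) : n ≤ (n !).factorization 2 + Nat.log 2 n + 1 := by
  have : Fact (Nat.Prime 2) := ⟨Nat.prime_two⟩
  have h2 := sub_one_mul_padicValNat_factorial (p := 2) n
  rw [Nat.factorization_def _ Nat.prime_two]
  have h7 : (Nat.digits 2 n).length = Nat.log 2 n + 1 :=
    Nat.length_digits 2 n (by norm_num) (by omega)
  have h6 : (Nat.digits 2 n).sum ≤ (Nat.log 2 n + 1) * 1 := by
    refine Leg_sum_le 1 _ _ (fun x hx => ?_) h7.le
    have := Nat.digits_lt_base (b := 2) (by norm_num) hx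
    omega
  omega

/-- `v_2 (m!) ≤ m - 1`. -/
theorem leg_two_le (m : ℕ) (hm : 1 ≤ m) : (m !).factorization 2 + 1 ≤ m := by
  by_contra hcon
  have h1 : m ≤ (m !).factorization 2 := by omega
  have h2 : 2 ^ m ∣ m ! := (Nat.pow_dvd_pow 2 h1).trans (Nat.ordProj_dvd _ _)
  have h3 := Nat.emultiplicity_two_factorial_lt (n := m) (by omega)
  exact absurd (pow_dvd_iff_le_emultiplicity.1 h2) (not_le.2 h3)

/-- Legendre: `2 v_3 (n!) = n - s_3(n)` and `s_3(n) ≤ 2 (log_3 n + 1) ≤ 2 (log_2 n + 1)`. -/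
theorem leg_three_ge (n : ℕ) (hn : 1 ≤ n) : n ≤ 2 * (n !).factorization 3 + 2 * Nat.log 2 n + 2 := by
  have : Fact (Nat.Prime 3) := ⟨Nat.prime_three⟩
  have h2 := sub_one_mul_padicValNat_factorial (p := 3) n
  rw [Nat.factorization_def _ Nat.prime_three]
  have h7 : (Nat.digits 3 n).length = Nat.log 3 n + 1 :=
    Nat.length_digits 3 n (by norm_num) (by omega)
  have h6 : (Nat.digits 3 n).sum ≤ (Nat.log 3 n + 1) * 2 := by
    refine Leg_sum_le 2 _ _ (fun x hx => ?_) h7.le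
    have := Nat.digits_lt_base (b := 3) (by norm_num) hx
    omega
  have h8 : Nat.log 3 n ≤ Nat.log 2 n := Nat.log_anti_left (by norm_num) (by norm_num)
  omega

end Fac88
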