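import Pool.Agent.W_198aa6_h88.Padic
import Pool.Agent.W_198aa6_h88.Leg

set_option autoImplicit false

namespace Fac88

open Nat

/-- With `l = Nat.log 2 n`: `IsFac.padic` for `p = 2`, `leg_two_ge`, `leg_two_le` give `x ∈ A` with
`n - l - 1 ≤ v_2(n!) ≤ v_2(x) + v_2(m!) ≤ log_2 x + m - 1`, so `n - m ≤ log_2 x + l`, and `x ≤ a + m`.
If `a ≤ n` then `x < 2 n`, `log_2 x ≤ l + 1`. Otherwise `x < 2 a`, `log_2 x ≤ 1 + log_2 a`, and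
`2^(t log_2 a) ≤ a^t ≤ n! ≤ n^n < 2^((l+1) n)` gives `t * log_2 a ≤ (l+1) n`. -/
theorem large_nat {n t a m : ℕ} {A : Finset ℕ} (hn : 2 ≤ n) (h : IsFac n t a m A) (hm : 1 ≤ m)
    (hmn : m < n) : t * (n - m) ≤ t * (2 * Nat.log 2 n + 3) + n * (Nat.log 2 n + 1) := by
  sorry

/-- MANY FACTORS. From `large_nat`: `n - m ≤ 2 l + 3 + 4 n^(1-θ) (l + 1)`, `l ≤ log n / log 2`,
`log n ≥ log 2`, `n^(1-θ) ≥ 1`. `C = 40` is enough. -/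
theorem large : ∃ C : ℝ, 0 < C ∧ ∀ (θ : ℝ) (n t a m : ℕ) (A : Finset ℕ), 0 ≤ θ → θ ≤ 1 → 2 ≤ n →
    IsFac n t a m A → 1 ≤ m → m < n → (n : ℝ) ^ θ / 4 < t →
    (n : ℝ) - C * (n : ℝ) ^ (1 - θ) * Real.log n ≤ m := by
  sorry

end Fac88
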