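import Pool.Agent.W_198aa6_h88.TwoPair
import Pool.Agent.W_156d3b_h46.Plotkin
import Pool.Agent.W_156d3b_h46.Weights
import Pool.Agent.W_156d3b_h46.Small2
import Pool.Agent.W_156d3b_h46.WinP

set_option autoImplicit false

namespace Fac88

open Nat

theorem TwoWin_large : ∃ X0 : ℕ, 4 ≤ X0 ∧ ∀ X : ℕ, X0 ≤ X →
    3 * Real.log (4 * X) + Real.log 8 ≤ (X : ℝ) / 16 := by
  have hlo := Real.isLittleO_log_id_atTop.bound (show (0 : ℝ) < 1 / 1000 by norm_num)
  rw [Filter.eventually_atTop] at hlo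
  obtain ⟨x0, hx0⟩ := hlo
  obtain ⟨N, hN⟩ := exists_nat_ge x0
  refine ⟨max N 1000, le_trans (by norm_num) (le_max_right _ _), fun X hX => ?_⟩
  have hX1 : N ≤ X := (le_max_left _ _).trans hX
  have hX2 : 1000 ≤ X := (le_max_right _ _).trans hX
  have hX3 : (1000 : ℝ) ≤ X := by exact_mod_cast hX2
  have hX4 : (N : ℝ) ≤ X := by exact_mod_cast hX1
  have h1 := hx0 (4 * (X : ℝ)) (by linarith)
  have h2 : 0 ≤ Real.log (4 * (X : ℝ)) := Real.log_nonneg (by linarith)
  simp only [id, Real.norm_eq_abs] at h1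
  rw [abs_of_nonneg h2, abs_of_nonneg (by linarith : (0 : ℝ) ≤ 4 * (X : ℝ))] at h1
  have h3 : Real.log 8 ≤ 8 - 1 := Real.log_le_sub_one_of_pos (by norm_num)
  linarith

theorem TwoWin_log (X : ℕ) (hX : 1 ≤ X) :
    Real.log (4 * X) ≤ ((Nat.log 2 (4 * X) + 1 : ℕ) : ℝ) := by
  have h1 : 4 * X < 2 ^ (Nat.log 2 (4 * X) + 1) := Nat.lt_pow_succ_log_self (by norm_num) _
  have h2 : (4 * (X : ℝ)) ≤ (2 : ℝ) ^ (Nat.log 2 (4 * X) + 1) := by exact_mod_cast h1.le
  have hXpos : (0 : ℝ) < X := by exact_mod_cast hX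
  calc Real.log (4 * X) ≤ Real.log ((2 : ℝ) ^ (Nat.log 2 (4 * X) + 1)) :=
        Real.log_le_log (by positivity) h2
    _ = ((Nat.log 2 (4 * X) + 1 : ℕ) : ℝ) * Real.log 2 := Real.log_pow _ _
    _ ≤ ((Nat.log 2 (4 * X) + 1 : ℕ) : ℝ) * 1 := by
        have := Real.log_two_lt_d9
        exact mul_le_mul_of_nonneg_left (by linarith) (Nat.cast_nonneg _)
    _ = _ := mul_one _

/-- one class -/
theorem TwoWin_core : ∃ X0 : ℕ, ∀ X ≥ X0, ∀ K, X ≤ K → K ≤ 3 * X →
    ∀ (S : Finset ℕ) (i : ℕ → ℕ → ℕ) (a m : ℕ → ℕ) (A : ℕ → Finset ℕ),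
    S ⊆ Finset.Icc K (K + Sur46.W2 2 X) →
    (∀ k ∈ S, IsFac k 2 (a k) (m k) (A k) ∧ m k < k) →
    (∀ p, p.Prime → ∀ k ∈ S, 1 ≤ i p k ∧ i p k ≤ 2 ∧
      ∀ e, p ^ e ∣ k ! → p ^ e ∣ (a k + (i p k - 1) * m k) * m k) →
    (∀ k ∈ S, ∀ k' ∈ S, i 2 k = i 2 k') → (∀ k ∈ S, ∀ k' ∈ S, k % 2 = k' % 2) →
    S.card ≤ 8 * (Nat.log 2 (4 * X) + 1) := by
  obtain ⟨X1, hX12, h1⟩ := Sur46.small2
  obtain ⟨K2, h2⟩ := Sur46.wt_two
  obtain ⟨X3, hX34, h3⟩ := TwoWin_large
  refine ⟨max (max X1 K2) X3, ?_⟩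
  intro X hX K hXK hK3 S i a m A hS hfac hi hagree hpar
  have hX1 : X1 ≤ X := ((le_max_left _ _).trans (le_max_left _ _)).trans hX
  have hX3 : X3 ≤ X := (le_max_right _ _).trans hX
  have hK2 : K2 ≤ K := (((le_max_right _ _).trans (le_max_left _ _)).trans hX).trans hXK
  have hX4 : 4 ≤ X := hX34.trans hX3
  have hW := (h1 X hX1 2 (by unfold Sur46.D2; omega)).2
  have hE := h3 X hX3
  have hw2 := h2 K hK2
  have hXpos : (0:ℝ) < X := by exact_mod_cast (by omega : 0 < X)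
  have hKpos : (0:ℝ) < K := by exact_mod_cast (by omega : 0 < K)
  have hXK' : (X:ℝ) ≤ K := by exact_mod_cast hXK
  have hXge : (4:ℝ) ≤ X := by exact_mod_cast hX4
  have hlog1 : (1:ℝ) ≤ Real.log (4 * X) := by
    rw [Real.le_log_iff_exp_le (by positivity)]
    have := Real.exp_one_lt_d9
    linarith
  set T := Real.log (K ! : ℕ) with hT
  have hTnn : 0 ≤ T := Real.log_natCast_nonneg _
  have hWlog : (Sur46.W2 2 X : ℝ) * Real.log (4 * X) ≤ X / 8 := by
    have h4 : (Sur46.W2 2 X : ℝ) ≤ ((2 : ℕ) * X : ℝ) / (16 * Real.log (4 * X)) := by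
      unfold Sur46.W2
      exact Nat.floor_le (by positivity)
    calc (Sur46.W2 2 X : ℝ) * Real.log (4 * X)
        ≤ ((2 : ℕ) * X : ℝ) / (16 * Real.log (4 * X)) * Real.log (4 * X) :=
          mul_le_mul_of_nonneg_right h4 (by linarith)
      _ = X / 8 := by
          have hne : Real.log (4 * (X:ℝ)) ≠ 0 := by linarith
          generalize Real.log (4 * (X:ℝ)) = L at hne
          push_cast
          field_simp
          ring
  have hKW : Real.log ((K + Sur46.W2 2 X : ℕ) : ℝ) ≤ Real.log (4 * X) := by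
    apply Real.log_le_log
    · exact_mod_cast (by omega : 0 < K + Sur46.W2 2 X)
    · have : K + Sur46.W2 2 X ≤ 4 * X := by omega
      exact_mod_cast this
  have hpair : ∀ k ∈ S, ∀ k' ∈ S, k < k' →
      ∑ p ∈ (Sur46.primesTo K).filter (fun p => i p k = i p k'), Sur46.wt K p ≤
        T / 2 + X / 8 := by
    intro k hk k' hk' hlt
    have hI := Finset.mem_Icc.1 (hS hk)
    have hI' := Finset.mem_Icc.1 (hS hk')
    have hp := hpar k hk k' hk'
    have h4 := two_pair (K := K) (by omega) hI.1 (hfac k hk).1 (hfac k' hk').1 (hfac k hk).2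
      (hfac k' hk').2 (by omega) (fun p => i p k) (fun p => i p k')
      (fun p hp => ⟨(hi p hp k hk).1, (hi p hp k hk).2.1⟩)
      (fun p hp => (hi p hp k hk).2.2) (fun p hp => (hi p hp k' hk').2.2)
    have h5 : Real.log (k' : ℝ) ≤ Real.log (4 * X) := by
      refine le_trans (Real.log_le_log ?_ ?_) hKW
      · exact_mod_cast (by omega : 0 < k')
      · exact_mod_cast hI'.2
    have h6 : Real.log (k' ! : ℕ) ≤ T + X / 8 := by
      have h7 : Real.log (k' ! : ℕ) ≤ Real.log ((K + Sur46.W2 2 X)! : ℕ) := by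
        apply Real.log_le_log
        · exact_mod_cast Nat.factorial_pos _
        · exact_mod_cast Nat.factorial_le hI'.2
      have h8 := Sur46.log_fact_le (K := K) (w := Sur46.W2 2 X) (by omega)
      have h9 : (Sur46.W2 2 X : ℝ) * Real.log ((K + Sur46.W2 2 X : ℕ) : ℝ) ≤ X / 8 :=
        le_trans (mul_le_mul_of_nonneg_left hKW (by positivity)) hWlog
      linarith
    linarith
  have h2mem : 2 ∈ Sur46.primesTo K := by
    simp only [Sur46.primesTo, Finset.mem_filter, Finset.mem_range]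
    exact ⟨by omega, Nat.prime_two⟩
  have hpl := Sur46.plotkin (Sur46.primesTo K) S i 2 (by omega) (Sur46.wt K)
    (fun p _ => Sur46.wt_nonneg K p)
    (by
      intro p hp k hk
      have hpp : p.Prime := by
        simp only [Sur46.primesTo, Finset.mem_filter] at hp
        exact hp.2
      exact ⟨(hi p hpp k hk).1, (hi p hpp k hk).2.1⟩)
    2 h2mem hagree (T / 2 + X / 8)
    (by
      intro k hk k' hk' hne
      rcases Nat.lt_or_gt_of_ne hne with h | h
      · exact hpair k hk k' hk' h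
      · have h3 := hpair k' hk' k hk h
        have : (Sur46.primesTo K).filter (fun p => i p k = i p k') =
            (Sur46.primesTo K).filter (fun p => i p k' = i p k) := by
          ext p
          simp only [Finset.mem_filter]
          constructor <;> rintro ⟨a, b⟩ <;> exact ⟨a, b.symm⟩
        rw [this]
        exact h3)
  rw [Sur46.sum_wt, ← hT] at hpl
  set N : ℝ := (S.card : ℝ) with hN
  have hNnn : 0 ≤ N := by positivity
  push_cast at hpl
  have h14 : N ^ 2 * ((K:ℝ) / 4) ≤ N ^ 2 * ((1 - 1 / (2:ℝ)) * Sur46.wt K 2) :=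
    mul_le_mul_of_nonneg_left (by linarith) (by positivity)
  have h15 : N ^ 2 * ((K:ℝ) / 8) ≤ N * T := by
    have h16 : 0 ≤ N * (T / 2 + X / 8) := by positivity
    have h17 : N ^ 2 * ((X:ℝ) / 8) ≤ N ^ 2 * ((K:ℝ) / 8) := by
      apply mul_le_mul_of_nonneg_left _ (by positivity); linarith
    nlinarith
  have hTK := Sur46.log_fact_le_mul K (by omega)
  rw [← hT] at hTK
  have hlogK : Real.log K ≤ Real.log (4 * X) := by
    apply Real.log_le_log hKpos
    have : (K:ℝ) ≤ 3 * X := by exact_mod_cast hK3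
    linarith
  have hfin : N ≤ 8 * Real.log (4 * X) := by
    rcases eq_or_lt_of_le hNnn with h | h
    · rw [← h]; positivity
    · have h18 : N * ((K:ℝ) / 8) ≤ T := by
        have : N * (N * ((K:ℝ) / 8)) ≤ N * T := by nlinarith
        exact le_of_mul_le_mul_left this h
      have h19 : N * ((K:ℝ) / 8) ≤ K * Real.log (4 * X) := by
        calc N * ((K:ℝ) / 8) ≤ T := h18
          _ ≤ K * Real.log K := hTK
          _ ≤ K * Real.log (4 * X) := mul_le_mul_of_nonneg_left hlogK hKpos.le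
      have h20 : (K:ℝ) * N ≤ K * (8 * Real.log (4 * X)) := by nlinarith
      exact le_of_mul_le_mul_left h20 hKpos
  have hl := TwoWin_log X (by omega)
  have h21 : (S.card : ℝ) ≤ ((8 * (Nat.log 2 (4 * X) + 1) : ℕ) : ℝ) := by
    rw [← hN]
    push_cast at hl ⊢
    linarith
  exact_mod_cast h21

/-- PROOF (compare `Sur46` WinP.lean). Split `S` into 4 classes: parity of `k` and index `j 2 k ∈ {1,2}` of
`two_index`; two different elements of a class differ by at least 2. For a class `S'`, `N = |S'|`, apply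
`Sur46.plotkin` with `P = primesTo K`, `δ = 2`, `w = wt K`, `p0 = 2` and
`B = 3 log(4X) + log 8 + (log K! + w log (4X)) / 2` (`two_pair`, `k' ≤ K + w ≤ 4X`, `Sur46.log_fact_le`), `w = W2 2 X`,
`w log (4X) ≤ X / 8`.  With `T = ∑ wt = log K!` (`sum_wt`), `wt K 2 ≥ K/2` (`wt_two`):
`N²/2 T + N² (1/2) (K/2) ≤ N T + N² B`, i.e. `N (K/4 - X/16 - 3 log(4X) - log 8) ≤ T ≤ K log K`; for large `X` the
bracket is `≥ K/8`, so `N ≤ 8 log K ≤ 8 log (4X) ≤ 8 (log_2 (4X) + 1)`. Sum of 4 classes: `≤ 32 (log_2 (4X) + 1)`. -/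
theorem two_window : ∃ X0 : ℕ, ∀ X ≥ X0, ∀ K, X ≤ K → K ≤ 3 * X →
    ∀ S : Finset ℕ, S ⊆ Finset.Icc K (K + Sur46.W2 2 X) → (∀ k ∈ S, Eqt 2 k) →
    S.card ≤ 32 * (Nat.log 2 (4 * X) + 1) := by
  obtain ⟨X0, h⟩ := TwoWin_core
  refine ⟨X0, ?_⟩
  intro X hX K hXK hK3 S hS hm
  have hex : ∀ k, ∃ a m A, k ∈ S → IsFac k 2 a m A ∧ m < k := by
    intro k
    by_cases hk : k ∈ S
    · obtain ⟨a, m, A, h1, h2⟩ := hm k hk
      exact ⟨a, m, A, fun _ => ⟨h1, h2⟩⟩
    · exact ⟨0, 0, ∅, fun h => absurd h hk⟩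
  choose a m A hfac using hex
  have hexi : ∀ p k, ∃ i, (p.Prime → k ∈ S → (1 ≤ i ∧ i ≤ 2 ∧
      ∀ e, p ^ e ∣ k ! → p ^ e ∣ (a k + (i - 1) * m k) * m k)) := by
    intro p k
    by_cases hp : p.Prime
    · by_cases hk : k ∈ S
      · obtain ⟨i, hi⟩ := two_index (hfac k hk).1 hp
        exact ⟨i, fun _ _ => hi⟩
      · exact ⟨0, fun _ h => absurd h hk⟩
    · exact ⟨0, fun h => absurd h hp⟩
  choose i hi using hexi
  have hmain := Finset.card_le_mul_card_image_of_maps_to (f := fun k => (k % 2, i 2 k)) (s := S)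
    (t := Finset.range 2 ×ˢ Finset.Icc 1 2)
    (by
      intro k hk
      have h1 := hi 2 k Nat.prime_two hk
      exact Finset.mem_product.2 ⟨Finset.mem_range.2 (Nat.mod_lt _ (by norm_num)),
        Finset.mem_Icc.2 ⟨h1.1, h1.2.1⟩⟩) (8 * (Nat.log 2 (4 * X) + 1))
    (by
      intro c _
      apply h X hX K hXK hK3 (S.filter (fun k => (k % 2, i 2 k) = c)) i a m A
      · exact (Finset.filter_subset _ _).trans hS
      · intro k hk; exact hfac k (Finset.mem_filter.1 hk).1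
      · intro p hp k hk; exact hi p k hp (Finset.mem_filter.1 hk).1
      · intro k hk k' hk'
        have h1 := (Finset.mem_filter.1 hk).2.trans (Finset.mem_filter.1 hk').2.symm
        exact (Prod.mk.inj h1).2
      · intro k hk k' hk'
        have h1 := (Finset.mem_filter.1 hk).2.trans (Finset.mem_filter.1 hk').2.symm
        exact (Prod.mk.inj h1).1)
  have h4 : (Finset.range 2 ×ˢ Finset.Icc 1 2).card = 4 := by decide
  rw [h4] at hmain
  omega

end Fac88
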