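import Pool.Agent.W_198aa6_h88.Struct
import Pool.Agent.W_198aa6_h88.FVal

set_option autoImplicit false

namespace Fac88

open Nat

theorem log_two_mul_le {n : ℕ} (hn : 1 ≤ n) : (Nat.log 2 n : ℝ) * Real.log 2 ≤ Real.log n := by
  rw [← Real.log_pow]
  refine Real.log_le_log (by positivity) ?_
  exact_mod_cast Nat.pow_log_le_self 2 (by omega : n ≠ 0)

/-- `f n ≥ n - C log n` or `n!` has a factorisation with few factors. -/
theorem three_types : ∃ C : ℝ, 0 < C ∧ ∀ n : ℕ, 2 ≤ n →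
    ((f n : ℕ) : ℝ) < (n : ℝ) - C * Real.log n → Eqt 2 n ∨ Eqt 3 n ∨ Few 4 n := by
  have hl2 : 0 < Real.log 2 := Real.log_pos (by norm_num)
  refine ⟨(2 ^ 14) / Real.log 2, by positivity, fun n hn hf => ?_⟩
  obtain ⟨h1, h2, t, a, A, hA⟩ := f_spec n hn
  have hlog : (Nat.log 2 n : ℝ) * Real.log 2 ≤ Real.log n := log_two_mul_le (by omega)
  have hlog1 : Real.log 2 ≤ Real.log n :=
    Real.log_le_log (by norm_num) (by exact_mod_cast hn)
  have hC : ((2 : ℝ) ^ 14) / Real.log 2 * Real.log n = 2 ^ 14 * (Real.log n / Real.log 2) := by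
    ring
  rw [hC] at hf
  have hq1 : 1 ≤ Real.log n / Real.log 2 := by
    rw [le_div_iff₀ hl2]
    linarith
  have hq2 : (Nat.log 2 n : ℝ) ≤ Real.log n / Real.log 2 := by
    rw [le_div_iff₀ hl2]
    exact hlog
  by_cases hbig : 2 ^ 14 ≤ n
  · rcases dichotomy hbig hA h1 h2 with h3 | h3
    · have h4 := hA.two_le h1
      by_cases e2 : t = 2
      · subst e2
        exact Or.inl ⟨a, f n, A, hA, h2⟩
      · by_cases e3 : t = 3
        · subst e3
          exact Or.inr (Or.inl ⟨a, f n, A, hA, h2⟩)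
        · exact Or.inr (Or.inr ⟨t, a, f n, A, hA, h2, by omega, h3⟩)
    · exfalso
      have h4 : (n : ℝ) ≤ (f n : ℝ) + 5 * (Nat.log 2 n : ℝ) + 4 := by exact_mod_cast h3
      linarith
  · exfalso
    push Not at hbig
    have h3 : (n : ℝ) < 2 ^ 14 := by exact_mod_cast hbig
    have h4 : (0 : ℝ) ≤ (f n : ℝ) := Nat.cast_nonneg _
    linarith

end Fac88
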