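import Pool.Agent.W_198aa6_h88.WindowS
import Pool.Agent.W_198aa6_h88.TwoWin
import Pool.Agent.W_198aa6_h88.AsyFew
import Pool.Agent.W_198aa6_h88.AsyTwo
import Pool.Agent.W_198aa6_h88.Types
import Pool.Agent.W_198aa6_h88.DyadT
import Pool.Agent.W_156d3b_h46.Cover

set_option autoImplicit false

namespace Fac88

open Nat

open Classical in
/-- the three counts in a dyadic interval -/
theorem count_two (θ : ℝ) (hθ : 1 / 3 ≤ θ) : ∃ C : ℝ, ∃ X0 : ℕ, 0 ≤ C ∧ ∀ X ≥ X0,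
    (((Finset.Ioc X (2 * X + 1)).filter (Eqt 2)).card : ℝ) ≤ C * (X : ℝ) ^ θ := by
  obtain ⟨X1, h1⟩ := two_window
  obtain ⟨C, X2, hC, h2⟩ := asy_two θ hθ
  refine ⟨C, max (max X1 X2) 1, hC, fun X hX => ?_⟩
  have hX1 : X1 ≤ X := le_trans (le_trans (le_max_left _ _) (le_max_left _ _)) hX
  have hX2 : X2 ≤ X := le_trans (le_trans (le_max_right _ _) (le_max_left _ _)) hX
  have hX3 : 1 ≤ X := le_trans (le_max_right _ _) hX
  have h3 := Sur46.cover (Eqt 2) X (Sur46.W2 2 X) (32 * (Nat.log 2 (4 * X) + 1)) hX3 (by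
    intro K hK1 hK2
    refine h1 X hX1 K hK1 hK2 _ (Finset.filter_subset _ _) ?_
    intro k hk
    exact (Finset.mem_filter.1 hk).2)
  exact le_trans (by exact_mod_cast h3) (h2 X hX2)

open Classical in
theorem count_few (θ : ℝ) (hθ : 1 / 3 ≤ θ) : ∃ C : ℝ, ∃ X0 : ℕ, 0 ≤ C ∧ ∀ X ≥ X0,
    (((Finset.Ioc X (2 * X + 1)).filter (fun n => Eqt 3 n ∨ Few 4 n)).card : ℝ)
      ≤ C * (X : ℝ) ^ θ := by
  obtain ⟨X1, h1⟩ := window_eq 3 (by norm_num)
  obtain ⟨X4, h4⟩ := window_few 4 (by norm_num)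
  obtain ⟨C, X2, hC, h2⟩ := asy_few θ hθ
  refine ⟨C, max (max (max X1 X4) X2) 1, hC, fun X hX => ?_⟩
  have hX1 : X1 ≤ X := le_trans (le_trans (le_trans (le_max_left _ _) (le_max_left _ _))
    (le_max_left _ _)) hX
  have hX4 : X4 ≤ X := le_trans (le_trans (le_trans (le_max_right _ _) (le_max_left _ _))
    (le_max_left _ _)) hX
  have hX2 : X2 ≤ X := le_trans (le_trans (le_max_right _ _) (le_max_left _ _)) hX
  have hX3 : 1 ≤ X := le_trans (le_max_right _ _) hX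
  have h3 := Sur46.cover (fun n => Eqt 3 n ∨ Few 4 n) X (Sur46.W X)
    (20 * 3 * (Sur46.primesTo (Sur46.Y 3 X)).card +
        20 * (Lg X) ^ 2 * (Sur46.primesTo (Sur46.Y 4 X)).card) hX3 (by
    intro K hK1 hK2
    have e1 := h1 X hX1 K hK1 hK2 ((Finset.Icc K (K + Sur46.W X)).filter (Eqt 3))
      (Finset.filter_subset _ _) (fun k hk => (Finset.mem_filter.1 hk).2)
    have e2 := h4 X hX4 K hK1 hK2 ((Finset.Icc K (K + Sur46.W X)).filter (Few 4))
      (Finset.filter_subset _ _) (fun k hk => (Finset.mem_filter.1 hk).2)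
    have e3 : (Finset.Icc K (K + Sur46.W X)).filter (fun n => Eqt 3 n ∨ Few 4 n) ⊆
        (Finset.Icc K (K + Sur46.W X)).filter (Eqt 3) ∪
          (Finset.Icc K (K + Sur46.W X)).filter (Few 4) := by
      intro k hk
      rw [Finset.mem_filter] at hk
      rw [Finset.mem_union, Finset.mem_filter, Finset.mem_filter]
      rcases hk.2 with h | h
      · exact Or.inl ⟨hk.1, h⟩
      · exact Or.inr ⟨hk.1, h⟩
    exact le_trans (Finset.card_le_card e3) (le_trans (Finset.card_union_le _ _)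
      (Nat.add_le_add e1 e2)))
  exact le_trans (by exact_mod_cast h3) (h2 X hX2)

/-- ASSEMBLY. `Sur46.cover` for `Eqt 2` (windows of length `W2 2 X`, `two_window`, `asy_two`) and for
`Eqt 3 ∨ Few 4` (windows of length `W X`, `window_eq 3`, `window_few 4`, `asy_few`), then `dyadic` and
`three_types`. -/
theorem main : ∃ C : ℝ, 0 < C ∧ ∀ N : ℕ,
    (Set.ncard {n : ℕ | 2 ≤ n ∧ n ≤ N ∧ ((f n : ℕ) : ℝ) < (n : ℝ) - C * Real.log n} : ℝ) ≤
      C * (N : ℝ) ^ ((1 : ℝ) / 3) := by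
  classical
  obtain ⟨C1, hC1, h1⟩ := three_types
  obtain ⟨C2, X2, hC2, h2⟩ := count_two (1 / 3) le_rfl
  obtain ⟨C3, X3, hC3, h3⟩ := count_few (1 / 3) le_rfl
  obtain ⟨Q, hQ⟩ : ∃ Q : ℕ → Prop, Q = fun n => 2 ≤ n ∧
      ((f n : ℕ) : ℝ) < (n : ℝ) - C1 * Real.log n := ⟨_, rfl⟩
  have hQ0 : ¬ Q 0 := by
    rw [hQ]
    rintro ⟨h, -⟩
    omega
  have hdy := dyadic Q hQ0 (1 / 3) (by norm_num) (C2 + C3) (by linarith) (max X2 X3) (by
    intro X hX
    have hX2 : X2 ≤ X := le_trans (le_max_left _ _) hX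
    have hX3 : X3 ≤ X := le_trans (le_max_right _ _) hX
    have e2 := h2 X hX2
    have e3 := h3 X hX3
    have hsub : (Finset.Ioc X (2 * X + 1)).filter Q ⊆
        (Finset.Ioc X (2 * X + 1)).filter (Eqt 2) ∪
          (Finset.Ioc X (2 * X + 1)).filter (fun n => Eqt 3 n ∨ Few 4 n) := by
      intro n hn
      rw [Finset.mem_filter] at hn
      obtain ⟨hn1, hn2⟩ := hn
      rw [hQ] at hn2
      obtain ⟨hn3, hn4⟩ := hn2
      have hn5 := h1 n hn3 hn4
      rw [Finset.mem_union, Finset.mem_filter, Finset.mem_filter]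
      rcases hn5 with h | h | h
      · exact Or.inl ⟨hn1, h⟩
      · exact Or.inr ⟨hn1, Or.inl h⟩
      · exact Or.inr ⟨hn1, Or.inr h⟩
    have h5 := Finset.card_le_card hsub
    have h7 := Finset.card_union_le ((Finset.Ioc X (2 * X + 1)).filter (Eqt 2))
          ((Finset.Ioc X (2 * X + 1)).filter (fun n => Eqt 3 n ∨ Few 4 n))
    have h8 : ((Finset.Ioc X (2 * X + 1)).filter Q).card ≤
        ((Finset.Ioc X (2 * X + 1)).filter (Eqt 2)).card +
          ((Finset.Ioc X (2 * X + 1)).filter (fun n => Eqt 3 n ∨ Few 4 n)).card := by omega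
    have h9 : (((Finset.Ioc X (2 * X + 1)).filter Q).card : ℝ) ≤
        (((Finset.Ioc X (2 * X + 1)).filter (Eqt 2)).card : ℝ) +
          (((Finset.Ioc X (2 * X + 1)).filter (fun n => Eqt 3 n ∨ Few 4 n)).card : ℝ) := by
      exact_mod_cast h8
    calc (((Finset.Ioc X (2 * X + 1)).filter Q).card : ℝ) ≤ _ := h9
      _ ≤ C2 * (X : ℝ) ^ ((1 : ℝ) / 3) + C3 * (X : ℝ) ^ ((1 : ℝ) / 3) := by linarith
      _ = (C2 + C3) * (X : ℝ) ^ ((1 : ℝ) / 3) := by ring)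
  obtain ⟨A, hA⟩ := hdy
  refine ⟨C1 + |A|, by positivity, fun N => ?_⟩
  have hsub : {n : ℕ | 2 ≤ n ∧ n ≤ N ∧
      ((f n : ℕ) : ℝ) < (n : ℝ) - (C1 + |A|) * Real.log n} ⊆
      (((Finset.range (N + 1)).filter Q : Finset ℕ) : Set ℕ) := by
    rintro n ⟨hn1, hn2, hn3⟩
    rw [Finset.mem_coe, Finset.mem_filter, Finset.mem_range, hQ]
    refine ⟨by omega, hn1, lt_of_lt_of_le hn3 ?_⟩
    have h5 : 0 ≤ Real.log n := Real.log_nonneg (by exact_mod_cast (by omega : 1 ≤ n))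
    have h6 : 0 ≤ |A| * Real.log n := mul_nonneg (abs_nonneg _) h5
    nlinarith [h6]
  have h5 := Set.ncard_le_ncard hsub (Finset.finite_toSet _)
  rw [Set.ncard_coe_finset] at h5
  have h6 : (Set.ncard {n : ℕ | 2 ≤ n ∧ n ≤ N ∧
      ((f n : ℕ) : ℝ) < (n : ℝ) - (C1 + |A|) * Real.log n} : ℝ) ≤
      (((Finset.range (N + 1)).filter Q).card : ℝ) := by exact_mod_cast h5
  refine le_trans h6 (le_trans (hA N) ?_)
  have h7 : 0 ≤ (N : ℝ) ^ ((1 : ℝ) / 3) := Real.rpow_nonneg (Nat.cast_nonneg _) _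
  exact mul_le_mul_of_nonneg_right (by linarith [le_abs_self A]) h7

end Fac88
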