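import Pool.Agent.W_198aa6_h88.Padic
import Pool.Agent.W_198aa6_h88.Leg

set_option autoImplicit false

namespace Fac88

open Nat

/-- `a^t ≤ n! ≤ n^n < 2^{(l+1) n} ≤ 2^{t n}`. -/
theorem a_lt {n t a m : ℕ} {A : Finset ℕ} (h : IsFac n t a m A) (hn : 2 ≤ n)
    (ht : Nat.log 2 n + 3 ≤ t) : a < 2 ^ n := by
  by_contra hcon
  push Not at hcon
  have h1 : (2 ^ n) ^ t ≤ n ^ n :=
    (Nat.pow_le_pow_left hcon t).trans (h.pow_le.trans (Nat.factorial_le_pow n))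
  have h2 : n ^ n < (2 ^ (Nat.log 2 n + 1)) ^ n :=
    Nat.pow_lt_pow_left (Nat.lt_pow_succ_log_self (by norm_num) n) (by omega)
  have h3 : (2 ^ n) ^ t < (2 ^ (Nat.log 2 n + 1)) ^ n := lt_of_le_of_lt h1 h2
  rw [← pow_mul, ← pow_mul] at h3
  have h4 : n * t < (Nat.log 2 n + 1) * n := (Nat.pow_lt_pow_iff_right (by norm_num)).1 h3
  have h5 : (Nat.log 2 n + 1) * n ≤ t * n := Nat.mul_le_mul_right n (by omega)
  rw [mul_comm n t] at h4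
  omega

theorem MedVal_aux {t l : ℕ} (ht : 0 < t) : (t - 1) * l + l + 1 ≤ t * (l + 1) := by
  obtain ⟨k, rfl⟩ : ∃ k, t = k + 1 := ⟨t - 1, by omega⟩
  rw [Nat.add_sub_cancel]
  nlinarith

/-- `v_2(x) ≥ v_2(n!) - (t-1) log_2 m ≥ n - l - 1 - (t-1) l ≥ n - t (l+1)`, `l = Nat.log 2 n`,
from `IsFac.padic` and `leg_two_ge`. -/
theorem two_pow_dvd {n t a m s : ℕ} {A : Finset ℕ} (h : IsFac n t a m A) (hn : 2 ≤ n) (hm : m < n)
    (hs : t * (Nat.log 2 n + 1) ≤ s) : ∃ x ∈ A, 2 ^ (n - s) ∣ x := by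
  obtain ⟨x, hx, -, h2⟩ := h.padic Nat.prime_two
  refine ⟨x, hx, ?_⟩
  rw [Nat.prime_two.pow_dvd_iff_le_factorization (h.pos hx).ne']
  have h3 : Nat.log 2 m ≤ Nat.log 2 n := Nat.log_mono_right hm.le
  have h4 : (t - 1) * Nat.log 2 m ≤ (t - 1) * Nat.log 2 n := Nat.mul_le_mul_left _ h3
  have h5 := leg_two_ge n (by omega)
  have h6 := MedVal_aux (l := Nat.log 2 n) h.t_pos
  omega

/-- `v_3(x) ≥ v_3(n!) - (t-1) log_3 m ≥ n/2 - l - 1 - (t-1) l ≥ n/2 - t (l+1)`, from `IsFac.padic` and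
`leg_three_ge`, `Nat.log 3 m ≤ Nat.log 2 n`. -/
theorem three_pow_dvd {n t a m s : ℕ} {A : Finset ℕ} (h : IsFac n t a m A) (hn : 2 ≤ n) (hm : m < n)
    (hs : t * (Nat.log 2 n + 1) ≤ s) : ∃ x ∈ A, 3 ^ (n / 2 - s) ∣ x := by
  obtain ⟨x, hx, -, h2⟩ := h.padic Nat.prime_three
  refine ⟨x, hx, ?_⟩
  rw [Nat.prime_three.pow_dvd_iff_le_factorization (h.pos hx).ne']
  have h3 : Nat.log 3 m ≤ Nat.log 2 n :=
    (Nat.log_anti_left (by norm_num) (by norm_num)).trans (Nat.log_mono_right hm.le)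
  have h4 : (t - 1) * Nat.log 3 m ≤ (t - 1) * Nat.log 2 n := Nat.mul_le_mul_left _ h3
  have h5 := leg_three_ge n (by omega)
  have h6 := MedVal_aux (l := Nat.log 2 n) h.t_pos
  omega

end Fac88
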