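import Mathlib

set_option autoImplicit false

namespace Fac88

open Nat

/-- `(n+1)...(n+k)` is not a `t`-th power for `t ≥ log_2 n + 3`, `k ≤ n`.
PROOF. Suppose `(n+k)! = n! * s^t`, so `R := s^t = k! * C(n+k,k)` (`Nat.add_choose_mul_factorial_mul_factorial`).
`k = 1`: `s^t = n + 1 ≥ 2`, so `s ≥ 2` and `2^t ≤ n + 1`, but `n + 1 ≤ 2^(log_2 n + 1) < 2^t`.
`k ≥ 2`: Bertrand (`Nat.exists_prime_lt_and_le_two_mul` for `k / 2`) gives a prime `q` with `k < 2 q`, `q ≤ k`
(for `k = 2, 3` take `q = 2`; in general from `k/2 < q ≤ 2 (k/2)`). `q ∣ k!`, so `q ∣ s` and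
`v_q(R) ≥ t`. But `v_q(k!) = 1` (`k < 2 q`, `Nat.factorization_factorial`-lemmas, or `q^2 ∤ k!`; note
`q ∤ k!/q`) and `v_q(C(n+k,k)) ≤ log_q (n+k) ≤ log_2 (2n) = log_2 n + 1` (`Nat.factorization_choose_le_log`), so
`v_q(R) ≤ log_2 n + 2 < t`. -/
theorem not_pow {n k s t : ℕ} (hn : 1 ≤ n) (hk : 1 ≤ k) (hkn : k ≤ n) (ht : Nat.log 2 n + 3 ≤ t) :
    (n + k)! ≠ n ! * s ^ t := by
  intro h
  have h1 : n ! * s ^ t = n ! * (k ! * (n + k).choose k) := by
    rw [← h, ← Nat.factorial_mul_ascFactorial, Nat.ascFactorial_eq_factorial_mul_choose]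
  have hR : s ^ t = k ! * (n + k).choose k :=
    Nat.eq_of_mul_eq_mul_left (Nat.factorial_pos n) h1
  have ht0 : t ≠ 0 := by omega
  have hRpos : 0 < k ! * (n + k).choose k :=
    Nat.mul_pos (Nat.factorial_pos k) (Nat.choose_pos (by omega))
  have hs0 : s ≠ 0 := by
    rintro rfl
    rw [zero_pow ht0] at hR
    omega
  rcases Nat.lt_or_ge 1 k with hk2 | hk1
  · -- `k ≥ 2`
    obtain ⟨q, hq, hq1, hq2⟩ := Nat.exists_prime_lt_and_le_two_mul (k / 2) (by omega)
    have hkq : k < 2 * q := by omega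
    have hqk : q ≤ k := by omega
    have hqs : q ∣ s := by
      have : q ∣ s ^ t := by
        rw [hR]
        exact Dvd.dvd.mul_right ((hq.dvd_factorial).2 hqk) _
      exact hq.dvd_of_dvd_pow this
    have hv1 : t ≤ (s ^ t).factorization q := by
      rw [Nat.factorization_pow]
      have h3 : 1 ≤ s.factorization q :=
        (hq.dvd_iff_one_le_factorization hs0).1 hqs
      simp only [Finsupp.smul_apply, smul_eq_mul]
      exact Nat.le_mul_of_pos_right t h3
    have hv2 : (k !).factorization q = 1 := by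
      have : Fact q.Prime := ⟨hq⟩
      have hlog : Nat.log q k < 2 := by
        apply Nat.log_lt_of_lt_pow (by omega)
        have h2 := hq.two_le
        nlinarith
      rw [Nat.factorization_def _ hq, padicValNat_factorial hlog]
      have h3 : Finset.Ico 1 2 = {1} := by decide
      rw [h3, Finset.sum_singleton, pow_one]
      exact Nat.div_eq_of_lt_le (by omega) (by omega)
    have hv3 : ((n + k).choose k).factorization q ≤ Nat.log 2 n + 1 := by
      refine (Nat.factorization_choose_le_log).trans ?_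
      refine (Nat.log_anti_left (by norm_num) hq.two_le).trans ?_
      rw [← Nat.log_mul_base (by norm_num) (by omega : n ≠ 0)]
      exact Nat.log_mono_right (by omega)
    rw [hR, Nat.factorization_mul (Nat.factorial_pos k).ne' (Nat.choose_pos (by omega)).ne'] at hv1
    simp only [Finsupp.add_apply] at hv1
    omega
  · -- `k = 1`
    have hk1' : k = 1 := by omega
    subst hk1'
    simp only [Nat.factorial_one, one_mul, Nat.choose_one_right] at hR
    have hs2 : 2 ≤ s := by
      rcases Nat.lt_or_ge s 2 with h3 | h3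
      · have : s = 1 := by omega
        rw [this, one_pow] at hR
        omega
      · exact h3
    have h4 : 2 ^ t ≤ s ^ t := Nat.pow_le_pow_left hs2 t
    have h5 : n < 2 ^ (Nat.log 2 n + 1) := Nat.lt_pow_succ_log_self (by norm_num) n
    have h6 : 2 ^ (Nat.log 2 n + 1) < 2 ^ t := Nat.pow_lt_pow_right (by norm_num) (by omega)
    omega

end Fac88
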