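import Pool.Agent.W_156d3b_h46.Plotkin

set_option autoImplicit false

namespace Fac88

/-- AVERAGING with bad pairs. PROOF (compare `Sur46.plotkin`). For every `p ∈ P` the number of ordered pairs
`(k,k') ∈ S × S` with `i p k = i p k'` is `≥ N^2/δ` (`Sur46.Plotkin_cs`), and it is `N^2` for `p = p0`. So
`∑_{k,k'} ∑_{p : i p k = i p k'} w p ≥ (N^2/δ) T + N^2 (1 - 1/δ) w p0`. On the other hand each inner sum is `≤ T`,
and `≤ B` unless `bad k k'`; there are at most `N Bd` bad pairs. -/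
theorem avg (P S : Finset ℕ) (i : ℕ → ℕ → ℕ) (δ : ℕ) (hδ : 1 ≤ δ) (w : ℕ → ℝ)
    (hw : ∀ p ∈ P, 0 ≤ w p) (hi : ∀ p ∈ P, ∀ k ∈ S, 1 ≤ i p k ∧ i p k ≤ δ)
    (p0 : ℕ) (hp0 : p0 ∈ P) (hagree : ∀ k ∈ S, ∀ k' ∈ S, i p0 k = i p0 k') (B : ℝ) (hB0 : 0 ≤ B)
    (bad : ℕ → Finset ℕ) (Bd : ℕ) (hbad : ∀ k ∈ S, bad k ⊆ S ∧ (bad k).card ≤ Bd)
    (hB : ∀ k ∈ S, ∀ k' ∈ S, k' ∉ bad k → ∑ p ∈ P.filter (fun p => i p k = i p k'), w p ≤ B) :
    (S.card : ℝ) ^ 2 / δ * ∑ p ∈ P, w p + (S.card : ℝ) ^ 2 * (1 - 1 / δ) * w p0 ≤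
      S.card * Bd * ∑ p ∈ P, w p + (S.card : ℝ) ^ 2 * B := by
  classical
  have hT : 0 ≤ ∑ p ∈ P, w p := Finset.sum_nonneg hw
  have hup : ∑ k ∈ S, ∑ k' ∈ S, ∑ p ∈ P, (if i p k = i p k' then w p else 0) ≤
      S.card * Bd * ∑ p ∈ P, w p + (S.card : ℝ) ^ 2 * B := by
    have h1 : ∀ k ∈ S, ∑ k' ∈ S, ∑ p ∈ P, (if i p k = i p k' then w p else 0) ≤
        Bd * ∑ p ∈ P, w p + (S.card : ℝ) * B := by
      intro k hk
      obtain ⟨hbs, hbc⟩ := hbad k hk
      rw [← Finset.sum_sdiff hbs, add_comm]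
      refine add_le_add ?_ ?_
      · have h2 : ∑ k' ∈ bad k, ∑ p ∈ P, (if i p k = i p k' then w p else 0) ≤
            ∑ _k' ∈ bad k, ∑ p ∈ P, w p := by
          refine Finset.sum_le_sum fun k' _ => Finset.sum_le_sum fun p hp => ?_
          split_ifs
          · exact le_refl _
          · exact hw p hp
        refine h2.trans ?_
        rw [Finset.sum_const, nsmul_eq_mul]
        exact mul_le_mul_of_nonneg_right (by exact_mod_cast hbc) hT
      · have h2 : ∑ k' ∈ S \ bad k, ∑ p ∈ P, (if i p k = i p k' then w p else 0) ≤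
            ∑ _k' ∈ S \ bad k, B := by
          refine Finset.sum_le_sum fun k' hk' => ?_
          rw [Finset.mem_sdiff] at hk'
          rw [← Finset.sum_filter]
          exact hB k hk k' hk'.1 hk'.2
        refine h2.trans ?_
        rw [Finset.sum_const, nsmul_eq_mul]
        refine mul_le_mul_of_nonneg_right ?_ hB0
        exact_mod_cast Finset.card_le_card Finset.sdiff_subset
    refine (Finset.sum_le_sum h1).trans (le_of_eq ?_)
    rw [Finset.sum_const, nsmul_eq_mul]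
    ring
  have hδ' : (0 : ℝ) < δ := by exact_mod_cast hδ
  have hsw : ∑ k ∈ S, ∑ k' ∈ S, ∑ p ∈ P, (if i p k = i p k' then w p else 0) =
      ∑ p ∈ P, w p * ∑ k ∈ S, ∑ k' ∈ S, (if i p k = i p k' then (1 : ℝ) else 0) := by
    rw [Finset.sum_congr rfl fun k _ => Finset.sum_comm, Finset.sum_comm]
    refine Finset.sum_congr rfl fun p _ => ?_
    rw [Finset.mul_sum]
    refine Finset.sum_congr rfl fun k _ => ?_
    rw [Finset.mul_sum]
    refine Finset.sum_congr rfl fun k' _ => ?_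
    rw [mul_ite, mul_one, mul_zero]
  have he0 : ∑ k ∈ S, ∑ k' ∈ S, (if i p0 k = i p0 k' then (1 : ℝ) else 0) =
      (S.card : ℝ) ^ 2 := by
    rw [Finset.sum_congr rfl fun k hk => Finset.sum_congr rfl fun k' hk' =>
      if_pos (hagree k hk k' hk')]
    rw [Finset.sum_const, Finset.sum_const, nsmul_eq_mul, nsmul_eq_mul]
    ring
  refine le_trans ?_ hup
  rw [hsw, ← Finset.add_sum_erase P w hp0, ← Finset.add_sum_erase P (fun p => w p *
    ∑ k ∈ S, ∑ k' ∈ S, (if i p k = i p k' then (1 : ℝ) else 0)) hp0]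
  simp only [he0]
  have h5 : ∑ p ∈ P.erase p0, w p * ((S.card : ℝ) ^ 2 / δ) ≤
      ∑ p ∈ P.erase p0, w p * ∑ k ∈ S, ∑ k' ∈ S, (if i p k = i p k' then (1 : ℝ) else 0) := by
    refine Finset.sum_le_sum fun p hp => ?_
    have hp' := Finset.mem_of_mem_erase hp
    exact mul_le_mul_of_nonneg_left (Sur46.Plotkin_cs S (i p) δ hδ (hi p hp')) (hw p hp')
  rw [← Finset.sum_mul] at h5
  have h6 : (S.card : ℝ) ^ 2 / δ * (w p0 + ∑ p ∈ P.erase p0, w p) +
      (S.card : ℝ) ^ 2 * (1 - 1 / δ) * w p0 =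
      w p0 * (S.card : ℝ) ^ 2 + (∑ p ∈ P.erase p0, w p) * ((S.card : ℝ) ^ 2 / δ) := by
    field_simp
    ring
  rw [h6]
  linarith

end Fac88
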