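import Pool.Agent.W_198aa6_h88.PDat

set_option autoImplicit false

namespace Fac88

open Nat

theorem not_sep {D G a b : ℕ} (hG : 1 ≤ G) (ha : G < a) (hb : G < b) (h : ¬ Sep D G a b) :
    ∃ c ∈ Finset.Icc 1 D, ∃ c' ∈ Finset.Icc 1 D, a ^ c ≤ G * b ^ c' ∧ b ^ c' ≤ G * a ^ c := by
  unfold Sep at h
  push Not at h
  obtain ⟨i, j, i', j', hij, hij', hne, h1, h2⟩ := h
  have ha0 : 0 < a := by omega
  have hb0 : 0 < b := by omega
  -- comparison of a single power with G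
  have hA : ∀ n, 1 ≤ n → ∀ m, G < a ^ n * b ^ m := by
    intro n hn m
    calc G < a := ha
      _ = a ^ 1 := (pow_one a).symm
      _ ≤ a ^ n := Nat.pow_le_pow_right ha0 hn
      _ ≤ a ^ n * b ^ m := Nat.le_mul_of_pos_right _ (Nat.pow_pos hb0)
  have hB : ∀ m, 1 ≤ m → ∀ n, G < a ^ n * b ^ m := by
    intro m hm n
    calc G < b := hb
      _ = b ^ 1 := (pow_one b).symm
      _ ≤ b ^ m := Nat.pow_le_pow_right hb0 hm
      _ ≤ a ^ n * b ^ m := Nat.le_mul_of_pos_left _ (Nat.pow_pos ha0)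
  rcases Nat.lt_trichotomy i i' with hi | hi | hi
  · rcases Nat.lt_or_ge j' j with hj | hj
    · -- i < i', j' < j
      obtain ⟨c, rfl⟩ : ∃ c, i' = i + c := ⟨i' - i, by omega⟩
      obtain ⟨c', rfl⟩ : ∃ c', j = j' + c' := ⟨j - j', by omega⟩
      refine ⟨c, Finset.mem_Icc.2 ⟨by omega, by omega⟩, c', Finset.mem_Icc.2 ⟨by omega, by omega⟩, ?_, ?_⟩
      · have hpos : 0 < a ^ i * b ^ j' := Nat.mul_pos (Nat.pow_pos ha0) (Nat.pow_pos hb0)
        have e : (a ^ i * b ^ j') * a ^ c ≤ (a ^ i * b ^ j') * (G * b ^ c') := by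
          calc (a ^ i * b ^ j') * a ^ c = a ^ (i + c) * b ^ j' := by rw [pow_add]; ring
            _ ≤ G * (a ^ i * b ^ (j' + c')) := h1
            _ = (a ^ i * b ^ j') * (G * b ^ c') := by rw [pow_add]; ring
        exact Nat.le_of_mul_le_mul_left e hpos
      · have hpos : 0 < a ^ i * b ^ j' := Nat.mul_pos (Nat.pow_pos ha0) (Nat.pow_pos hb0)
        have e : (a ^ i * b ^ j') * b ^ c' ≤ (a ^ i * b ^ j') * (G * a ^ c) := by
          calc (a ^ i * b ^ j') * b ^ c' = a ^ i * b ^ (j' + c') := by rw [pow_add]; ring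
            _ ≤ G * (a ^ (i + c) * b ^ j') := h2
            _ = (a ^ i * b ^ j') * (G * a ^ c) := by rw [pow_add]; ring
        exact Nat.le_of_mul_le_mul_left e hpos
    · -- i < i', j ≤ j'
      exfalso
      obtain ⟨c, rfl⟩ : ∃ c, i' = i + c := ⟨i' - i, by omega⟩
      obtain ⟨c', rfl⟩ : ∃ c', j' = j + c' := ⟨j' - j, by omega⟩
      have hpos : 0 < a ^ i * b ^ j := Nat.mul_pos (Nat.pow_pos ha0) (Nat.pow_pos hb0)
      have e : (a ^ i * b ^ j) * (a ^ c * b ^ c') ≤ (a ^ i * b ^ j) * G := by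
        calc (a ^ i * b ^ j) * (a ^ c * b ^ c') = a ^ (i + c) * b ^ (j + c') := by
              rw [pow_add, pow_add]; ring
          _ ≤ G * (a ^ i * b ^ j) := h1
          _ = (a ^ i * b ^ j) * G := by ring
      have e2 := Nat.le_of_mul_le_mul_left e hpos
      have e3 := hA c (by omega) c'
      omega
  · subst hi
    exfalso
    have hj : j ≠ j' := by
      rintro rfl
      exact hne rfl
    have hposa : 0 < a ^ i := Nat.pow_pos ha0
    have hposb : 0 < b ^ j := Nat.pow_pos hb0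
    have hposb' : 0 < b ^ j' := Nat.pow_pos hb0
    rcases Nat.lt_or_gt_of_ne hj with h3 | h3
    · obtain ⟨c', rfl⟩ : ∃ c', j' = j + c' := ⟨j' - j, by omega⟩
      have e : (a ^ i * b ^ j) * b ^ c' ≤ (a ^ i * b ^ j) * G := by
        calc (a ^ i * b ^ j) * b ^ c' = a ^ i * b ^ (j + c') := by rw [pow_add]; ring
          _ ≤ G * (a ^ i * b ^ j) := h1
          _ = (a ^ i * b ^ j) * G := by ring
      have e2 := Nat.le_of_mul_le_mul_left e (Nat.mul_pos hposa hposb)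
      have e3 := hB c' (by omega) 0
      rw [pow_zero, one_mul] at e3
      omega
    · obtain ⟨c', rfl⟩ : ∃ c', j = j' + c' := ⟨j - j', by omega⟩
      have e : (a ^ i * b ^ j') * b ^ c' ≤ (a ^ i * b ^ j') * G := by
        calc (a ^ i * b ^ j') * b ^ c' = a ^ i * b ^ (j' + c') := by rw [pow_add]; ring
          _ ≤ G * (a ^ i * b ^ j') := h2
          _ = (a ^ i * b ^ j') * G := by ring
      have e2 := Nat.le_of_mul_le_mul_left e (Nat.mul_pos hposa hposb')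
      have e3 := hB c' (by omega) 0
      rw [pow_zero, one_mul] at e3
      omega
  · rcases Nat.lt_or_ge j j' with hj | hj
    · -- i' < i, j < j'
      obtain ⟨c, rfl⟩ : ∃ c, i = i' + c := ⟨i - i', by omega⟩
      obtain ⟨c', rfl⟩ : ∃ c', j' = j + c' := ⟨j' - j, by omega⟩
      have hpos : 0 < a ^ i' * b ^ j := Nat.mul_pos (Nat.pow_pos ha0) (Nat.pow_pos hb0)
      refine ⟨c, Finset.mem_Icc.2 ⟨by omega, by omega⟩, c', Finset.mem_Icc.2 ⟨by omega, by omega⟩, ?_, ?_⟩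
      · have e : (a ^ i' * b ^ j) * a ^ c ≤ (a ^ i' * b ^ j) * (G * b ^ c') := by
          calc (a ^ i' * b ^ j) * a ^ c = a ^ (i' + c) * b ^ j := by rw [pow_add]; ring
            _ ≤ G * (a ^ i' * b ^ (j + c')) := h2
            _ = (a ^ i' * b ^ j) * (G * b ^ c') := by rw [pow_add]; ring
        exact Nat.le_of_mul_le_mul_left e hpos
      · have e : (a ^ i' * b ^ j) * b ^ c' ≤ (a ^ i' * b ^ j) * (G * a ^ c) := by
          calc (a ^ i' * b ^ j) * b ^ c' = a ^ i' * b ^ (j + c') := by rw [pow_add]; ring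
            _ ≤ G * (a ^ (i' + c) * b ^ j) := h1
            _ = (a ^ i' * b ^ j) * (G * a ^ c) := by rw [pow_add]; ring
        exact Nat.le_of_mul_le_mul_left e hpos
    · -- i' < i, j' ≤ j
      exfalso
      obtain ⟨c, rfl⟩ : ∃ c, i = i' + c := ⟨i - i', by omega⟩
      obtain ⟨c', rfl⟩ : ∃ c', j = j' + c' := ⟨j - j', by omega⟩
      have hpos : 0 < a ^ i' * b ^ j' := Nat.mul_pos (Nat.pow_pos ha0) (Nat.pow_pos hb0)
      have e : (a ^ i' * b ^ j') * (a ^ c * b ^ c') ≤ (a ^ i' * b ^ j') * G := by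
        calc (a ^ i' * b ^ j') * (a ^ c * b ^ c') = a ^ (i' + c) * b ^ (j' + c') := by
              rw [pow_add, pow_add]; ring
          _ ≤ G * (a ^ i' * b ^ j') := h2
          _ = (a ^ i' * b ^ j') * G := by ring
      have e2 := Nat.le_of_mul_le_mul_left e hpos
      have e3 := hA c (by omega) c'
      omega

theorem bad_card {K t D E : ℕ} (hK : 2 ≤ K) (ht : 1 ≤ t) (S : Finset ℕ) (a : ℕ → ℕ)
    (hS : ∀ k ∈ S, K ≤ k ∧ 2 ^ E < a k ∧ k ≤ a k ∧ (a k) ^ t ≤ k ! ∧ k ! ≤ (a k + k) ^ t) (k : ℕ)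
    (hk : k ∈ S) (bad : Finset ℕ) (hbad : ∀ k' ∈ bad, k' ∈ S ∧ ¬ Sep D (2 ^ E) (a k) (a k')) :
    bad.card ≤ D ^ 2 * ((2 * E + 1) * t + 1) := by
  classical
  obtain ⟨G, hG⟩ : ∃ G : ℕ, G = 2 ^ E := ⟨_, rfl⟩
  have hG1 : 1 ≤ G := by rw [hG]; exact Nat.one_le_two_pow
  rw [← hG] at hS hbad
  -- the pieces
  obtain ⟨P, hP⟩ : ∃ P : ℕ × ℕ → Finset ℕ, P = fun q => S.filter
    (fun k' => (a k) ^ q.1 ≤ G * (a k') ^ q.2 ∧ (a k') ^ q.2 ≤ G * (a k) ^ q.1) := ⟨_, rfl⟩
  have hsub : bad ⊆ (Finset.Icc 1 D ×ˢ Finset.Icc 1 D).biUnion P := by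
    intro k' hk'
    obtain ⟨hk'S, hns⟩ := hbad k' hk'
    obtain ⟨c, hc, c', hc', h1, h2⟩ := not_sep hG1 (hS k hk).2.1 (hS k' hk'S).2.1 hns
    rw [Finset.mem_biUnion]
    refine ⟨(c, c'), Finset.mem_product.2 ⟨hc, hc'⟩, ?_⟩
    rw [hP]
    exact Finset.mem_filter.2 ⟨hk'S, h1, h2⟩
  have hpiece : ∀ q ∈ Finset.Icc 1 D ×ˢ Finset.Icc 1 D, (P q).card ≤ (2 * E + 1) * t + 1 := by
    rintro ⟨c, c'⟩ hq
    rw [Finset.mem_product, Finset.mem_Icc, Finset.mem_Icc] at hq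
    obtain ⟨-, hc'1, -⟩ := hq
    rcases (P (c, c')).eq_empty_or_nonempty with he | hne
    · rw [he]; exact Nat.zero_le _
    · obtain ⟨k1, hk1, hmin⟩ := Finset.exists_min_image _ (fun x => x) hne
      have hsub2 : P (c, c') ⊆ Finset.Icc k1 (k1 + (2 * E + 1) * t) := by
        intro k2 hk2
        have hle : k1 ≤ k2 := hmin k2 hk2
        rw [hP, Finset.mem_filter] at hk1 hk2
        obtain ⟨hk1S, h11, h12⟩ := hk1
        obtain ⟨hk2S, h21, h22⟩ := hk2
        obtain ⟨g1, g2, g3, g4, g5⟩ := hS k1 hk1S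
        obtain ⟨f1, f2, f3, f4, f5⟩ := hS k2 hk2S
        have hb : a k2 ≤ G ^ 2 * a k1 := by
          have e1 : (a k2) ^ c' ≤ (G ^ 2 * a k1) ^ c' := by
            calc (a k2) ^ c' ≤ G * (a k) ^ c := h22
              _ ≤ G * (G * (a k1) ^ c') := Nat.mul_le_mul_left _ h11
              _ = G ^ 2 * (a k1) ^ c' := by ring
              _ ≤ (G ^ 2) ^ c' * (a k1) ^ c' := Nat.mul_le_mul_right _
                  (Nat.le_self_pow (by omega) _)
              _ = (G ^ 2 * a k1) ^ c' := by rw [Nat.mul_pow]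
          exact (Nat.pow_le_pow_iff_left (by omega)).1 e1
        have e2 : k1 ! * K ^ (k2 - k1) ≤ k1 ! * 2 ^ ((2 * E + 1) * t) := by
          calc k1 ! * K ^ (k2 - k1) ≤ k2 ! := by
                have h3 := Nat.factorial_mul_pow_le_factorial (m := k1) (n := k2 - k1)
                have h4 : k1 + (k2 - k1) = k2 := by omega
                rw [h4] at h3
                exact le_trans (Nat.mul_le_mul_left _ (Nat.pow_le_pow_left (by omega) _)) h3
            _ ≤ (a k2 + k2) ^ t := f5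
            _ ≤ (2 * (G ^ 2 * a k1)) ^ t := Nat.pow_le_pow_left (by omega) _
            _ = (a k1) ^ t * (2 * G ^ 2) ^ t := by rw [← Nat.mul_pow]; congr 1; ring
            _ ≤ k1 ! * (2 * G ^ 2) ^ t := Nat.mul_le_mul_right _ g4
            _ = k1 ! * 2 ^ ((2 * E + 1) * t) := by
                rw [hG, ← pow_mul, show (2 : ℕ) * 2 ^ (E * 2) = 2 ^ (E * 2 + 1) from
                  (pow_succ' 2 (E * 2)).symm, ← pow_mul, mul_comm E 2]
        have e3 : K ^ (k2 - k1) ≤ 2 ^ ((2 * E + 1) * t) :=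
          Nat.le_of_mul_le_mul_left e2 (Nat.factorial_pos _)
        have e4 : 2 ^ (k2 - k1) ≤ 2 ^ ((2 * E + 1) * t) :=
          le_trans (Nat.pow_le_pow_left hK _) e3
        have e5 := (Nat.pow_le_pow_iff_right (by norm_num : 1 < 2)).1 e4
        exact Finset.mem_Icc.2 ⟨hle, by omega⟩
      calc (P (c, c')).card ≤ (Finset.Icc k1 (k1 + (2 * E + 1) * t)).card :=
            Finset.card_le_card hsub2
        _ = (2 * E + 1) * t + 1 := by rw [Nat.card_Icc]; omega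
  calc bad.card ≤ ((Finset.Icc 1 D ×ˢ Finset.Icc 1 D).biUnion P).card := Finset.card_le_card hsub
    _ ≤ ∑ q ∈ Finset.Icc 1 D ×ˢ Finset.Icc 1 D, (P q).card := Finset.card_biUnion_le
    _ ≤ ∑ _q ∈ Finset.Icc 1 D ×ˢ Finset.Icc 1 D, ((2 * E + 1) * t + 1) := Finset.sum_le_sum hpiece
    _ = D ^ 2 * ((2 * E + 1) * t + 1) := by
        rw [Finset.sum_const, Finset.card_product, Nat.card_Icc, smul_eq_mul]
        simp only [Nat.add_sub_cancel]
        ring

end Fac88
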