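import Pool.Agent.W_198aa6_h88.PDat

set_option autoImplicit false

namespace Fac88

open Nat

/-- `(D+1)^2 Hb D q ≤ 2^EE` for `q ≤ 4 X`, `D = DT X t`.
PROOF. `L = LL X`, `2 q ≤ 8 X ≤ 2^(L+1)`, `D + 1 ≤ 2^D` (`Nat.lt_two_pow_self`), so
`Hb ≤ (2^(2D) 2^((L+1) D))^((D+1)^2) = 2^((L+3) D (D+1)^2)`, and
`(L+3) D (D+1)^2 + 2 D ≤ (L+4) (D+1)^3`. -/
theorem Hb_le (X t q : ℕ) (hq : q ≤ 4 * X) :
    (DT X t + 1) ^ 2 * Hb (DT X t) q ≤ 2 ^ EE X t := by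
  have hL : 2 * q ≤ 2 ^ (LL X + 1) := by
    have h1 := lt_two_pow_LL X
    rw [pow_succ]
    omega
  have hD : DT X t + 1 ≤ 2 ^ DT X t := Nat.lt_two_pow_self
  set D := DT X t with hDdef
  set L := LL X with hLdef
  have h1 : (D + 1) ^ 2 ≤ 2 ^ (2 * D) := by
    calc (D + 1) ^ 2 ≤ (2 ^ D) ^ 2 := Nat.pow_le_pow_left hD 2
      _ = 2 ^ (2 * D) := by rw [← pow_mul, mul_comm]
  have h2 : (2 * q) ^ D ≤ 2 ^ ((L + 1) * D) := by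
    calc (2 * q) ^ D ≤ (2 ^ (L + 1)) ^ D := Nat.pow_le_pow_left hL D
      _ = 2 ^ ((L + 1) * D) := by rw [← pow_mul]
  have h3 : Hb D q ≤ 2 ^ ((2 * D + (L + 1) * D) * (D + 1) ^ 2) := by
    unfold Hb
    rw [pow_mul]
    apply Nat.pow_le_pow_left
    rw [pow_add]
    exact Nat.mul_le_mul h1 h2
  have h4 : 2 * D + (2 * D + (L + 1) * D) * (D + 1) ^ 2 ≤ EE X t := by
    unfold EE
    rw [← hDdef, ← hLdef]
    nlinarith [sq_nonneg (D + 1), Nat.zero_le (L * (D + 1) ^ 2), Nat.zero_le (D ^ 2), Nat.zero_le D,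
      Nat.zero_le (D ^ 3)]
  calc (D + 1) ^ 2 * Hb D q ≤ 2 ^ (2 * D) * 2 ^ ((2 * D + (L + 1) * D) * (D + 1) ^ 2) :=
        Nat.mul_le_mul h1 h3
    _ = 2 ^ (2 * D + (2 * D + (L + 1) * D) * (D + 1) ^ 2) := by rw [← pow_add]
    _ ≤ 2 ^ EE X t := Nat.pow_le_pow_right (by norm_num) h4

/-- the counting condition: with `R = 32 L`, `μ1 = R^2 + (t-1) R`, `μ2 = R^2 - R`, `D = t R^2 + t^2`:
`t μ1 (μ1+1) + (t^2-t) μ2 (μ2+1) = t^2 (R^4 + t R^2) < (t R^2 + t^2)^2`. (All in `ℕ`; write `R = r + 1`,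
`t = s + 1`, then `μ1 = R^2 + s R`, `μ2 = R r`.) -/
theorem count_ok {R t : ℕ} (hR : 1 ≤ R) (ht : 1 ≤ t) :
    t * ((R ^ 2 + (t - 1) * R) * (R ^ 2 + (t - 1) * R + 1)) +
      (t ^ 2 - t) * ((R ^ 2 - R) * (R ^ 2 - R + 1)) < (t * R ^ 2 + t ^ 2 + 1) * (t * R ^ 2 + t ^ 2 + 2) := by
  obtain ⟨r, rfl⟩ : ∃ r, R = r + 1 := ⟨R - 1, by omega⟩
  obtain ⟨s, rfl⟩ : ∃ s, t = s + 1 := ⟨t - 1, by omega⟩
  have h1 : (r + 1) ^ 2 - (r + 1) = (r + 1) * r := Nat.sub_eq_of_eq_add (by ring)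
  have h2 : (s + 1) ^ 2 - (s + 1) = (s + 1) * s := Nat.sub_eq_of_eq_add (by ring)
  rw [h1, h2, Nat.add_sub_cancel]
  have h3 : (s + 1) * (((r + 1) ^ 2 + s * (r + 1)) * ((r + 1) ^ 2 + s * (r + 1) + 1)) +
      (s + 1) * s * ((r + 1) * r * ((r + 1) * r + 1)) =
      (s + 1) ^ 2 * (r + 1) ^ 4 + (s + 1) ^ 3 * (r + 1) ^ 2 := by ring
  have h4 : ((s + 1) * (r + 1) ^ 2 + (s + 1) ^ 2 + 1) * ((s + 1) * (r + 1) ^ 2 + (s + 1) ^ 2 + 2) =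
      (s + 1) ^ 2 * (r + 1) ^ 4 + (s + 1) ^ 3 * (r + 1) ^ 2 +
        ((s + 1) ^ 3 * (r + 1) ^ 2 + (s + 1) ^ 4 + 3 * ((s + 1) * (r + 1) ^ 2 + (s + 1) ^ 2) + 1) + 1 := by
    ring
  rw [h3, h4]
  omega

/-- polynomials in `LL X` are smaller than `X`. (`LL X = log_2 (4X) + 1`; `2^(LL X) ≤ 8 X`; use
`(LL X)^k * c ≤ 2^(LL X) / 8` for large `LL X`, e.g. from `Nat.log`-growth or real `isLittleO`.) -/
theorem poly_LL_le (c k : ℕ) : ∃ X0 : ℕ, ∀ X ≥ X0, c * (LL X) ^ k ≤ X := by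
  have hlim := tendsto_pow_const_div_const_pow_of_one_lt k (show (1 : ℝ) < 2 by norm_num)
  have hpos : (0 : ℝ) < 1 / (8 * c + 1) := by positivity
  have hev := hlim.eventually (gt_mem_nhds hpos)
  obtain ⟨L0, hL0⟩ := Filter.eventually_atTop.1 hev
  refine ⟨2 ^ L0, fun X hX => ?_⟩
  have hX1 : 1 ≤ X := le_trans Nat.one_le_two_pow hX
  have hLL : L0 ≤ LL X := by
    unfold LL
    have h1 : L0 ≤ Nat.log 2 (4 * X) := by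
      apply Nat.le_log_of_pow_le (by norm_num)
      omega
    omega
  have h2 := hL0 (LL X) hLL
  have h3 : 2 ^ LL X ≤ 8 * X := by
    unfold LL
    rw [pow_succ]
    have h4 : 2 ^ Nat.log 2 (4 * X) ≤ 4 * X := Nat.pow_log_le_self 2 (by omega)
    omega
  have h5 : ((LL X : ℝ)) ^ k * (8 * c + 1) < 2 ^ LL X := by
    rw [div_lt_div_iff₀ (by positivity) (by positivity)] at h2
    linarith
  have h6 : (LL X) ^ k * (8 * c + 1) < 2 ^ LL X := by exact_mod_cast h5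
  have h7 : (LL X) ^ k * (8 * c + 1) = 8 * (c * (LL X) ^ k) + (LL X) ^ k := by ring
  rw [h7] at h6
  omega

/-- `LL X` is large for large `X` -/
theorem LL_large (c : ℕ) : ∃ X0 : ℕ, ∀ X ≥ X0, c ≤ LL X := by
  refine ⟨2 ^ c, fun X hX => ?_⟩
  unfold LL
  have h1 : c ≤ Nat.log 2 (4 * X) := by
    apply Nat.le_log_of_pow_le (by norm_num)
    omega
  omega

/-- `DT X t ≤ 3100 (LL X)^3` for `t ≤ LL X + 2` -/
theorem DT_le (X t : ℕ) (ht : t ≤ LL X + 2) : DT X t ≤ 3100 * (LL X) ^ 3 := by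
  have hL := LL_pos X
  unfold DT
  obtain ⟨l, hl⟩ : ∃ l, LL X = l + 1 := ⟨LL X - 1, by omega⟩
  rw [hl] at ht ⊢
  have h1 : t ≤ 3 * (l + 1) := by omega
  have h2 : t * (32 * (l + 1)) ^ 2 ≤ 3 * (l + 1) * (32 * (l + 1)) ^ 2 := Nat.mul_le_mul_right _ h1
  have h3 : t ^ 2 ≤ (3 * (l + 1)) ^ 2 := Nat.pow_le_pow_left h1 2
  have h4 : 3 * (l + 1) * (32 * (l + 1)) ^ 2 = 3072 * (l + 1) ^ 3 := by ring
  have h5 : (3 * (l + 1)) ^ 2 ≤ 9 * (l + 1) ^ 3 := by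
    have : 9 * (l + 1) ^ 3 = (3 * (l + 1)) ^ 2 * (l + 1) := by ring
    rw [this]
    exact Nat.le_mul_of_pos_right _ (by omega)
  have h6 : 0 < (l + 1) ^ 3 := by positivity
  omega

/-- a crude bound, from `DT_le`: `EE X t ≤ 10^12 (LL X)^10` for `t ≤ LL X + 2` -/
theorem EE_le (X t : ℕ) (ht : t ≤ LL X + 2) : EE X t ≤ 10 ^ 12 * (LL X) ^ 10 := by
  have hL := LL_pos X
  have h1 := DT_le X t ht
  unfold EE
  have h2 : DT X t + 1 ≤ 3101 * (LL X) ^ 3 := by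
    have : 1 ≤ (LL X) ^ 3 := Nat.one_le_pow _ _ hL
    omega
  have h3 : LL X + 4 ≤ 5 * LL X := by omega
  calc (LL X + 4) * (DT X t + 1) ^ 3 ≤ (5 * LL X) * (3101 * (LL X) ^ 3) ^ 3 :=
        Nat.mul_le_mul h3 (Nat.pow_le_pow_left h2 3)
    _ = (5 * 3101 ^ 3) * (LL X) ^ 10 := by ring
    _ ≤ 10 ^ 12 * (LL X) ^ 10 := Nat.mul_le_mul_right _ (by norm_num)

/-- a crude bound, from `DT_le` and `EE_le` -/
theorem BD_le (X t : ℕ) (ht : t ≤ LL X + 2) : BD X t ≤ 10 ^ 20 * (LL X) ^ 17 := by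
  have hL := LL_pos X
  have h1 := DT_le X t ht
  have h2 := EE_le X t ht
  unfold BD
  have h3 : t ≤ 3 * LL X := by omega
  have h4 : 1 ≤ (LL X) ^ 10 := Nat.one_le_pow _ _ hL
  have h5 : 2 * EE X t + 1 ≤ (2 * 10 ^ 12 + 1) * (LL X) ^ 10 := by
    calc 2 * EE X t + 1 ≤ 2 * (10 ^ 12 * (LL X) ^ 10) + (LL X) ^ 10 := by omega
      _ = (2 * 10 ^ 12 + 1) * (LL X) ^ 10 := by ring
  have h6 : (2 * EE X t + 1) * t + 1 ≤ (3 * (2 * 10 ^ 12 + 1) + 1) * (LL X) ^ 11 := by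
    have h7 : 1 ≤ (LL X) ^ 11 := Nat.one_le_pow _ _ hL
    calc (2 * EE X t + 1) * t + 1 ≤ ((2 * 10 ^ 12 + 1) * (LL X) ^ 10) * (3 * LL X) + (LL X) ^ 11 :=
          Nat.add_le_add (Nat.mul_le_mul h5 h3) h7
      _ = (3 * (2 * 10 ^ 12 + 1) + 1) * (LL X) ^ 11 := by ring
  calc (DT X t) ^ 2 * ((2 * EE X t + 1) * t + 1)
      ≤ (3100 * (LL X) ^ 3) ^ 2 * ((3 * (2 * 10 ^ 12 + 1) + 1) * (LL X) ^ 11) :=
        Nat.mul_le_mul (Nat.pow_le_pow_left h1 2) h6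
    _ = (3100 ^ 2 * (3 * (2 * 10 ^ 12 + 1) + 1)) * (LL X) ^ 17 := by ring
    _ ≤ 10 ^ 20 * (LL X) ^ 17 := Nat.mul_le_mul_right _ (by norm_num)

end Fac88
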