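import Pool.Agent.W_198aa6_h88.PPair
import Pool.Agent.W_198aa6_h88.PParam
import Pool.Agent.W_156d3b_h46.Weights

set_option autoImplicit false

namespace Fac88

open Nat

/-- PROOF. `L = LL X`, `R = 32 L`, `μ1 = R^2 + (t-1) R`, `μ2 = R^2 - R`, `D = DT X t = t R^2 + t^2`, `q = K + WW X ≤ 4X`,
`T = log K! = ∑ wt` (`Sur46.sum_wt`), `γ = wt K 2 / 4 ≥ K/8` (`Sur46.wt_two`), `T ≤ K log K ≤ K L`
(`Sur46.log_fact_le_mul`, `log K ≤ log (4X) ≤ L log 2 ≤ L`). Suppose the weight `Wd` of the agreeing primes is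
`> T/t + γ`. The left side of `pair_ineq` is `μ1 Wd + μ2 (T - Wd) = μ2 T + t R Wd > R^2 T + t R γ`. The right side is at
most `(R^2 + t) (T + w log (4X)) + 2 D t^2 log (4X) + EE` with `w = WW X` (`Sur46.log_fact_le`, `Hb_le`).
So `t R γ < t T + (R^2+t) w L + 2 D t^2 L + EE`. But `R γ ≥ 4 K L` (as `wt K 2 ≥ K/2`), `t T ≤ t K L`,
`(R^2 + t) w ≤ 2 R^2 w ≤ 2 X ≤ t K` (`w ≤ X/(1024 L^2)`), `2 D t^2 L ≤ t K L` and `EE ≤ t K L` for large `X`
(`DT_le`, `EE_le`, `poly_LL_le`): contradiction. `Sep` for the smaller factor `(D+1)^2 Hb D q ≤ 2^EE`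
follows from `Sep` for `2^EE` (monotone). -/
theorem pair_bound : ∃ X0 : ℕ, ∀ X ≥ X0, ∀ K, X ≤ K → K ≤ 3 * X → ∀ t, 2 ≤ t → t ≤ LL X + 2 →
    ∀ n n' : ℕ, K ≤ n → n ≤ K + WW X → K ≤ n' → n' ≤ K + WW X → ∀ (x : Dat n t) (x' : Dat n' t),
    Sep (DT X t) (2 ^ EE X t) x.a x'.a →
    ∑ p ∈ (Sur46.primesTo K).filter (fun p => x.i p = x'.i p), Sur46.wt K p ≤
      Real.log (K ! : ℕ) / t + Sur46.wt K 2 / 4 := by
  obtain ⟨K0, hK0⟩ := Sur46.wt_two
  obtain ⟨X1, hX1⟩ := poly_LL_le 55800 5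
  obtain ⟨X2, hX2⟩ := poly_LL_le (10 ^ 12) 10
  refine ⟨max (max X1 X2) (max K0 1), fun X hX K hXK hK3 t ht2 htL n n' hn1 hn2 hn1' hn2' x x'
    hsep => ?_⟩
  have hXX1 : X1 ≤ X := le_trans (le_trans (le_max_left _ _) (le_max_left _ _)) hX
  have hXX2 : X2 ≤ X := le_trans (le_trans (le_max_right _ _) (le_max_left _ _)) hX
  have hXK0 : K0 ≤ X := le_trans (le_trans (le_max_left _ _) (le_max_right _ _)) hX
  have hXone : 1 ≤ X := le_trans (le_trans (le_max_right _ _) (le_max_right _ _)) hX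
  have hW2 := hK0 K (hXK0.trans hXK)
  have hP1 := hX1 X hXX1
  have hP2 := hX2 X hXX2
  have hDT := DT_le X t htL
  have hEE := EE_le X t htL
  have hDdef : DT X t = t * (32 * LL X) ^ 2 + t ^ 2 := rfl
  have hL1 := LL_pos X
  have hlt := lt_two_pow_LL X
  have hWdiv : WW X * (1024 * (LL X) ^ 2) ≤ X := Nat.div_mul_le_self _ _
  have hWle : WW X ≤ X := Nat.div_le_self _ _
  have hHb := Hb_le X t (K + WW X) (by omega)
  have hcount := count_ok (R := 32 * LL X) (t := t) (by omega) (by omega)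
  generalize LL X = L at *
  generalize WW X = w at *
  generalize EE X t = E at *
  generalize DT X t = D at *
  have hsep' : Sep D ((D + 1) ^ 2 * Hb D (K + w)) x.a x'.a := by
    intro i j i' j' h1 h2 h3
    rcases hsep i j i' j' h1 h2 h3 with h | h
    · exact Or.inl (lt_of_le_of_lt (Nat.mul_le_mul_right _ hHb) h)
    · exact Or.inr (lt_of_le_of_lt (Nat.mul_le_mul_right _ hHb) h)
  have hmain := pair_ineq (K := K) (q := K + w) (D := D) (by omega) hn1 hn1' hn2 hn2' (by omega)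
    x x' (by rw [hDdef]; exact hcount) hsep'
  have hHbpos : 0 < (D + 1) ^ 2 * Hb D (K + w) := by
    refine Nat.mul_pos (by positivity) ?_
    unfold Hb
    have : 0 < 2 * (K + w) := by omega
    positivity
  have hlogHb : Real.log (((D + 1) ^ 2 * Hb D (K + w) : ℕ) : ℝ) ≤ E := by
    have h1 : (((D + 1) ^ 2 * Hb D (K + w) : ℕ) : ℝ) ≤ ((2 ^ E : ℕ) : ℝ) := by exact_mod_cast hHb
    refine (Real.log_le_log (by exact_mod_cast hHbpos) h1).trans ?_
    push_cast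
    rw [Real.log_pow]
    have h2 : Real.log 2 ≤ 1 := by
      have := Real.log_two_lt_d9
      linarith
    nlinarith [Nat.cast_nonneg (α := ℝ) E]
  have hKpos : 1 ≤ K := hXone.trans hXK
  have hlogq : Real.log ((K + w : ℕ) : ℝ) ≤ L := by
    have h1 : ((K + w : ℕ) : ℝ) ≤ ((2 ^ L : ℕ) : ℝ) := by
      have : K + w ≤ 2 ^ L := by omega
      exact_mod_cast this
    refine (Real.log_le_log (by exact_mod_cast (by omega : 0 < K + w)) h1).trans ?_
    push_cast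
    rw [Real.log_pow]
    have h2 : Real.log 2 ≤ 1 := by
      have := Real.log_two_lt_d9
      linarith
    nlinarith [Nat.cast_nonneg (α := ℝ) L]
  have hlogK : Real.log (K : ℝ) ≤ L := by
    refine le_trans (Real.log_le_log (by exact_mod_cast (by omega : 0 < K)) ?_) hlogq
    push_cast
    have : (0 : ℝ) ≤ w := Nat.cast_nonneg w
    linarith
  have hTK := Sur46.log_fact_le_mul K hKpos
  have hqfact := Sur46.log_fact_le (K := K) (w := w) hKpos
  have hsumT := Sur46.sum_wt K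
  have hlogq0 : 0 ≤ Real.log ((K + w : ℕ) : ℝ) := Real.log_natCast_nonneg _
  have hT0 : 0 ≤ Real.log ((K ! : ℕ) : ℝ) := Real.log_natCast_nonneg _
  rw [Finset.sum_filter]
  generalize Real.log ((K + w : ℕ) : ℝ) = lq at *
  generalize Real.log (((D + 1) ^ 2 * Hb D (K + w) : ℕ) : ℝ) = lH at *
  generalize Real.log (((K + w)! : ℕ) : ℝ) = lf at *
  have hsplit : ∑ p ∈ Sur46.primesTo K,
      ((if x.i p = x'.i p then (32 * L) ^ 2 + (t - 1) * (32 * L) else (32 * L) ^ 2 - 32 * L : ℕ) : ℝ) *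
        Sur46.wt K p =
      ((32 * L : ℝ) ^ 2 - 32 * L) * Real.log ((K ! : ℕ) : ℝ) + (t : ℝ) * (32 * L) *
        ∑ p ∈ Sur46.primesTo K, (if x.i p = x'.i p then Sur46.wt K p else 0) := by
    rw [← hsumT, Finset.mul_sum, Finset.mul_sum, ← Finset.sum_add_distrib]
    refine Finset.sum_congr rfl fun p _ => ?_
    have h1 : (((32 * L) ^ 2 - 32 * L : ℕ) : ℝ) = (32 * L : ℝ) ^ 2 - 32 * L := by
      rw [Nat.cast_sub (by nlinarith)]
      push_cast
      ring
    split_ifs with h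
    · have h2 : (((32 * L) ^ 2 + (t - 1) * (32 * L) : ℕ) : ℝ) =
          (32 * L : ℝ) ^ 2 + ((t : ℝ) - 1) * (32 * L) := by
        push_cast [Nat.cast_sub (by omega : 1 ≤ t)]
        ring
      rw [h2]
      ring
    · rw [h1]
      ring
  rw [hsplit] at hmain
  generalize (∑ p ∈ Sur46.primesTo K, (if x.i p = x'.i p then Sur46.wt K p else 0)) = Wd at *
  generalize Real.log ((K ! : ℕ) : ℝ) = T at *
  generalize Sur46.wt K 2 = W2 at *
  have htpos : (0 : ℝ) < t := by exact_mod_cast (by omega : 0 < t)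
  have hLpos : (1 : ℝ) ≤ L := by exact_mod_cast hL1
  have ht2' : (2 : ℝ) ≤ t := by exact_mod_cast ht2
  have htL' : (t : ℝ) ≤ L + 2 := by exact_mod_cast htL
  have hDr : (D : ℝ) = t * (32 * L : ℝ) ^ 2 + t ^ 2 := by rw [hDdef]; push_cast; ring
  have hD1 : (D : ℝ) * (lf / t) = ((32 * L : ℝ) ^ 2 + t) * lf := by
    rw [hDr]
    field_simp
  have hXr : (X : ℝ) ≤ K := by exact_mod_cast hXK
  have hwr : (w : ℝ) * (1024 * (L : ℝ) ^ 2) ≤ X := by exact_mod_cast hWdiv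
  have hw0 : (0 : ℝ) ≤ w := Nat.cast_nonneg w
  have hDtr : (D : ℝ) ≤ 3100 * (L : ℝ) ^ 3 := by exact_mod_cast hDT
  have hEr : (E : ℝ) ≤ K := by
    have : E ≤ K := hEE.trans (hP2.trans hXK)
    exact_mod_cast this
  have hP1r : 55800 * (L : ℝ) ^ 5 ≤ X := by exact_mod_cast hP1
  have hK0' : (0 : ℝ) < K := by exact_mod_cast hKpos
  -- the four error terms
  have e1 : (t : ℝ) * T ≤ t * K * L := by
    have : T ≤ K * L := hTK.trans (mul_le_mul_of_nonneg_left hlogK hK0'.le)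
    nlinarith
  have htsq : (t : ℝ) ≤ 1024 * (L : ℝ) ^ 2 := by nlinarith
  have e2' : ((32 * L : ℝ) ^ 2 + t) * w ≤ t * K := by
    have h1 : (32 * L : ℝ) ^ 2 * w ≤ X := by nlinarith
    have h2 : (t : ℝ) * w ≤ X := by nlinarith
    nlinarith
  have e2 : ((32 * L : ℝ) ^ 2 + t) * (w * lq) ≤ t * K * L := by
    have h1 : ((32 * L : ℝ) ^ 2 + t) * (w * lq) = ((32 * L : ℝ) ^ 2 + t) * w * lq := by ring
    rw [h1]
    exact mul_le_mul e2' hlogq hlogq0 (by positivity)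
  have e3' : 2 * (D : ℝ) * (t : ℝ) ^ 2 ≤ K := by
    have h1 : (t : ℝ) ^ 2 ≤ 9 * (L : ℝ) ^ 2 := by nlinarith
    have h2 : 2 * (D : ℝ) * (t : ℝ) ^ 2 ≤ 2 * (3100 * (L : ℝ) ^ 3) * (9 * (L : ℝ) ^ 2) := by
      refine mul_le_mul (by linarith) h1 (by positivity) (by positivity)
    have h3 : 2 * (3100 * (L : ℝ) ^ 3) * (9 * (L : ℝ) ^ 2) = 55800 * (L : ℝ) ^ 5 := by ring
    linarith
  have e3 : 2 * (D : ℝ) * (t : ℝ) ^ 2 * lq ≤ t * K * L := by
    have h1 : 2 * (D : ℝ) * (t : ℝ) ^ 2 * lq ≤ K * L :=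
      mul_le_mul e3' hlogq hlogq0 hK0'.le
    have h2 : (K : ℝ) * L ≤ t * K * L := by
      have : (0 : ℝ) ≤ K * L := by positivity
      nlinarith
    linarith
  have e4 : lH ≤ t * K * L := by
    have h2 : (K : ℝ) ≤ t * K * L := by
      have h3 : (1 : ℝ) ≤ t * L := by nlinarith
      nlinarith
    linarith
  have e5 : 4 * ((t : ℝ) * K * L) ≤ t * (32 * L) * (W2 / 4) := by
    have : (0 : ℝ) ≤ t * L := by positivity
    nlinarith
  have hfin : (t : ℝ) * (32 * L) * Wd ≤ t * (32 * L) * (T / t + W2 / 4) := by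
    have h1 : (t : ℝ) * (32 * L) * (T / t + W2 / 4) = 32 * L * T + t * (32 * L) * (W2 / 4) := by
      field_simp
    rw [h1]
    rw [hD1] at hmain
    have h2 : ((32 * L : ℝ) ^ 2 + t) * lf ≤ ((32 * L : ℝ) ^ 2 + t) * (T + w * lq) :=
      mul_le_mul_of_nonneg_left hqfact (by positivity)
    linarith
  exact le_of_mul_le_mul_left hfin (by positivity)

end Fac88
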