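import Pool.Agent.W_198aa6_h88.Defs

/-!
MP_198aa6_nt, helper88: POLYLOGARITHMIC EXCEPTIONAL SET.

THEOREM.  There is `C` such that for all `N ≥ 2` at most `C (log N)^23` of the integers `2 ≤ n ≤ N` have a
factorisation of `n!` into distinct factors with spread `< n - 5 log_2 n - 4`.

PLAN.  By `Struct.dichotomy` such an `n ≥ 2^14` has a factorisation with `2 ≤ t ≤ log_2 n + 2` factors and spread
`m < n`.  Fix `t`, a window `[K, K + WW X]` and two solutions `n, n'` in it.  Every prime `p` has an index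
`i p` with `p^(v_p(n!)) ∣ (a + d (i p)) M`, where `M ≤ n^(t^2)` is the product of all differences.  A polynomial
`F (x, y)` of degree `D` which vanishes to order `μ1` at the points `(-d r, -d' r)` and to order `μ2` at the points
`(-d r, -d' s)`, `r ≠ s`, satisfies `∏ p^(μ(i p, i' p) v_p(K!)) ∣ (M M')^D F (a, a')`; if no two monomials of degree
at most `D` in `a, a'` have nearly the same size (`Sep`) then `F (a, a') ≠ 0`.  With `μ1 = R^2 + (t-1) R`,
`μ2 = R^2 - R`, `D = t R^2 + t^2` this shows that the primes on which `i` and `i'` agree carry weight at most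
`log (K!) / t + wt K 2 / 4`.  Only few pairs violate `Sep`, and averaging over all pairs (with the extra
weight of the prime 2) bounds the number of solutions.
-/

set_option autoImplicit false

namespace Fac88

open Nat

/-- the data of a factorisation of `n!` into `t` factors `a + d r`, `r < t` -/
structure Dat (n t : ℕ) where
  a : ℕ
  d : Fin t → ℕ
  M : ℕ
  i : ℕ → Fin t
  a_pos : 1 ≤ a
  lo : a ^ t ≤ Nat.factorial n
  hi : Nat.factorial n ≤ (a + n) ^ t
  d_le : ∀ r, d r ≤ n
  M_pos : 1 ≤ M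
  M_le : M ≤ n ^ (t ^ 2)
  dvd : ∀ p, p.Prime → ∀ e, p ^ e ∣ Nat.factorial n → p ^ e ∣ (a + d (i p)) * M

/-- monomials of degree `≤ D` in `a, b` differ by a factor `> G` -/
def Sep (D G a b : ℕ) : Prop :=
  ∀ i j i' j' : ℕ, i + j ≤ D → i' + j' ≤ D → (i, j) ≠ (i', j') →
    G * (a ^ i * b ^ j) < a ^ i' * b ^ j' ∨ G * (a ^ i' * b ^ j') < a ^ i * b ^ j

/-- coefficient bound of the auxiliary polynomial -/
def Hb (D B : ℕ) : ℕ := ((D + 1) ^ 2 * (2 * B) ^ D) ^ ((D + 1) ^ 2)

/-- `4 X < 2 ^ LL X` -/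
def LL (X : ℕ) : ℕ := Nat.log 2 (4 * X) + 1

/-- the degree -/
def DT (X t : ℕ) : ℕ := t * (32 * LL X) ^ 2 + t ^ 2

/-- `2 ^ EE X t` is the separation -/
def EE (X t : ℕ) : ℕ := (LL X + 4) * (DT X t + 1) ^ 3

/-- window length -/
def WW (X : ℕ) : ℕ := X / (1024 * (LL X) ^ 2)

/-- bound for the number of bad partners -/
def BD (X t : ℕ) : ℕ := (DT X t) ^ 2 * ((2 * EE X t + 1) * t + 1)

theorem lt_two_pow_LL (X : ℕ) : 4 * X < 2 ^ LL X := Nat.lt_pow_succ_log_self (by norm_num) _

theorem LL_pos (X : ℕ) : 1 ≤ LL X := Nat.succ_le_succ (Nat.zero_le _)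

end Fac88
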