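import Pool.Agent.W_198aa6_h88.PDat

set_option autoImplicit false

namespace Fac88

/-- PROOF. `a^i = ∑ u ∈ range (D+1), C(i,u) (-d)^(i-u) (a+d)^u` for `i ≤ D` (binomial theorem for
`(-d) + (a+d)`), same for `a'`; so the double sum is `∑ u v, E u v (a+d)^u (a'+d')^v` where `E u v` is the sum in `hv`.
`E u v = 0` for `u + v < μ` (`hv`) and for `u + v > D` (each summand: `C(i,u) = 0` or `C(j,v) = 0` or `i + j > D` and
`c i j = 0`). For `μ ≤ u + v ≤ D`: `(M M')^D (a+d)^u (a'+d')^v = ((a+d) M)^u ((a'+d') M')^v M^(D-u) M'^(D-v)` is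
divisible by `p^(e (u+v))`, so by `p^(e μ)`. -/
theorem poly_dvd {D : ℕ} (c : ℕ → ℕ → ℤ) (hc : ∀ i j, D < i + j → c i j = 0)
    {a a' d d' M M' μ p e : ℕ}
    (hv : ∀ u v, u + v < μ →
      ∑ i ∈ Finset.range (D + 1), ∑ j ∈ Finset.range (D + 1),
        c i j * ((i.choose u : ℤ) * (-(d : ℤ)) ^ (i - u)) *
          ((j.choose v : ℤ) * (-(d' : ℤ)) ^ (j - v)) = 0)
    (h : p ^ e ∣ (a + d) * M) (h' : p ^ e ∣ (a' + d') * M') :
    ((p ^ (e * μ) : ℕ) : ℤ) ∣ ((M * M' : ℕ) : ℤ) ^ D *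
      ∑ i ∈ Finset.range (D + 1), ∑ j ∈ Finset.range (D + 1), c i j * ((a : ℤ) ^ i * (a' : ℤ) ^ j) := by
  have expand : ∀ (x y i : ℕ), i ≤ D → (x : ℤ) ^ i =
      ∑ u ∈ Finset.range (D + 1),
        ((i.choose u : ℤ) * (-(y : ℤ)) ^ (i - u)) * ((x : ℤ) + y) ^ u := by
    intro x y i hi
    have h1 : (x : ℤ) = ((x : ℤ) + y) + (-(y : ℤ)) := by ring
    conv_lhs => rw [h1]
    rw [add_pow, ← Finset.sum_subset (Finset.range_subset_range.2 (by omega : i + 1 ≤ D + 1))]
    · refine Finset.sum_congr rfl fun u _ => ?_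
      ring
    · intro u _ hu
      rw [Finset.mem_range, not_lt] at hu
      rw [Nat.choose_eq_zero_of_lt (by omega)]
      simp
  set E : ℕ → ℕ → ℤ := fun u v =>
    ∑ i ∈ Finset.range (D + 1), ∑ j ∈ Finset.range (D + 1),
      c i j * ((i.choose u : ℤ) * (-(d : ℤ)) ^ (i - u)) *
        ((j.choose v : ℤ) * (-(d' : ℤ)) ^ (j - v)) with hE
  have hsum : ∑ i ∈ Finset.range (D + 1), ∑ j ∈ Finset.range (D + 1),
      c i j * ((a : ℤ) ^ i * (a' : ℤ) ^ j) =
      ∑ u ∈ Finset.range (D + 1), ∑ v ∈ Finset.range (D + 1),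
        E u v * (((a : ℤ) + d) ^ u * ((a' : ℤ) + d') ^ v) := by
    have h1 : ∀ i ∈ Finset.range (D + 1), ∀ j ∈ Finset.range (D + 1),
        c i j * ((a : ℤ) ^ i * (a' : ℤ) ^ j) =
        ∑ u ∈ Finset.range (D + 1), ∑ v ∈ Finset.range (D + 1),
          c i j * ((i.choose u : ℤ) * (-(d : ℤ)) ^ (i - u)) *
            ((j.choose v : ℤ) * (-(d' : ℤ)) ^ (j - v)) *
            (((a : ℤ) + d) ^ u * ((a' : ℤ) + d') ^ v) := by
      intro i hi j hj
      rw [Finset.mem_range] at hi hj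
      rw [expand a d i (by omega), expand a' d' j (by omega), Finset.sum_mul_sum, Finset.mul_sum]
      refine Finset.sum_congr rfl fun u _ => ?_
      rw [Finset.mul_sum]
      refine Finset.sum_congr rfl fun v _ => ?_
      ring
    rw [Finset.sum_congr rfl fun i hi => Finset.sum_congr rfl fun j hj => h1 i hi j hj]
    rw [Finset.sum_congr rfl fun i _ => Finset.sum_comm]
    rw [Finset.sum_comm]
    refine Finset.sum_congr rfl fun u _ => ?_
    rw [Finset.sum_congr rfl fun i _ => Finset.sum_comm]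
    rw [Finset.sum_comm]
    refine Finset.sum_congr rfl fun v _ => ?_
    rw [hE, Finset.sum_mul]
    refine Finset.sum_congr rfl fun i _ => ?_
    rw [Finset.sum_mul]
  rw [hsum, Finset.mul_sum]
  refine Finset.dvd_sum fun u hu => ?_
  rw [Finset.mul_sum]
  refine Finset.dvd_sum fun v hv' => ?_
  rw [Finset.mem_range] at hu hv'
  rcases lt_or_ge (u + v) μ with h1 | h1
  · have h2 : E u v = 0 := hv u v h1
    rw [h2]
    simp
  rcases lt_or_ge D (u + v) with h2 | h2
  · have h3 : E u v = 0 := by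
      rw [hE]
      refine Finset.sum_eq_zero fun i _ => Finset.sum_eq_zero fun j _ => ?_
      rcases lt_or_ge i u with h4 | h4
      · rw [Nat.choose_eq_zero_of_lt h4]; simp
      rcases lt_or_ge j v with h5 | h5
      · rw [Nat.choose_eq_zero_of_lt h5]; simp
      rw [hc i j (by omega)]; simp
    rw [h3]
    simp
  · have h3 : p ^ (e * μ) ∣ (M * M') ^ D * ((a + d) ^ u * (a' + d') ^ v) := by
      have h4 : p ^ (e * μ) ∣ p ^ (e * (u + v)) :=
        pow_dvd_pow _ (Nat.mul_le_mul_left _ h1)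
      have h5 : p ^ (e * (u + v)) ∣ ((a + d) * M) ^ u * ((a' + d') * M') ^ v := by
        rw [mul_add, pow_add, pow_mul, pow_mul]
        exact mul_dvd_mul (pow_dvd_pow_of_dvd h u) (pow_dvd_pow_of_dvd h' v)
      have h6 : (M * M') ^ D * ((a + d) ^ u * (a' + d') ^ v) =
          ((a + d) * M) ^ u * ((a' + d') * M') ^ v * (M ^ (D - u) * M' ^ (D - v)) := by
        have h7 : M ^ D = M ^ u * M ^ (D - u) := by
          rw [← pow_add]; congr 1; omega
        have h8 : M' ^ D = M' ^ v * M' ^ (D - v) := by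
          rw [← pow_add]; congr 1; omega
        rw [mul_pow, h7, h8, mul_pow, mul_pow]
        ring
      rw [h6]
      exact dvd_mul_of_dvd_left (h4.trans h5) _
    have h9 : ((p ^ (e * μ) : ℕ) : ℤ) ∣
        (((M * M') ^ D * ((a + d) ^ u * (a' + d') ^ v) : ℕ) : ℤ) := by
      exact_mod_cast h3
    have h10 : ((M * M' : ℕ) : ℤ) ^ D * (E u v * (((a : ℤ) + d) ^ u * ((a' : ℤ) + d') ^ v)) =
        E u v * (((M * M') ^ D * ((a + d) ^ u * (a' + d') ^ v) : ℕ) : ℤ) := by
      push_cast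
      ring
    rw [h10]
    exact dvd_mul_of_dvd_right h9 _

end Fac88
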