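import Pool.Agent.W_198aa6_h88.PParam
import Pool.Agent.W_156d3b_h46.Cover

set_option autoImplicit false

namespace Fac88

/-- PROOF. `WW X + 1 ≥ X / (1024 L^2)`, so `(X+1)/(WW X + 1) ≤ 2048 L^2` for `X ≥ 1`; every summand is
`≤ (L+2) * 8 * 10^20 L^17 * L` (`BD_le`), there are `L + 1` of them. -/
theorem asy_windows : ∃ C : ℕ, ∀ X ≥ 1,
    ((X + 1) / (WW X + 1) + 1) * (∑ t ∈ Finset.Icc 2 (LL X + 2), t * (8 * BD X t * LL X)) ≤
      C * (LL X) ^ 22 := by
  refine ⟨1025 * (48 * 10 ^ 20), fun X _ => ?_⟩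
  have hL : 1 ≤ LL X := LL_pos X
  have hL2 : 1 ≤ (LL X) ^ 2 := Nat.one_le_pow _ _ hL
  have h1 : (X + 1) / (WW X + 1) ≤ 1024 * (LL X) ^ 2 := by
    apply Nat.div_le_of_le_mul
    have h2 : X < 1024 * (LL X) ^ 2 * (X / (1024 * (LL X) ^ 2)) + 1024 * (LL X) ^ 2 :=
      Nat.lt_mul_div_succ X (by omega)
    calc X + 1 ≤ 1024 * (LL X) ^ 2 * (X / (1024 * (LL X) ^ 2)) + 1024 * (LL X) ^ 2 := h2
      _ = (WW X + 1) * (1024 * (LL X) ^ 2) := by unfold WW; ring
  have h3 : (X + 1) / (WW X + 1) + 1 ≤ 1025 * (LL X) ^ 2 := by omega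
  have h4 : ∀ t ∈ Finset.Icc 2 (LL X + 2), t * (8 * BD X t * LL X) ≤ 24 * 10 ^ 20 * (LL X) ^ 19 := by
    intro t ht
    rw [Finset.mem_Icc] at ht
    have h5 := BD_le X t ht.2
    have h6 : t ≤ 3 * LL X := by omega
    calc t * (8 * BD X t * LL X) ≤ (3 * LL X) * (8 * (10 ^ 20 * (LL X) ^ 17) * LL X) :=
          Nat.mul_le_mul h6 (Nat.mul_le_mul (Nat.mul_le_mul le_rfl h5) le_rfl)
      _ = 24 * 10 ^ 20 * (LL X) ^ 19 := by ring
  have h7 : ∑ t ∈ Finset.Icc 2 (LL X + 2), t * (8 * BD X t * LL X) ≤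
      48 * 10 ^ 20 * (LL X) ^ 20 := by
    refine (Finset.sum_le_card_nsmul _ _ _ h4).trans ?_
    rw [Nat.card_Icc, smul_eq_mul]
    have h8 : LL X + 2 + 1 - 2 ≤ 2 * LL X := by omega
    calc (LL X + 2 + 1 - 2) * (24 * 10 ^ 20 * (LL X) ^ 19) ≤
        (2 * LL X) * (24 * 10 ^ 20 * (LL X) ^ 19) := Nat.mul_le_mul_right _ h8
      _ = 48 * 10 ^ 20 * (LL X) ^ 20 := by ring
  calc ((X + 1) / (WW X + 1) + 1) * (∑ t ∈ Finset.Icc 2 (LL X + 2), t * (8 * BD X t * LL X))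
      ≤ (1025 * (LL X) ^ 2) * (48 * 10 ^ 20 * (LL X) ^ 20) := Nat.mul_le_mul h3 h7
    _ = 1025 * (48 * 10 ^ 20) * (LL X) ^ 22 := by ring

/-- PROOF. Strong induction on `x`; `x ≥ 2 X0 + 2`: `X = x / 2`, the points in `[0,x]` are the points in `[0,X]` and the
points in `(X, 2X+1]`; `LL X ≤ Nat.log 2 x + 2 ≤ 2 (Nat.log 2 x + 1)` and `Nat.log 2 X = Nat.log 2 x - 1`,
`A l^(r+1) + C 2^r (l+1)^r ≤ A (l+1)^(r+1)` for `A ≥ C 2^r`. Small `x`: `A ≥ 2 X0 + 3`. -/
theorem dyadic_log (Q : ℕ → Prop) [DecidablePred Q] (r C X0 : ℕ)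
    (h : ∀ X ≥ X0, ((Finset.Ioc X (2 * X + 1)).filter Q).card ≤ C * (LL X) ^ r) :
    ∃ A : ℕ, ∀ x : ℕ, ((Finset.range (x + 1)).filter Q).card ≤ A * (Nat.log 2 x + 1) ^ (r + 1) := by
  obtain ⟨A, hA⟩ : ∃ A : ℕ, A = max (C * 2 ^ r) (2 * X0 + 3) := ⟨_, rfl⟩
  have hA1 : C * 2 ^ r ≤ A := hA ▸ le_max_left _ _
  have hA2 : 2 * X0 + 3 ≤ A := hA ▸ le_max_right _ _
  refine ⟨A, fun x => ?_⟩
  induction x using Nat.strong_induction_on with
  | _ x ih =>
    by_cases hxX : x < 2 * X0 + 2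
    · have h3 : ((Finset.range (x + 1)).filter Q).card ≤ x + 1 :=
        (Finset.card_filter_le _ _).trans (le_of_eq (Finset.card_range _))
      have h4 : 1 ≤ (Nat.log 2 x + 1) ^ (r + 1) := Nat.one_le_pow _ _ (Nat.succ_pos _)
      calc ((Finset.range (x + 1)).filter Q).card ≤ A := by omega
        _ = A * 1 := (Nat.mul_one A).symm
        _ ≤ A * (Nat.log 2 x + 1) ^ (r + 1) := Nat.mul_le_mul_left _ h4
    · have hX : X0 ≤ x / 2 := by omega
      have hlt : x / 2 < x := by omega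
      have h3 := ih (x / 2) hlt
      have h4 := h (x / 2) hX
      have h5 : ((Finset.range (x + 1)).filter Q) ⊆ ((Finset.range (x / 2 + 1)).filter Q) ∪
          ((Finset.Ioc (x / 2) (2 * (x / 2) + 1)).filter Q) := by
        intro k hk
        rw [Finset.mem_filter, Finset.mem_range] at hk
        rw [Finset.mem_union, Finset.mem_filter, Finset.mem_filter, Finset.mem_range,
          Finset.mem_Ioc]
        by_cases hk2 : k < x / 2 + 1
        · exact Or.inl ⟨hk2, hk.2⟩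
        · exact Or.inr ⟨⟨by omega, by omega⟩, hk.2⟩
      have h6 : ((Finset.range (x + 1)).filter Q).card ≤
          ((Finset.range (x / 2 + 1)).filter Q).card +
          ((Finset.Ioc (x / 2) (2 * (x / 2) + 1)).filter Q).card :=
        (Finset.card_le_card h5).trans (Finset.card_union_le _ _)
      obtain ⟨l, hl⟩ : ∃ l : ℕ, l = Nat.log 2 (x / 2) := ⟨_, rfl⟩
      have hl1 : Nat.log 2 x = l + 1 := by
        rw [hl, Nat.log_div_base]
        have : 1 ≤ Nat.log 2 x := Nat.log_pos (by norm_num) (by omega)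
        omega
      have hl2 : LL (x / 2) = l + 3 := by
        unfold LL
        have h7 : 4 * (x / 2) = (x / 2) * 2 * 2 := by ring
        rw [h7, Nat.log_mul_base (by norm_num) (by omega), Nat.log_mul_base (by norm_num) (by omega), ← hl]
      rw [← hl] at h3
      rw [hl2] at h4
      rw [hl1]
      have h8 : (l + 3) ^ r ≤ 2 ^ r * (l + 2) ^ r := by
        rw [← Nat.mul_pow]
        exact Nat.pow_le_pow_left (by omega) r
      have h9 : (l + 1) ^ (r + 1) ≤ (l + 2) ^ r * (l + 1) := by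
        rw [pow_succ]
        exact Nat.mul_le_mul_right _ (Nat.pow_le_pow_left (by omega) r)
      calc ((Finset.range (x + 1)).filter Q).card
          ≤ A * (l + 1) ^ (r + 1) + C * (l + 3) ^ r := by omega
        _ ≤ A * ((l + 2) ^ r * (l + 1)) + C * (2 ^ r * (l + 2) ^ r) :=
            Nat.add_le_add (Nat.mul_le_mul_left _ h9) (Nat.mul_le_mul_left _ h8)
        _ = A * ((l + 2) ^ r * (l + 1)) + (C * 2 ^ r) * (l + 2) ^ r := by ring
        _ ≤ A * ((l + 2) ^ r * (l + 1)) + A * (l + 2) ^ r :=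
            Nat.add_le_add_left (Nat.mul_le_mul_right _ hA1) _
        _ = A * (l + 1 + 1) ^ (r + 1) := by ring

end Fac88
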