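import Pool.Agent.W_198aa6_h88.Defs

set_option autoImplicit false

namespace Fac88

open Nat

theorem Padic_prod_dvd_factorial {S : Finset ℕ} {f : ℕ → ℕ} {k : ℕ}
    (hf : ∀ y ∈ S, 1 ≤ f y ∧ f y ≤ k) (hinj : Set.InjOn f S) : ∏ y ∈ S, f y ∣ k ! := by
  classical
  have h1 : ∏ y ∈ S, f y = ∏ i ∈ S.image f, i := by
    rw [Finset.prod_image]
    exact hinj
  have h2 : k ! = ∏ i ∈ Finset.Ico 1 (k + 1), i := (Finset.prod_Ico_id_eq_factorial k).symm
  rw [h1, h2]
  refine Finset.prod_dvd_prod_of_subset _ _ _ ?_
  intro i hi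
  obtain ⟨y, hy, rfl⟩ := Finset.mem_image.1 hi
  exact Finset.mem_Ico.2 ⟨(hf y hy).1, Nat.lt_succ_of_le (hf y hy).2⟩

/-- The product of the distances of `x` to the other elements of `A ⊆ [a, a+m]` divides `m!`.
PROOF. The distances to the elements below `x` are distinct numbers in `[1, x-a]`, so their product
divides `(x-a)!` (which is `∏ i ∈ Icc 1 (x-a), i`, `Finset.prod_dvd_prod_of_subset` after reindexing by
`y ↦ x - y`); the distances to the elements above divide `(a+m-x)!`; and
`(x-a)! * (a+m-x)! ∣ (x-a + (a+m-x))! = m!` (`Nat.factorial_mul_factorial_dvd_factorial_add`).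
`A.erase x` is the disjoint union of the elements `< x` and `> x`. -/
theorem prod_dist_dvd {a m x : ℕ} {A : Finset ℕ} (hA : ∀ y ∈ A, a ≤ y ∧ y ≤ a + m) (hx : x ∈ A) :
    ∏ y ∈ A.erase x, Nat.dist x y ∣ m ! := by
  classical
  have hxa := hA x hx
  have h0 : m ! = (x - a + (a + m - x)) ! := by
    congr 1
    omega
  rw [← Finset.prod_filter_mul_prod_filter_not (A.erase x) (fun y => y < x)]
  rw [h0]
  refine dvd_trans (mul_dvd_mul ?_ ?_) (Nat.factorial_mul_factorial_dvd_factorial_add _ _)
  · refine Padic_prod_dvd_factorial (fun y hy => ?_) ?_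
    · rw [Finset.mem_filter, Finset.mem_erase] at hy
      have h1 := hA y hy.1.2
      have h2 := hy.2
      rw [Nat.dist_comm, Nat.dist_eq_sub_of_le h2.le]
      omega
    · intro y hy z hz hyz
      rw [Finset.mem_coe, Finset.mem_filter] at hy hz
      have h2 := hy.2
      have h3 := hz.2

      rw [Nat.dist_comm, Nat.dist_eq_sub_of_le h2.le, Nat.dist_comm x z,
        Nat.dist_eq_sub_of_le h3.le] at hyz
      omega
  · refine Padic_prod_dvd_factorial (fun y hy => ?_) ?_
    · rw [Finset.mem_filter, Finset.mem_erase] at hy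
      have h1 := hA y hy.1.2
      have h2 : x ≤ y := not_lt.1 hy.2
      have h3 := hy.1.1
      rw [Nat.dist_eq_sub_of_le h2]
      omega
    · intro y hy z hz hyz
      rw [Finset.mem_coe, Finset.mem_filter] at hy hz
      have h2 : x ≤ y := not_lt.1 hy.2
      have h3 : x ≤ z := not_lt.1 hz.2

      rw [Nat.dist_eq_sub_of_le h2, Nat.dist_eq_sub_of_le h3] at hyz
      omega

/-- PROOF. Take `x ∈ A` with `x.factorization p` maximal (`Finset.exists_max_image`). For `y ∈ A`,
`y ≠ x`: `p ^ (y.factorization p)` divides `y` and `x`, hence `Nat.dist x y ≠ 0`, so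
`y.factorization p ≤ (Nat.dist x y).factorization p`. Now
`(n !).factorization p = ∑ y ∈ A, y.factorization p = x.factorization p + ∑ y ∈ A.erase x, ...`
(`Nat.factorization_prod`) `≤ x.factorization p + ∑ y ∈ A.erase x, (Nat.dist x y).factorization p`.
The last sum is the factorization of the product, which divides `m!` by `prod_dist_dvd` (first claim); and
every `Nat.dist x y` is between 1 and `m`, so its factorization at `p` is `≤ Nat.log p m`
(`p ^ v ∣ d`, `d ≤ m`), and `A.erase x` has `t - 1` elements. -/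
theorem IsFac.padic {n t a m : ℕ} {A : Finset ℕ} (h : IsFac n t a m A) {p : ℕ} (hp : p.Prime) :
    ∃ x ∈ A, (n !).factorization p ≤ x.factorization p + (m !).factorization p ∧
      (n !).factorization p ≤ x.factorization p + (t - 1) * Nat.log p m := by
  classical
  obtain ⟨x, hx, hmax⟩ := Finset.exists_max_image A (fun y => y.factorization p) ⟨a, h.lo⟩
  have hsum : (n !).factorization p = ∑ y ∈ A, y.factorization p := by
    rw [← h.prod, Nat.factorization_prod (fun y hy => (h.pos hy).ne')]
    rw [Finsupp.finsetSum_apply]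
  have hsplit : ∑ y ∈ A, y.factorization p =
      x.factorization p + ∑ y ∈ A.erase x, y.factorization p :=
    (Finset.add_sum_erase A (fun y => y.factorization p) hx).symm
  have hd : ∀ y ∈ A.erase x, Nat.dist x y ≠ 0 := by
    intro y hy h0
    exact (Finset.mem_erase.1 hy).1 (Nat.eq_of_dist_eq_zero h0).symm
  have hle : ∀ y ∈ A.erase x, y.factorization p ≤ (Nat.dist x y).factorization p := by
    intro y hy
    have hyA := (Finset.mem_erase.1 hy).2
    rw [← hp.pow_dvd_iff_le_factorization (hd y hy)]
    have h1 : p ^ y.factorization p ∣ y := Nat.ordProj_dvd y p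
    have h2 : p ^ y.factorization p ∣ x :=
      (pow_dvd_pow p (hmax y hyA)).trans (Nat.ordProj_dvd x p)
    unfold Nat.dist
    exact dvd_add (Nat.dvd_sub h2 h1) (Nat.dvd_sub h1 h2)
  refine ⟨x, hx, ?_, ?_⟩
  · rw [hsum, hsplit]
    refine Nat.add_le_add_left ?_ _
    have h1 : ∑ y ∈ A.erase x, (Nat.dist x y).factorization p =
        (∏ y ∈ A.erase x, Nat.dist x y).factorization p := by
      rw [Nat.factorization_prod hd, Finsupp.finsetSum_apply]
    refine (Finset.sum_le_sum hle).trans ?_
    rw [h1]
    exact (Nat.factorization_le_iff_dvd (Finset.prod_ne_zero_iff.2 hd)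
      (Nat.factorial_ne_zero m)).2 (prod_dist_dvd h.bd hx) p
  · rw [hsum, hsplit]
    refine Nat.add_le_add_left ?_ _
    have h1 : ∀ y ∈ A.erase x, y.factorization p ≤ Nat.log p m := by
      intro y hy
      have hyA := (Finset.mem_erase.1 hy).2
      refine (hle y hy).trans ?_
      have h2 : p ^ (Nat.dist x y).factorization p ≤ Nat.dist x y :=
        Nat.le_of_dvd (Nat.pos_of_ne_zero (hd y hy)) (Nat.ordProj_dvd _ p)
      have h3 : Nat.dist x y ≤ m := by
        have h4 := h.dist hx hyA
        have h5 := h.dist hyA hx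
        unfold Nat.dist
        omega
      have hm : m ≠ 0 := by
        have := hd y hy
        omega
      exact (Nat.le_log_iff_pow_le hp.one_lt hm).2 (h2.trans h3)
    have h2 := Finset.sum_le_card_nsmul (A.erase x) (fun y => y.factorization p) _ h1
    rw [Finset.card_erase_of_mem hx, h.card, smul_eq_mul] at h2
    exact h2

end Fac88
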