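import Pool.Agent.W_198aa6_h88.PDat
import Pool.Agent.W_198aa6_h88.Padic

set_option autoImplicit false

namespace Fac88

open Nat

/-- PROOF. `A.orderEmbOfFin h.card` enumerates `A`; `d r = (r-th element) - a`, so `d r ≤ m < n`.
`M = ∏ x ∈ A, ∏ y ∈ A.erase x, Nat.dist x y`; all distances are in `[1, m]`, so `1 ≤ M ≤ m ^ (t (t-1)) ≤ n ^ (t^2)`.
For a prime `p` take `x ∈ A` with `x.factorization p` maximal (as in `IsFac.padic`, see also `sum_val_le` in
Struct.lean): `v_p (n!) ≤ v_p (x) + v_p (∏ y ∈ A.erase x, Nat.dist x y) ≤ v_p (x * M)`.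
`lo`, `hi` from `IsFac.pow_le`, `IsFac.le_pow` (`a + m ≤ a + n`). For non-primes `i p` is arbitrary (`0 < t`). -/
theorem dat_of_fac {n t a m : ℕ} {A : Finset ℕ} (h : IsFac n t a m A) (hm : m < n) :
    Nonempty (Dat n t) := by
  classical
  have hn : 1 ≤ n := by omega
  have hdist_pos : ∀ x ∈ A, ∀ y ∈ A.erase x, 0 < Nat.dist x y := fun x _ y hy =>
    Nat.dist_pos_of_ne (Finset.ne_of_mem_erase hy).symm
  have hdist_le : ∀ x ∈ A, ∀ y ∈ A.erase x, Nat.dist x y ≤ n := by
    intro x hx y hy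
    have h1 := h.dist hx (Finset.mem_of_mem_erase hy)
    have h2 := h.dist (Finset.mem_of_mem_erase hy) hx
    unfold Nat.dist
    omega
  let M : ℕ := ∏ x ∈ A, ∏ y ∈ A.erase x, Nat.dist x y
  have hM : 0 < M := Finset.prod_pos fun x hx => Finset.prod_pos fun y hy => hdist_pos x hx y hy
  have hM_le : M ≤ n ^ (t ^ 2) := by
    calc M ≤ ∏ x ∈ A, ∏ y ∈ A.erase x, n :=
          Finset.prod_le_prod' fun x hx => Finset.prod_le_prod' fun y hy => hdist_le x hx y hy
      _ = ∏ x ∈ A, n ^ (A.card - 1) := by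
          refine Finset.prod_congr rfl fun x hx => ?_
          rw [Finset.prod_const, Finset.card_erase_of_mem hx]
      _ = n ^ ((A.card - 1) * A.card) := by rw [Finset.prod_const, ← pow_mul]
      _ ≤ n ^ (t ^ 2) := by
          apply Nat.pow_le_pow_right hn
          rw [h.card, sq]
          exact Nat.mul_le_mul_right t (Nat.sub_le t 1)
  let e : Fin t ≃ A := (A.equivFinOfCardEq h.card).symm
  have hfact : ∀ p : ℕ, p.Prime → ∃ x ∈ A, ∀ k, p ^ k ∣ Nat.factorial n → p ^ k ∣ x * M := by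
    intro p hp
    obtain ⟨x, hx, hmax⟩ := Finset.exists_max_image A (fun y => y.factorization p) ⟨a, h.lo⟩
    refine ⟨x, hx, fun k hk => ?_⟩
    have hx0 : x ≠ 0 := (h.pos hx).ne'
    rw [hp.pow_dvd_iff_le_factorization (Nat.factorial_ne_zero n)] at hk
    rw [hp.pow_dvd_iff_le_factorization (Nat.mul_ne_zero hx0 hM.ne')]
    refine hk.trans ?_
    have hne : ∀ y ∈ A, y ≠ 0 := fun y hy => (h.pos hy).ne'
    have h1 : (Nat.factorial n).factorization p = ∑ y ∈ A, y.factorization p := by
      rw [← h.prod, Nat.factorization_prod hne, Finsupp.finsetSum_apply]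
    have h2 : ∀ y ∈ A.erase x, y.factorization p ≤ (Nat.dist x y).factorization p := by
      intro y hy
      have hyA := Finset.mem_of_mem_erase hy
      rw [← hp.pow_dvd_iff_le_factorization (hdist_pos x hx y hy).ne']
      have h3 : p ^ (y.factorization p) ∣ y := Nat.ordProj_dvd y p
      have h4 : p ^ (y.factorization p) ∣ x := by
        rw [hp.pow_dvd_iff_le_factorization hx0]
        exact hmax y hyA
      unfold Nat.dist
      exact Nat.dvd_add (Nat.dvd_sub h4 h3) (Nat.dvd_sub h3 h4)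
    have h5 : (∏ y ∈ A.erase x, Nat.dist x y).factorization p =
        ∑ y ∈ A.erase x, (Nat.dist x y).factorization p := by
      rw [Nat.factorization_prod fun y hy => (hdist_pos x hx y hy).ne', Finsupp.finsetSum_apply]
    have h6 : (∏ y ∈ A.erase x, Nat.dist x y).factorization p ≤ M.factorization p := by
      have h7 : (∏ y ∈ A.erase x, Nat.dist x y) ∣ M :=
        Finset.dvd_prod_of_mem (fun x => ∏ y ∈ A.erase x, Nat.dist x y) hx
      have h8 : (∏ y ∈ A.erase x, Nat.dist x y) ≠ 0 :=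
        (Finset.prod_pos fun y hy => hdist_pos x hx y hy).ne'
      exact (Nat.factorization_le_iff_dvd h8 hM.ne').2 h7 p
    rw [h1, ← Finset.add_sum_erase A _ hx, Nat.factorization_mul hx0 hM.ne', Finsupp.add_apply]
    refine Nat.add_le_add_left ?_ _
    refine le_trans (Finset.sum_le_sum h2) ?_
    rw [← h5]
    exact h6
  have hex : ∀ p : ℕ, ∃ r : Fin t, p.Prime → ∀ k, p ^ k ∣ Nat.factorial n →
      p ^ k ∣ (a + ((e r : ℕ) - a)) * M := by
    intro p
    by_cases hp : p.Prime
    · obtain ⟨x, hx, hxk⟩ := hfact p hp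
      refine ⟨e.symm ⟨x, hx⟩, fun _ k hk => ?_⟩
      rw [Equiv.apply_symm_apply]
      have h1 : a + (x - a) = x := Nat.add_sub_cancel' (h.bd x hx).1
      simp only [h1]
      exact hxk k hk
    · exact ⟨⟨0, h.t_pos⟩, fun hp' => absurd hp' hp⟩
  choose i hi using hex
  exact ⟨{
    a := a
    d := fun r => (e r : ℕ) - a
    M := M
    i := i
    a_pos := h.a_pos
    lo := h.pow_le
    hi := h.le_pow.trans (Nat.pow_le_pow_left (by omega) t)
    d_le := fun r => by
      have := (h.bd (e r : ℕ) (e r).2).2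
      omega
    M_pos := hM
    M_le := hM_le
    dvd := fun p hp k hk => hi p hp k hk }⟩

end Fac88
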