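import Pool.Agent.W_198aa6_h88.Padic
import Pool.Agent.W_198aa6_h88.Leg

set_option autoImplicit false

namespace Fac88

open Nat

/-- In a set `A ⊆ [a, a+m]` all the `p`-part except that of one element is bounded by `v_p(m!)`. -/
theorem sum_val_le {a m p : ℕ} {A : Finset ℕ} (hA : ∀ y ∈ A, a ≤ y ∧ y ≤ a + m)
    (hne : A.Nonempty) (hp : p.Prime) :
    ∃ x ∈ A, ∑ y ∈ A, y.factorization p ≤ x.factorization p + (m !).factorization p := by
  obtain ⟨x, hx, hmax⟩ := Finset.exists_max_image A (fun y => y.factorization p) hne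
  refine ⟨x, hx, ?_⟩
  rw [← Finset.add_sum_erase A _ hx]
  refine Nat.add_le_add_left ?_ _
  have hd : ∀ y ∈ A.erase x, Nat.dist x y ≠ 0 := by
    intro y hy h0
    have h1 := Nat.eq_of_dist_eq_zero h0
    exact (Finset.mem_erase.1 hy).1 h1.symm
  calc ∑ y ∈ A.erase x, y.factorization p
      ≤ ∑ y ∈ A.erase x, (Nat.dist x y).factorization p := by
        refine Finset.sum_le_sum fun y hy => ?_
        have hy' := Finset.mem_of_mem_erase hy
        have h1 : p ^ (y.factorization p) ∣ y := Nat.ordProj_dvd y p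
        have h2 : p ^ (y.factorization p) ∣ x :=
          dvd_trans (pow_dvd_pow p (hmax y hy')) (Nat.ordProj_dvd x p)
        have h3 : p ^ (y.factorization p) ∣ Nat.dist x y := by
          rcases Nat.le_total x y with h | h
          · rw [Nat.dist_eq_sub_of_le h]
            exact Nat.dvd_sub h1 h2
          · rw [Nat.dist_eq_sub_of_le_right h]
            exact Nat.dvd_sub h2 h1
        exact (hp.pow_dvd_iff_le_factorization (hd y hy)).1 h3
    _ = (∏ y ∈ A.erase x, Nat.dist x y).factorization p := by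
        rw [Nat.factorization_prod (fun y hy => hd y hy), Finsupp.finsetSum_apply]
    _ ≤ (m !).factorization p :=
        (Nat.factorization_le_iff_dvd (Finset.prod_ne_zero_iff.2 hd)
          (Nat.factorial_ne_zero m)).2 (prod_dist_dvd hA hx) p

theorem val_le_log {x p : ℕ} (hx : 0 < x) : x.factorization p ≤ Nat.log p x := by
  rcases Nat.lt_or_ge 1 p with hp | hp
  · exact Nat.le_log_of_pow_le hp (Nat.le_of_dvd hx (Nat.ordProj_dvd x p))
  · have h1 : ¬ p.Prime := fun h => absurd h.one_lt (by omega)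
    rw [Nat.factorization_eq_zero_of_not_prime _ h1]
    exact Nat.zero_le _

theorem IsFac.sum_val {n t a m : ℕ} {A : Finset ℕ} (h : IsFac n t a m A) (p : ℕ) :
    (n !).factorization p = ∑ y ∈ A, y.factorization p := by
  rw [← h.prod, Nat.factorization_prod (fun y hy => (h.pos hy).ne'), Finsupp.finsetSum_apply]

/-- all elements but one: dividing the multiples of 4 by 4 -/
theorem IsFac.four {n t a m : ℕ} {A : Finset ℕ} (h : IsFac n t a m A) :
    (n !).factorization 2 ≤ 2 * t + Nat.log 2 (a + m) + m / 4 := by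
  classical
  have hsum := h.sum_val 2
  obtain ⟨A4, hA4⟩ : ∃ A4 : Finset ℕ, A4 = A.filter (fun y => 4 ∣ y) := ⟨_, rfl⟩
  have hsub : A4 ⊆ A := by rw [hA4]; exact Finset.filter_subset _ _
  -- outside A4 the valuation is at most 1, inside it is 2 + v (y / 4)
  have hin : ∀ y ∈ A4, y.factorization 2 = 2 + (y / 4).factorization 2 := by
    intro y hy
    rw [hA4, Finset.mem_filter] at hy
    obtain ⟨b, hb⟩ := hy.2
    have hy0 := h.pos hy.1
    have hb0 : b ≠ 0 := by
      rintro rfl
      omega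
    rw [hb, Nat.mul_div_cancel_left b (by norm_num), Nat.factorization_mul (by norm_num) hb0,
      Finsupp.add_apply, show (4 : ℕ) = 2 ^ 2 by norm_num, Nat.factorization_pow,
      Finsupp.smul_apply, Nat.Prime.factorization_self Nat.prime_two]
    rfl
  have hout : ∀ y ∈ A \ A4, y.factorization 2 ≤ 1 := by
    intro y hy
    rw [Finset.mem_sdiff, hA4, Finset.mem_filter] at hy
    by_contra hcon
    push Not at hcon
    have h1 : 2 ^ 2 ∣ y := dvd_trans (pow_dvd_pow 2 hcon) (Nat.ordProj_dvd y 2)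
    exact hy.2 ⟨hy.1, by simpa using h1⟩
  have hcard : A4.card ≤ t := by rw [← h.card]; exact Finset.card_le_card hsub
  have hcard2 : (A \ A4).card = t - A4.card := by
    rw [Finset.card_sdiff_of_subset hsub, h.card]
  have hsplit : ∑ y ∈ A, y.factorization 2 =
      ∑ y ∈ A \ A4, y.factorization 2 + ∑ y ∈ A4, y.factorization 2 :=
    (Finset.sum_sdiff hsub).symm
  have h1 : ∑ y ∈ A \ A4, y.factorization 2 ≤ t - A4.card := by
    rw [← hcard2]
    calc ∑ y ∈ A \ A4, y.factorization 2 ≤ ∑ _y ∈ A \ A4, 1 := Finset.sum_le_sum hout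
      _ = (A \ A4).card := by rw [Finset.sum_const, smul_eq_mul, mul_one]
  have h2 : ∑ y ∈ A4, y.factorization 2 = 2 * A4.card + ∑ y ∈ A4, (y / 4).factorization 2 := by
    rw [Finset.sum_congr rfl hin, Finset.sum_add_distrib, Finset.sum_const, smul_eq_mul]
    ring
  have h3 : ∑ y ∈ A4, (y / 4).factorization 2 ≤ Nat.log 2 (a + m) + m / 4 := by
    rcases A4.eq_empty_or_nonempty with he | hne
    · rw [he, Finset.sum_empty]
      exact Nat.zero_le _
    · obtain ⟨B, hB⟩ : ∃ B : Finset ℕ, B = A4.image (fun y => y / 4) := ⟨_, rfl⟩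
      have hinj : Set.InjOn (fun y => y / 4) (A4 : Set ℕ) := by
        intro y hy z hz hyz
        rw [Finset.mem_coe, hA4, Finset.mem_filter] at hy hz
        have e1 := Nat.div_mul_cancel hy.2
        have e2 := Nat.div_mul_cancel hz.2
        simp only at hyz
        rw [← e1, ← e2, hyz]
      have hBs : ∑ b ∈ B, b.factorization 2 = ∑ y ∈ A4, (y / 4).factorization 2 := by
        rw [hB, Finset.sum_image hinj]
      have hmem : ∀ b ∈ B, ∃ y ∈ A, 4 ∣ y ∧ b = y / 4 := by
        intro b hb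
        rw [hB, Finset.mem_image] at hb
        obtain ⟨y, hy, rfl⟩ := hb
        rw [hA4, Finset.mem_filter] at hy
        exact ⟨y, hy.1, hy.2, rfl⟩
      have hBr : ∀ b ∈ B, (a + 3) / 4 ≤ b ∧ b ≤ (a + 3) / 4 + m / 4 := by
        intro b hb
        obtain ⟨y, hy, hd, rfl⟩ := hmem b hb
        obtain ⟨c, rfl⟩ := hd
        have := h.bd _ hy
        rw [Nat.mul_div_cancel_left c (by norm_num)]
        omega
      have hBpos : ∀ b ∈ B, 0 < b := by
        intro b hb
        obtain ⟨y, hy, hd, rfl⟩ := hmem b hb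
        exact Nat.div_pos (Nat.le_of_dvd (h.pos hy) hd) (by norm_num)
      have hBne : B.Nonempty := by rw [hB]; exact hne.image _
      obtain ⟨b, hb, hle⟩ := sum_val_le hBr hBne Nat.prime_two
      rw [← hBs]
      obtain ⟨y, hy, hd, hby⟩ := hmem b hb
      have h4 : b.factorization 2 ≤ Nat.log 2 (a + m) := by
        refine le_trans (val_le_log (hBpos b hb)) (Nat.log_mono_right ?_)
        have := (h.bd y hy).2
        rw [hby]
        exact le_trans (Nat.div_le_self y 4) this
      have h5 : ((m / 4)!).factorization 2 ≤ m / 4 := by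
        rcases Nat.eq_zero_or_pos (m / 4) with h0 | h0
        · rw [h0]; simp
        · have := leg_two_le (m / 4) h0
          omega
      omega
  omega

/-- `log_2 (a+m) ≤ e + l + 1` and `e * t ≤ (l+1) n`, where `e = log_2 a` and `l = log_2 n`. -/
theorem IsFac.log_bounds {n t a m : ℕ} {A : Finset ℕ} (h : IsFac n t a m A) (hn : 2 ≤ n)
    (hmn : m < n) : Nat.log 2 a * t ≤ (Nat.log 2 n + 1) * n ∧
      Nat.log 2 (a + m) ≤ max (Nat.log 2 a) (Nat.log 2 n) + 1 := by
  constructor
  · have h1 : 2 ^ (Nat.log 2 a * t) ≤ 2 ^ ((Nat.log 2 n + 1) * n) := by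
      calc 2 ^ (Nat.log 2 a * t) = (2 ^ Nat.log 2 a) ^ t := by rw [pow_mul]
        _ ≤ a ^ t := Nat.pow_le_pow_left (Nat.pow_log_le_self 2 h.a_pos.ne') t
        _ ≤ n ! := h.pow_le
        _ ≤ n ^ n := Nat.factorial_le_pow n
        _ ≤ (2 ^ (Nat.log 2 n + 1)) ^ n :=
            Nat.pow_le_pow_left (Nat.lt_pow_succ_log_self (by norm_num) n).le n
        _ = 2 ^ ((Nat.log 2 n + 1) * n) := by rw [pow_mul]
    exact (Nat.pow_le_pow_iff_right (by norm_num)).1 h1
  · rcases Nat.le_total a m with ham | ham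
    · have h2 : Nat.log 2 (a + m) ≤ Nat.log 2 (n * 2) := Nat.log_mono_right (by omega)
      rw [Nat.log_mul_base (by norm_num) (by omega)] at h2
      exact le_trans h2 (Nat.add_le_add_right (le_max_right _ _) 1)
    · have h2 : Nat.log 2 (a + m) ≤ Nat.log 2 (a * 2) := Nat.log_mono_right (by omega)
      rw [Nat.log_mul_base (by norm_num) h.a_pos.ne'] at h2
      exact le_trans h2 (Nat.add_le_add_right (le_max_left _ _) 1)

theorem poly_lt_two_pow (l : ℕ) (hl : 14 ≤ l) : (l + 3) * (l + 1) * (6 * l + 6) < 2 * 2 ^ l := by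
  induction l, hl using Nat.le_induction with
  | base => norm_num
  | succ l hl ih =>
    have h1 : (l + 1 + 3) * (l + 1 + 1) * (6 * (l + 1) + 6) ≤
        2 * ((l + 3) * (l + 1) * (6 * l + 6)) := by
      have : 14 * (l * l) ≤ l * (l * l) := Nat.mul_le_mul_right _ hl
      have : 14 * l ≤ l * l := Nat.mul_le_mul_right _ hl
      nlinarith
    calc (l + 1 + 3) * (l + 1 + 1) * (6 * (l + 1) + 6) ≤
        2 * ((l + 3) * (l + 1) * (6 * l + 6)) := h1
      _ < 2 * (2 * 2 ^ l) := by omega
      _ = 2 * 2 ^ (l + 1) := by ring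

/-- DICHOTOMY: few factors, or almost maximal spread. -/
theorem dichotomy {n t a m : ℕ} {A : Finset ℕ} (hn : 2 ^ 14 ≤ n) (h : IsFac n t a m A)
    (hm : 1 ≤ m) (hmn : m < n) : t ≤ Nat.log 2 n + 2 ∨ n ≤ m + 5 * Nat.log 2 n + 4 := by
  obtain ⟨l, hl⟩ : ∃ l : ℕ, l = Nat.log 2 n := ⟨_, rfl⟩
  obtain ⟨e, he⟩ : ∃ e : ℕ, e = Nat.log 2 a := ⟨_, rfl⟩
  have hl14 : 14 ≤ l := by
    rw [hl]
    exact Nat.le_log_of_pow_le (by norm_num) hn
  have hpl : 2 ^ l ≤ n := by
    rw [hl]
    exact Nat.pow_log_le_self 2 (by omega)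
  have hpoly := poly_lt_two_pow l hl14
  obtain ⟨hb1, hb2⟩ := h.log_bounds (by omega) hmn
  rw [← hl, ← he] at hb1 hb2
  have hleg := leg_two_ge n (by omega)
  rw [← hl] at hleg
  rw [← hl]
  by_contra hcon
  push Not at hcon
  obtain ⟨ht, hmm⟩ := hcon
  have hmax : max e l ≤ e + l := by
    rcases Nat.le_total e l with h1 | h1
    · rw [max_eq_right h1]; omega
    · rw [max_eq_left h1]; omega
  by_cases h4 : n < 4 * t
  · -- many factors
    obtain ⟨x, hx, hx1, -⟩ := h.padic Nat.prime_two
    have h5 : x.factorization 2 ≤ Nat.log 2 (a + m) :=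
      le_trans (val_le_log (h.pos hx)) (Nat.log_mono_right (h.bd x hx).2)
    have h6 := leg_two_le m hm
    have he4 : e ≤ 4 * l + 3 := by
      by_contra hc
      push Not at hc
      have h7 : (4 * l + 4) * t ≤ e * t := Nat.mul_le_mul_right _ hc
      have h8 : (4 * l + 4) * t = (l + 1) * (4 * t) := by ring
      have h9 : (l + 1) * n < (l + 1) * (4 * t) := Nat.mul_lt_mul_of_pos_left h4 (by omega)
      omega
    have h10 : max e l ≤ 4 * l + 3 := max_le he4 (by omega)
    omega
  · push Not at h4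
    by_cases h6 : 6 * (l + 1) ≤ t
    · -- medium
      have h7 := h.four
      have h8 : 6 * e ≤ n := by
        have h9 : e * (6 * (l + 1)) ≤ (l + 1) * n := le_trans (Nat.mul_le_mul_left _ h6) hb1
        have h10 : (l + 1) * (6 * e) ≤ (l + 1) * n := by
          calc (l + 1) * (6 * e) = e * (6 * (l + 1)) := by ring
            _ ≤ _ := h9
        exact Nat.le_of_mul_le_mul_left h10 (by omega)
      have h11 : 24 * (l + 1) < n := by
        have e1 : 51 ≤ (l + 3) * (6 * l + 6) := by nlinarith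
        have e2 : 51 * (l + 1) ≤ (l + 3) * (6 * l + 6) * (l + 1) := Nat.mul_le_mul_right _ e1
        have e3 : (l + 3) * (6 * l + 6) * (l + 1) = (l + 3) * (l + 1) * (6 * l + 6) := by ring
        omega
      omega
    · -- few, but more than log_2 n + 2
      push Not at h6
      obtain ⟨x, hx, -, hx2⟩ := h.padic Nat.prime_two
      have h5 : x.factorization 2 ≤ Nat.log 2 (a + m) :=
        le_trans (val_le_log (h.pos hx)) (Nat.log_mono_right (h.bd x hx).2)
      have h7 : Nat.log 2 m ≤ l := by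
        rw [hl]
        exact Nat.log_mono_right hmn.le
      have h8 : (t - 1) * Nat.log 2 m ≤ (6 * (l + 1)) * l :=
        Nat.mul_le_mul (by omega) h7
      have h9 : n ≤ e + (6 * (l + 1)) * l + 2 * l + 2 := by omega
      have h10 : e * (l + 3) ≤ (l + 1) * n := le_trans (Nat.mul_le_mul_left _ (by omega)) hb1
      have h11 : n * (l + 3) ≤ (e + (6 * (l + 1)) * l + 2 * l + 2) * (l + 3) :=
        Nat.mul_le_mul_right _ h9
      have h12 : 2 * n ≤ ((6 * (l + 1)) * l + 2 * l + 2) * (l + 3) := by nlinarith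
      have h13 : ((6 * (l + 1)) * l + 2 * l + 2) * (l + 3) ≤ (l + 3) * (l + 1) * (6 * l + 6) := by
        nlinarith
      omega

end Fac88
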