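import Pool.Agent.W_198aa6_h88.PWin
import Pool.Agent.W_198aa6_h88.PDyad
import Pool.Agent.W_198aa6_h88.Struct

set_option autoImplicit false

namespace Fac88

open Nat

/-- a factorisation with small spread, in the form of the final theorem -/
def Small (n : ℕ) : Prop :=
  ∃ A : Finset ℕ, 2 ≤ A.card ∧ ∏ a ∈ A, a = Nat.factorial n ∧
    ∀ a ∈ A, ∀ b ∈ A, b + 5 * Nat.log 2 n + 4 < a + n

theorem Small.eqt {n : ℕ} (hn : 2 ^ 14 ≤ n) (h : Small n) :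
    ∃ t, 2 ≤ t ∧ t ≤ Nat.log 2 n + 2 ∧ Eqt t n := by
  obtain ⟨A, hA, hprod, hsp⟩ := h
  have hne : A.Nonempty := Finset.card_pos.1 (by omega)
  have hle : A.min' hne ≤ A.max' hne := Finset.min'_le_max' A hne
  have hlt : A.min' hne < A.max' hne := Finset.min'_lt_max'_of_card A (by omega)
  have hs := hsp _ (A.min'_mem hne) _ (A.max'_mem hne)
  obtain ⟨a, ha⟩ : ∃ a, a = A.min' hne := ⟨_, rfl⟩
  obtain ⟨m, hm⟩ : ∃ m, m = A.max' hne - A.min' hne := ⟨_, rfl⟩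
  have ham : a + m = A.max' hne := by omega
  have hfac : IsFac n A.card a m A := by
    refine ⟨rfl, hprod, ?_, ?_, ?_⟩
    · rw [ha]; exact A.min'_mem hne
    · rw [ham]; exact A.max'_mem hne
    · intro x hx
      rw [ham, ha]
      exact ⟨A.min'_le x hx, A.le_max' x hx⟩
  have hmn : m < n := by omega
  have hm1 : 1 ≤ m := by omega
  rcases dichotomy hn hfac hm1 hmn with h | h
  · exact ⟨A.card, hA, h, a, m, A, hfac, hmn⟩
  · exfalso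
    omega

theorem WW_le (X : ℕ) : WW X ≤ X := Nat.div_le_self _ _

open Classical in
theorem block : ∃ C X0 : ℕ, ∀ X ≥ X0,
    ((Finset.Ioc X (2 * X + 1)).filter (fun n => 2 ^ 14 ≤ n ∧ Small n)).card ≤ C * (LL X) ^ 22 := by
  obtain ⟨X1, h1⟩ := window_t
  obtain ⟨C, hC⟩ := asy_windows
  refine ⟨C, max X1 1, fun X hX => ?_⟩
  have hX1 : X1 ≤ X := le_trans (le_max_left _ _) hX
  have hX2 : 1 ≤ X := le_trans (le_max_right _ _) hX
  refine le_trans (Sur46.cover _ X (WW X)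
    (∑ t ∈ Finset.Icc 2 (LL X + 2), t * (8 * BD X t * LL X)) hX2 ?_) (hC X hX2)
  intro K hK1 hK2
  have hsub : (Finset.Icc K (K + WW X)).filter (fun n => 2 ^ 14 ≤ n ∧ Small n) ⊆
      (Finset.Icc 2 (LL X + 2)).biUnion
        (fun t => (Finset.Icc K (K + WW X)).filter (Eqt t)) := by
    intro n hn
    rw [Finset.mem_filter] at hn
    obtain ⟨hn1, hn2, hn3⟩ := hn
    obtain ⟨t, ht1, ht2, ht3⟩ := hn3.eqt hn2
    rw [Finset.mem_biUnion]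
    refine ⟨t, ?_, Finset.mem_filter.2 ⟨hn1, ht3⟩⟩
    rw [Finset.mem_Icc] at hn1 ⊢
    have h3 : n ≤ 4 * X := by
      have := WW_le X
      omega
    have h4 : Nat.log 2 n ≤ Nat.log 2 (4 * X) := Nat.log_mono_right h3
    unfold LL
    omega
  refine le_trans (Finset.card_le_card hsub) (le_trans Finset.card_biUnion_le ?_)
  refine Finset.sum_le_sum fun t ht => ?_
  rw [Finset.mem_Icc] at ht
  exact h1 X hX1 K hK1 hK2 t ht.1 ht.2 _ (Finset.filter_subset _ _)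
    (fun k hk => (Finset.mem_filter.1 hk).2)

theorem log_conv {N : ℕ} (hN : 2 ≤ N) : ((Nat.log 2 N + 1 : ℕ) : ℝ) ≤ 3 * Real.log N := by
  have h1 : (Nat.log 2 N : ℝ) * Real.log 2 ≤ Real.log N := by
    rw [← Real.log_pow]
    refine Real.log_le_log (by positivity) ?_
    exact_mod_cast Nat.pow_log_le_self 2 (by omega : N ≠ 0)
  have h2 : Real.log 2 ≤ Real.log N :=
    Real.log_le_log (by norm_num) (by exact_mod_cast hN)
  have h3 := Real.log_two_gt_d9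
  have h4 : (1 : ℝ) ≤ Nat.log 2 N := by
    exact_mod_cast Nat.le_log_of_pow_le (by norm_num) (by simpa using hN)
  push_cast
  nlinarith

/-- ASSEMBLY: `Struct.dichotomy`, `window_t` summed over `t ∈ [2, LL X + 2]`, `Sur46.cover`, `asy_windows`,
`dyadic_log` with `r = 22`. -/
theorem mainP : ∃ C : ℝ, ∀ N : ℕ, 2 ≤ N →
    (Set.ncard {n : ℕ | n ≤ N ∧ 2 ≤ n ∧ ∃ A : Finset ℕ, 2 ≤ A.card ∧
      ∏ a ∈ A, a = Nat.factorial n ∧ ∀ a ∈ A, ∀ b ∈ A, b + 5 * Nat.log 2 n + 4 < a + n} : ℝ) ≤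
    C * (Real.log N) ^ 23 := by
  classical
  obtain ⟨C, X0, hC⟩ := block
  obtain ⟨A, hA⟩ := dyadic_log _ 22 C X0 hC
  refine ⟨2 ^ 14 * 3 ^ 23 + A * 3 ^ 23, fun N hN => ?_⟩
  have hsub : {n : ℕ | n ≤ N ∧ 2 ≤ n ∧ ∃ A : Finset ℕ, 2 ≤ A.card ∧
      ∏ a ∈ A, a = Nat.factorial n ∧ ∀ a ∈ A, ∀ b ∈ A, b + 5 * Nat.log 2 n + 4 < a + n} ⊆
      ((Finset.range (2 ^ 14) ∪
        (Finset.range (N + 1)).filter (fun n => 2 ^ 14 ≤ n ∧ Small n) : Finset ℕ) : Set ℕ) := by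
    rintro n ⟨hn1, hn2, hn3⟩
    rw [Finset.mem_coe, Finset.mem_union, Finset.mem_filter, Finset.mem_range, Finset.mem_range]
    by_cases h : n < 2 ^ 14
    · exact Or.inl h
    · exact Or.inr ⟨by omega, by omega, hn3⟩
  have h1 := Set.ncard_le_ncard hsub (Finset.finite_toSet _)
  rw [Set.ncard_coe_finset] at h1
  have h2 := Finset.card_union_le (Finset.range (2 ^ 14))
    ((Finset.range (N + 1)).filter (fun n => 2 ^ 14 ≤ n ∧ Small n))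
  rw [Finset.card_range] at h2
  have h3 := hA N
  have h4 : (Set.ncard {n : ℕ | n ≤ N ∧ 2 ≤ n ∧ ∃ A : Finset ℕ, 2 ≤ A.card ∧
      ∏ a ∈ A, a = Nat.factorial n ∧ ∀ a ∈ A, ∀ b ∈ A, b + 5 * Nat.log 2 n + 4 < a + n} : ℝ) ≤
      2 ^ 14 + A * ((Nat.log 2 N + 1 : ℕ) : ℝ) ^ 23 := by
    have h5 : Set.ncard {n : ℕ | n ≤ N ∧ 2 ≤ n ∧ ∃ A : Finset ℕ, 2 ≤ A.card ∧
      ∏ a ∈ A, a = Nat.factorial n ∧ ∀ a ∈ A, ∀ b ∈ A, b + 5 * Nat.log 2 n + 4 < a + n} ≤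
      2 ^ 14 + A * (Nat.log 2 N + 1) ^ (22 + 1) :=
      le_trans h1 (le_trans h2 (Nat.add_le_add_left h3 _))
    have h6 : (22 + 1 : ℕ) = 23 := rfl
    rw [h6] at h5
    exact_mod_cast h5
  have h5 := log_conv hN
  have h6 : (1 : ℝ) ≤ ((Nat.log 2 N + 1 : ℕ) : ℝ) := by
    exact_mod_cast (by omega : 1 ≤ Nat.log 2 N + 1)
  have h7 : ((Nat.log 2 N + 1 : ℕ) : ℝ) ^ 23 ≤ (3 * Real.log N) ^ 23 :=
    pow_le_pow_left₀ (by linarith) h5 23
  have h8 : (1 : ℝ) ≤ (3 * Real.log N) ^ 23 := one_le_pow₀ (by linarith)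
  have h9 : (A : ℝ) * ((Nat.log 2 N + 1 : ℕ) : ℝ) ^ 23 ≤ A * (3 * Real.log N) ^ 23 :=
    mul_le_mul_of_nonneg_left h7 (Nat.cast_nonneg _)
  calc _ ≤ 2 ^ 14 + A * ((Nat.log 2 N + 1 : ℕ) : ℝ) ^ 23 := h4
    _ ≤ 2 ^ 14 * (3 * Real.log N) ^ 23 + A * (3 * Real.log N) ^ 23 := by
        exact add_le_add (le_mul_of_one_le_right (by norm_num) h8) h9
    _ = (2 ^ 14 * 3 ^ 23 + A * 3 ^ 23) * (Real.log N) ^ 23 := by rw [mul_pow]; ring

end Fac88
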