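import Pool.Agent.W_198aa6_h88.PDat

set_option autoImplicit false

namespace Fac88

/-- PROOF. Among the `(i,j)` with `c i j ≠ 0` (all in the triangle `i + j ≤ D`) take one with `a^i b^j` maximal.
For every other `(i',j')` with `c i' j' ≠ 0`: `G a^i' b^j' < a^i b^j` (`Sep`; the other alternative
contradicts maximality, `1 ≤ G`), so the other terms sum to less than
`(D+1)^2 H a^i b^j / G ≤ a^i b^j ≤ |c i j| a^i b^j` (strictly less: there are at most `(D+1)^2` terms, each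
`< a^i b^j H / G`; or handle the case of a single term separately; `0 < a^i b^j` by `ha hb`). -/
theorem poly_ne {D H G a b : ℕ} (ha : 1 ≤ a) (hb : 1 ≤ b) (c : ℕ → ℕ → ℤ) (h0 : ∃ i j, c i j ≠ 0)
    (hc : ∀ i j, D < i + j → c i j = 0) (hH : ∀ i j, |c i j| ≤ (H : ℤ)) (hG : (D + 1) ^ 2 * H ≤ G)
    (hsep : Sep D G a b) :
    ∑ i ∈ Finset.range (D + 1), ∑ j ∈ Finset.range (D + 1), c i j * ((a : ℤ) ^ i * (b : ℤ) ^ j) ≠ 0 := by
  rw [← Finset.sum_product' (Finset.range (D + 1)) (Finset.range (D + 1))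
    (fun i j => c i j * ((a : ℤ) ^ i * (b : ℤ) ^ j))]
  set S := Finset.range (D + 1) ×ˢ Finset.range (D + 1) with hS
  obtain ⟨i0, j0, h00⟩ := h0
  have hmem : ∀ i j, c i j ≠ 0 → (i, j) ∈ S := by
    intro i j hij
    have : i + j ≤ D := by
      by_contra hlt
      exact hij (hc i j (by omega))
    rw [hS, Finset.mem_product]
    simp only [Finset.mem_range]
    omega
  have hne : (S.filter fun p => c p.1 p.2 ≠ 0).Nonempty :=
    ⟨(i0, j0), Finset.mem_filter.2 ⟨hmem i0 j0 h00, h00⟩⟩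
  obtain ⟨p0, hp0, hmax⟩ := Finset.exists_max_image _ (fun p : ℕ × ℕ => a ^ p.1 * b ^ p.2) hne
  rw [Finset.mem_filter] at hp0
  obtain ⟨hp0S, hp0c⟩ := hp0
  have hm0 : 1 ≤ a ^ p0.1 * b ^ p0.2 :=
    Nat.one_le_iff_ne_zero.2 (Nat.mul_ne_zero (pow_ne_zero _ (by omega)) (pow_ne_zero _ (by omega)))
  have hc1 : 1 ≤ |c p0.1 p0.2| := Int.one_le_abs hp0c
  have hH1 : 1 ≤ H := by
    have := hc1.trans (hH p0.1 p0.2)
    exact_mod_cast this
  have hG1 : 1 ≤ G := le_trans (Nat.one_le_iff_ne_zero.2 (Nat.mul_ne_zero (by positivity) (by omega))) hG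
  have hdeg : ∀ p : ℕ × ℕ, c p.1 p.2 ≠ 0 → p.1 + p.2 ≤ D := by
    intro p hp
    by_contra hlt
    exact hp (hc _ _ (by omega))
  -- the other terms
  have hoth : ∀ p ∈ S.erase p0, ((D + 1) ^ 2 : ℤ) * |c p.1 p.2 * ((a : ℤ) ^ p.1 * (b : ℤ) ^ p.2)| ≤
      (a : ℤ) ^ p0.1 * (b : ℤ) ^ p0.2 := by
    intro p hp
    obtain ⟨hpne, hpS⟩ := Finset.mem_erase.1 hp
    by_cases hcp : c p.1 p.2 = 0
    · rw [hcp, zero_mul, abs_zero, mul_zero]
      positivity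
    · have hle := hmax p (Finset.mem_filter.2 ⟨hpS, hcp⟩)
      have hsm : G * (a ^ p.1 * b ^ p.2) < a ^ p0.1 * b ^ p0.2 := by
        rcases hsep p.1 p.2 p0.1 p0.2 (hdeg p hcp) (hdeg p0 hp0c) hpne with h | h
        · exact h
        · exfalso
          have : a ^ p0.1 * b ^ p0.2 ≤ G * (a ^ p0.1 * b ^ p0.2) := Nat.le_mul_of_pos_left _ hG1
          exact absurd (this.trans_lt h) (not_lt.2 hle)
      have h1 : (D + 1) ^ 2 * H * (a ^ p.1 * b ^ p.2) ≤ a ^ p0.1 * b ^ p0.2 :=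
        (Nat.mul_le_mul_right _ hG).trans hsm.le
      have h1' : ((D + 1) ^ 2 : ℤ) * H * ((a : ℤ) ^ p.1 * (b : ℤ) ^ p.2) ≤
          (a : ℤ) ^ p0.1 * (b : ℤ) ^ p0.2 := by exact_mod_cast h1
      rw [abs_mul, abs_of_nonneg (by positivity : (0 : ℤ) ≤ (a : ℤ) ^ p.1 * (b : ℤ) ^ p.2)]
      refine le_trans ?_ h1'
      rw [mul_assoc]
      refine mul_le_mul_of_nonneg_left ?_ (by positivity)
      exact mul_le_mul_of_nonneg_right (hH _ _) (by positivity)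
  intro hzero
  rw [← Finset.add_sum_erase S _ hp0S] at hzero
  have h2 : c p0.1 p0.2 * ((a : ℤ) ^ p0.1 * (b : ℤ) ^ p0.2) =
      -∑ p ∈ S.erase p0, c p.1 p.2 * ((a : ℤ) ^ p.1 * (b : ℤ) ^ p.2) := by linarith
  have hm0' : (1 : ℤ) ≤ (a : ℤ) ^ p0.1 * (b : ℤ) ^ p0.2 := by exact_mod_cast hm0
  have h3 : (a : ℤ) ^ p0.1 * (b : ℤ) ^ p0.2 ≤
      ∑ p ∈ S.erase p0, |c p.1 p.2 * ((a : ℤ) ^ p.1 * (b : ℤ) ^ p.2)| := by
    calc (a : ℤ) ^ p0.1 * (b : ℤ) ^ p0.2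
        = 1 * ((a : ℤ) ^ p0.1 * (b : ℤ) ^ p0.2) := by ring
      _ ≤ |c p0.1 p0.2| * ((a : ℤ) ^ p0.1 * (b : ℤ) ^ p0.2) :=
          mul_le_mul_of_nonneg_right hc1 (by positivity)
      _ = |c p0.1 p0.2 * ((a : ℤ) ^ p0.1 * (b : ℤ) ^ p0.2)| := by
          rw [abs_mul, abs_of_nonneg (by positivity : (0 : ℤ) ≤ (a : ℤ) ^ p0.1 * (b : ℤ) ^ p0.2)]
      _ = |∑ p ∈ S.erase p0, c p.1 p.2 * ((a : ℤ) ^ p.1 * (b : ℤ) ^ p.2)| := by
          rw [h2, abs_neg]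
      _ ≤ _ := Finset.abs_sum_le_sum_abs _ _
  have hcard : (S.erase p0).card = (D + 1) ^ 2 - 1 := by
    rw [Finset.card_erase_of_mem hp0S, hS, Finset.card_product, Finset.card_range, sq]
  have h4 : ((D + 1) ^ 2 : ℤ) * ∑ p ∈ S.erase p0, |c p.1 p.2 * ((a : ℤ) ^ p.1 * (b : ℤ) ^ p.2)| ≤
      (((D + 1) ^ 2 - 1 : ℕ) : ℤ) * ((a : ℤ) ^ p0.1 * (b : ℤ) ^ p0.2) := by
    rw [Finset.mul_sum]
    refine (Finset.sum_le_sum hoth).trans ?_
    rw [Finset.sum_const, hcard, nsmul_eq_mul]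
  have h5 : (((D + 1) ^ 2 - 1 : ℕ) : ℤ) = (D + 1 : ℤ) ^ 2 - 1 := by
    rw [Nat.cast_sub (Nat.one_le_iff_ne_zero.2 (by positivity))]
    push_cast
    ring
  rw [h5] at h4
  have h6 : ((D + 1) ^ 2 : ℤ) * ((a : ℤ) ^ p0.1 * (b : ℤ) ^ p0.2) ≤
      ((D + 1) ^ 2 : ℤ) * ∑ p ∈ S.erase p0, |c p.1 p.2 * ((a : ℤ) ^ p.1 * (b : ℤ) ^ p.2)| :=
    mul_le_mul_of_nonneg_left h3 (by positivity)
  nlinarith

/-- trivial size bound: every monomial is at most `max a b ^ D` -/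
theorem poly_le {D H a b : ℕ} (ha : 1 ≤ a) (hb : 1 ≤ b) (c : ℕ → ℕ → ℤ)
    (hc : ∀ i j, D < i + j → c i j = 0) (hH : ∀ i j, |c i j| ≤ (H : ℤ)) :
    |∑ i ∈ Finset.range (D + 1), ∑ j ∈ Finset.range (D + 1), c i j * ((a : ℤ) ^ i * (b : ℤ) ^ j)| ≤
      (((D + 1) ^ 2 * H * (max a b) ^ D : ℕ) : ℤ) := by
  have hM : 1 ≤ max a b := le_trans ha (le_max_left _ _)
  have hterm : ∀ i j, |c i j * ((a : ℤ) ^ i * (b : ℤ) ^ j)| ≤ ((H * (max a b) ^ D : ℕ) : ℤ) := by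
    intro i j
    by_cases hij : D < i + j
    · rw [hc i j hij, zero_mul, abs_zero]
      positivity
    · rw [abs_mul, abs_of_nonneg (by positivity : (0 : ℤ) ≤ (a : ℤ) ^ i * (b : ℤ) ^ j)]
      have h1 : a ^ i * b ^ j ≤ (max a b) ^ D := by
        calc a ^ i * b ^ j ≤ (max a b) ^ i * (max a b) ^ j :=
              Nat.mul_le_mul (Nat.pow_le_pow_left (le_max_left _ _) _)
                (Nat.pow_le_pow_left (le_max_right _ _) _)
          _ = (max a b) ^ (i + j) := (pow_add _ _ _).symm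
          _ ≤ (max a b) ^ D := Nat.pow_le_pow_right hM (by omega)
      have h2 : ((a : ℤ) ^ i * (b : ℤ) ^ j) ≤ (((max a b) ^ D : ℕ) : ℤ) := by exact_mod_cast h1
      rw [Nat.cast_mul]
      exact mul_le_mul (hH i j) h2 (by positivity) (by positivity)
  calc |∑ i ∈ Finset.range (D + 1), ∑ j ∈ Finset.range (D + 1), c i j * ((a : ℤ) ^ i * (b : ℤ) ^ j)|
      ≤ ∑ i ∈ Finset.range (D + 1), |∑ j ∈ Finset.range (D + 1), c i j * ((a : ℤ) ^ i * (b : ℤ) ^ j)| :=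
        Finset.abs_sum_le_sum_abs _ _
    _ ≤ ∑ i ∈ Finset.range (D + 1), ∑ j ∈ Finset.range (D + 1),
          |c i j * ((a : ℤ) ^ i * (b : ℤ) ^ j)| :=
        Finset.sum_le_sum fun i _ => Finset.abs_sum_le_sum_abs _ _
    _ ≤ ∑ _i ∈ Finset.range (D + 1), ∑ _j ∈ Finset.range (D + 1), ((H * (max a b) ^ D : ℕ) : ℤ) :=
        Finset.sum_le_sum fun i _ => Finset.sum_le_sum fun j _ => hterm i j
    _ = (((D + 1) ^ 2 * H * (max a b) ^ D : ℕ) : ℤ) := by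
        rw [Finset.sum_const, Finset.sum_const, Finset.card_range]
        simp only [nsmul_eq_mul]
        push_cast
        ring

end Fac88
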