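import Pool.Agent.W_198aa6_h88.PSieg
import Pool.Agent.W_198aa6_h88.PDvd
import Pool.Agent.W_198aa6_h88.PNe
import Pool.Agent.W_156d3b_h46.Pair
import Pool.Agent.W_156d3b_h46.WinP

set_option autoImplicit false

namespace Fac88

open Nat

/-- PROOF. `aux_poly` with `B = q` and `μ r s = if r = s then μ1 else μ2` (the sum in `hμ` is
`t μ1 (μ1+1) + (t^2 - t) μ2 (μ2+1)`). Put `N = (M M')^D F(a,a')`, `F(a,a') ≠ 0` (`poly_ne`). For
`p ∈ primesTo K`, `v = (K!).factorization p`: `p^v ∣ K! ∣ n!, n'!`, so `poly_dvd` with `e = v`, `d = d (i p)`,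
`d' = d' (i' p)` gives `p^(v μ(p)) ∣ N`. The prime powers are coprime, so their product divides `N`
(`Finset.prod_coprime_dvd`-type lemma as in `Sur46.pair_le`) and is `≤ |N|`. Take logarithms:
`log |N| ≤ D log (M M') + log ((D+1)^2 Hb) + D log (max a a')` (`poly_le`),
`log M, log M' ≤ t^2 log q` (`M_le`), `t log a ≤ log n! ≤ log q!` (`lo`), same for `a'`. -/
theorem pair_ineq {K n n' q t D μ1 μ2 : ℕ} (ht : 1 ≤ t) (hKn : K ≤ n) (hKn' : K ≤ n')
    (hn : n ≤ q) (hn' : n' ≤ q) (hq : 1 ≤ q) (x : Dat n t) (x' : Dat n' t)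
    (hcount : t * (μ1 * (μ1 + 1)) + (t ^ 2 - t) * (μ2 * (μ2 + 1)) < (D + 1) * (D + 2))
    (hsep : Sep D ((D + 1) ^ 2 * Hb D q) x.a x'.a) :
    ∑ p ∈ Sur46.primesTo K, ((if x.i p = x'.i p then μ1 else μ2 : ℕ) : ℝ) * Sur46.wt K p ≤
      D * (Real.log (q ! : ℕ) / t) + 2 * D * (t : ℝ) ^ 2 * Real.log q +
        Real.log (((D + 1) ^ 2 * Hb D q : ℕ) : ℝ) := by
  set μ : Fin t → Fin t → ℕ := fun r s => if r = s then μ1 else μ2 with hμdef
  have hμsum : ∑ r, ∑ s, μ r s * (μ r s + 1) < (D + 1) * (D + 2) := by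
    refine lt_of_eq_of_lt ?_ hcount
    have h1 : ∀ r : Fin t, ∑ s, μ r s * (μ r s + 1) = μ1 * (μ1 + 1) + (t - 1) * (μ2 * (μ2 + 1)) := by
      intro r
      rw [← Finset.add_sum_erase Finset.univ _ (Finset.mem_univ r)]
      congr 1
      · simp [hμdef]
      · have h2 : ∀ s ∈ Finset.univ.erase r, μ r s * (μ r s + 1) = μ2 * (μ2 + 1) := by
          intro s hs
          have hs' : r ≠ s := (Finset.ne_of_mem_erase hs).symm
          simp [hμdef, hs']
        rw [Finset.sum_congr rfl h2, Finset.sum_const, Finset.card_erase_of_mem (Finset.mem_univ r),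
          Finset.card_univ, Fintype.card_fin, smul_eq_mul]
    rw [Finset.sum_congr rfl (fun r _ => h1 r), Finset.sum_const, Finset.card_univ, Fintype.card_fin,
      smul_eq_mul, mul_add]
    congr 1
    rw [← mul_assoc]
    congr 1
    rw [Nat.mul_sub, mul_one, sq]
  obtain ⟨c, hc0, hcD, hcH, hcv⟩ := aux_poly hq μ x.d x'.d (fun r => (x.d_le r).trans hn)
    (fun s => (x'.d_le s).trans hn') hμsum
  set F : ℤ := ∑ i ∈ Finset.range (D + 1), ∑ j ∈ Finset.range (D + 1),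
    c i j * ((x.a : ℤ) ^ i * (x'.a : ℤ) ^ j) with hF
  have hFne : F ≠ 0 := poly_ne x.a_pos x'.a_pos c hc0 hcD hcH le_rfl hsep
  have hFle := poly_le x.a_pos x'.a_pos c hcD hcH
  rw [← hF] at hFle
  have hMM : 0 < x.M * x'.M := Nat.mul_pos x.M_pos x'.M_pos
  set v := (K !).factorization with hv
  have hPr : ∀ p ∈ Sur46.primesTo K, p.Prime := by
    intro p hp
    rw [Sur46.primesTo, Finset.mem_filter] at hp
    exact hp.2
  -- divisibility
  have hdvd1 : ∀ p ∈ Sur46.primesTo K,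
      p ^ (v p * μ (x.i p) (x'.i p)) ∣ ((x.M * x'.M) ^ D * F.natAbs) := by
    intro p hp
    have hpp := hPr p hp
    have h0 : p ^ v p ∣ K ! := Nat.ordProj_dvd _ _
    have h1 : p ^ v p ∣ (x.a + x.d (x.i p)) * x.M :=
      x.dvd p hpp _ (h0.trans (Nat.factorial_dvd_factorial hKn))
    have h2 : p ^ v p ∣ (x'.a + x'.d (x'.i p)) * x'.M :=
      x'.dvd p hpp _ (h0.trans (Nat.factorial_dvd_factorial hKn'))
    have h3 := poly_dvd (D := D) c hcD (μ := μ (x.i p) (x'.i p)) (p := p) (e := v p)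
      (fun u w huw => hcv (x.i p) (x'.i p) u w huw) h1 h2
    rw [← hF] at h3
    have h4 := Int.natAbs_dvd_natAbs.2 h3
    rwa [Int.natAbs_natCast, Int.natAbs_mul, Int.natAbs_pow, Int.natAbs_natCast] at h4
  have hdvd : ∏ p ∈ Sur46.primesTo K, p ^ (v p * μ (x.i p) (x'.i p)) ∣
      ((x.M * x'.M) ^ D * F.natAbs) := by
    refine Finset.prod_dvd_of_isRelPrime ?_ hdvd1
    intro p hp r hr hpr
    change IsRelPrime (p ^ _) (r ^ _)
    rw [← Nat.coprime_iff_isRelPrime]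
    exact Nat.Coprime.pow _ _ ((Nat.coprime_primes (hPr p hp) (hPr r hr)).2 hpr)
  have hNpos : 0 < (x.M * x'.M) ^ D * F.natAbs :=
    Nat.mul_pos (Nat.pow_pos hMM) (Int.natAbs_pos.2 hFne)
  have hle1 := Nat.le_of_dvd hNpos hdvd
  have hFabs : F.natAbs ≤ (D + 1) ^ 2 * Hb D q * (max x.a x'.a) ^ D := by
    have h1 : ((F.natAbs : ℕ) : ℤ) ≤ (((D + 1) ^ 2 * Hb D q * (max x.a x'.a) ^ D : ℕ) : ℤ) := by
      rw [Int.natCast_natAbs]
      exact hFle
    exact_mod_cast h1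
  have hle2 : ∏ p ∈ Sur46.primesTo K, p ^ (v p * μ (x.i p) (x'.i p)) ≤
      (x.M * x'.M) ^ D * ((D + 1) ^ 2 * Hb D q * (max x.a x'.a) ^ D) :=
    hle1.trans (Nat.mul_le_mul_left _ hFabs)
  have hsum : ∑ p ∈ Sur46.primesTo K, ((if x.i p = x'.i p then μ1 else μ2 : ℕ) : ℝ) * Sur46.wt K p =
      Real.log ((∏ p ∈ Sur46.primesTo K, p ^ (v p * μ (x.i p) (x'.i p)) : ℕ) : ℝ) := by
    rw [Nat.cast_prod, Real.log_prod]
    · refine Finset.sum_congr rfl fun p _ => ?_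
      rw [Sur46.wt, Nat.cast_pow, Real.log_pow, Nat.cast_mul]
      simp only [hμdef, hv]
      ring
    · intro p hp
      have := (hPr p hp).pos
      positivity
  have hprodpos : (0 : ℝ) < ((∏ p ∈ Sur46.primesTo K, p ^ (v p * μ (x.i p) (x'.i p)) : ℕ) : ℝ) := by
    have : 0 < ∏ p ∈ Sur46.primesTo K, p ^ (v p * μ (x.i p) (x'.i p)) :=
      Finset.prod_pos fun p hp => Nat.pow_pos (hPr p hp).pos
    exact_mod_cast this
  have hM1 : (0 : ℝ) < x.M := by exact_mod_cast x.M_pos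
  have hM2 : (0 : ℝ) < x'.M := by exact_mod_cast x'.M_pos
  have ha1 : (0 : ℝ) < x.a := by exact_mod_cast x.a_pos
  have ha2 : (0 : ℝ) < x'.a := by exact_mod_cast x'.a_pos
  have hmx : 0 < max x.a x'.a := lt_of_lt_of_le x.a_pos (le_max_left _ _)
  have hmx' : (0 : ℝ) < ((max x.a x'.a : ℕ) : ℝ) := by exact_mod_cast hmx
  have hHb : 0 < (D + 1) ^ 2 * Hb D q := by
    unfold Hb
    positivity
  have hHb' : (0 : ℝ) < (((D + 1) ^ 2 * Hb D q : ℕ) : ℝ) := by exact_mod_cast hHb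
  have htR : (0 : ℝ) < t := by exact_mod_cast ht
  have hqR : (0 : ℝ) < q := by exact_mod_cast hq
  -- logarithms
  have hlogM : ∀ {n₁ : ℕ} (M₁ : ℕ), 1 ≤ M₁ → M₁ ≤ n₁ ^ (t ^ 2) → n₁ ≤ q →
      Real.log M₁ ≤ (t : ℝ) ^ 2 * Real.log q := by
    intro n₁ M₁ h1 h2 h3
    have h4 : M₁ ≤ q ^ (t ^ 2) := h2.trans (Nat.pow_le_pow_left h3 _)
    have h5 : Real.log M₁ ≤ Real.log ((q : ℝ) ^ (t ^ 2)) := by
      apply Real.log_le_log (by exact_mod_cast h1)
      exact_mod_cast h4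
    rw [Real.log_pow] at h5
    push_cast at h5
    exact h5
  have hloga : ∀ {n₁ : ℕ} (a₁ : ℕ), 1 ≤ a₁ → a₁ ^ t ≤ n₁ ! → n₁ ≤ q →
      Real.log a₁ ≤ Real.log (q ! : ℕ) / t := by
    intro n₁ a₁ h1 h2 h3
    have h4 : a₁ ^ t ≤ q ! := h2.trans (Nat.factorial_le h3)
    have h5 : Real.log ((a₁ : ℝ) ^ t) ≤ Real.log (q ! : ℕ) := by
      apply Real.log_le_log
      · have : (0 : ℝ) < a₁ := by exact_mod_cast h1
        positivity
      · exact_mod_cast h4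
    rw [Real.log_pow] at h5
    rw [le_div_iff₀ htR]
    linarith
  have hLM := hlogM x.M x.M_pos x.M_le hn
  have hLM' := hlogM x'.M x'.M_pos x'.M_le hn'
  have hla : Real.log ((max x.a x'.a : ℕ) : ℝ) ≤ Real.log (q ! : ℕ) / t := by
    rcases le_total x.a x'.a with h | h
    · rw [max_eq_right h]
      exact hloga x'.a x'.a_pos x'.lo hn'
    · rw [max_eq_left h]
      exact hloga x.a x.a_pos x.lo hn
  rw [hsum]
  have hlog := Real.log_le_log hprodpos (show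
      ((∏ p ∈ Sur46.primesTo K, p ^ (v p * μ (x.i p) (x'.i p)) : ℕ) : ℝ) ≤
      ((x.M : ℝ) * x'.M) ^ D * ((((D + 1) ^ 2 * Hb D q : ℕ) : ℝ) * ((max x.a x'.a : ℕ) : ℝ) ^ D) by
        exact_mod_cast hle2)
  rw [Real.log_mul (by positivity) (by positivity), Real.log_pow, Real.log_mul hM1.ne' hM2.ne',
    Real.log_mul hHb'.ne' (by positivity), Real.log_pow] at hlog
  have hD0 : (0 : ℝ) ≤ D := Nat.cast_nonneg D
  have h1 : (D : ℝ) * (Real.log x.M + Real.log x'.M) ≤ D * (2 * ((t : ℝ) ^ 2 * Real.log q)) :=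
    mul_le_mul_of_nonneg_left (by linarith) hD0
  have h2 : (D : ℝ) * Real.log ((max x.a x'.a : ℕ) : ℝ) ≤ D * (Real.log (q ! : ℕ) / t) :=
    mul_le_mul_of_nonneg_left hla hD0
  have h3 : (D : ℝ) * (2 * ((t : ℝ) ^ 2 * Real.log q)) = 2 * D * (t : ℝ) ^ 2 * Real.log q := by ring
  linarith

end Fac88
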