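import Pool.Agent.W_198aa6_h88.PDat

set_option autoImplicit false

namespace Fac88

/-- Siegel's lemma with a crude integral bound -/
theorem PSieg_siegel {α β : Type} [Fintype α] [Fintype β] (A : Matrix α β ℤ) (M : ℕ)
    (hM : 1 ≤ M) (hA : ∀ a b, |A a b| ≤ (M : ℤ)) (hn : Fintype.card α < Fintype.card β) :
    ∃ x : β → ℤ, x ≠ 0 ∧ (∀ a, ∑ b, A a b * x b = 0) ∧
      ∀ b, |x b| ≤ (((Fintype.card β * M) ^ Fintype.card α : ℕ) : ℤ) := by
  classical
  let _ : SeminormedAddCommGroup (Matrix α β ℤ) := Matrix.seminormedAddCommGroup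
  have hβ : 0 < Fintype.card β := lt_of_le_of_lt (Nat.zero_le _) hn
  rcases Nat.eq_zero_or_pos (Fintype.card α) with h0 | hpos
  · have hem : IsEmpty α := Fintype.card_eq_zero_iff.1 h0
    obtain ⟨b⟩ := Fintype.card_pos_iff.1 hβ
    refine ⟨fun _ => 1, fun h => one_ne_zero (congrFun h b), fun a => (hem.false a).elim,
      fun b => ?_⟩
    rw [h0, pow_zero]
    norm_num
  · obtain ⟨t, ht0, htA, ht⟩ := Int.Matrix.exists_ne_zero_int_vec_norm_le A hn hpos
    refine ⟨t, ht0, fun a => congrFun htA a, fun b => ?_⟩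
    have hnA : ‖A‖ ≤ (M : ℝ) := by
      rw [Matrix.norm_le_iff (by positivity)]
      intro a b
      rw [Int.norm_eq_abs]
      exact_mod_cast hA a b
    have hM' : (1 : ℝ) ≤ M := by exact_mod_cast hM
    have hmax : max 1 ‖A‖ ≤ (M : ℝ) := max_le hM' hnA
    have hβ' : (1 : ℝ) ≤ Fintype.card β := by exact_mod_cast hβ
    have hmn : (1 : ℝ) ≤ (Fintype.card β : ℝ) - Fintype.card α := by
      have : (Fintype.card α : ℝ) + 1 ≤ Fintype.card β := by exact_mod_cast hn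
      linarith
    have he : (Fintype.card α : ℝ) / ((Fintype.card β : ℝ) - Fintype.card α) ≤
        Fintype.card α := div_le_self (by positivity) hmn
    have he0 : (0 : ℝ) ≤ (Fintype.card α : ℝ) / ((Fintype.card β : ℝ) - Fintype.card α) :=
      div_nonneg (by positivity) (by linarith)
    have h1 : ((Fintype.card β : ℝ) * max 1 ‖A‖) ^
        ((Fintype.card α : ℝ) / ((Fintype.card β : ℝ) - Fintype.card α)) ≤
        ((Fintype.card β : ℝ) * M) ^ Fintype.card α := by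
      rw [← Real.rpow_natCast]
      refine (Real.rpow_le_rpow (by positivity)
        (mul_le_mul_of_nonneg_left hmax (by positivity)) he0).trans ?_
      refine Real.rpow_le_rpow_of_exponent_le ?_ he
      nlinarith
    have h2 : ‖t b‖ ≤ ‖t‖ := norm_le_pi_norm t b
    rw [Int.norm_eq_abs] at h2
    have h3 := h2.trans (ht.trans h1)
    exact_mod_cast h3

theorem PSieg_tri (n : ℕ) : 2 * ∑ k ∈ Finset.range n, (k + 1) = n * (n + 1) := by
  induction n with
  | zero => rfl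
  | succ n ih =>
    rw [Finset.sum_range_succ, mul_add, ih]
    ring

theorem PSieg_card (n : ℕ) : 2 * Fintype.card (Σ k : Fin n, Fin (k.1 + 1)) = n * (n + 1) := by
  rw [Fintype.card_sigma]
  simp only [Fintype.card_fin]
  rw [Fin.sum_univ_eq_sum_range (fun k => k + 1) n]
  exact PSieg_tri n

theorem PSieg_sum (D : ℕ) (g : ℕ → ℕ → ℤ) (hg : ∀ i j, D < i + j → g i j = 0) :
    ∑ i ∈ Finset.range (D + 1), ∑ j ∈ Finset.range (D + 1), g i j =
      ∑ p : (Σ k : Fin (D + 1), Fin (k.1 + 1)), g p.2.1 (p.1.1 - p.2.1) := by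
  rw [Fintype.sum_sigma]
  have h1 : ∀ k : Fin (D + 1), ∑ b : Fin (k.1 + 1), g b.1 (k.1 - b.1) =
      ∑ b ∈ Finset.range (k.1 + 1), g b (k.1 - b) := fun k =>
    Fin.sum_univ_eq_sum_range (fun b => g b (k.1 - b)) (k.1 + 1)
  have h2 : ∑ k : Fin (D + 1), ∑ b : Fin (k.1 + 1), g b.1 (k.1 - b.1) =
      ∑ k ∈ Finset.range (D + 1), ∑ b ∈ Finset.range (k + 1), g b (k - b) := by
    rw [← Fin.sum_univ_eq_sum_range (fun k => ∑ b ∈ Finset.range (k + 1), g b (k - b)) (D + 1)]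
    exact Finset.sum_congr rfl fun k _ => h1 k
  rw [h2, Finset.sum_range_diag_flip]
  refine Finset.sum_congr rfl fun i hi => ?_
  have hi' := Finset.mem_range.1 hi
  symm
  refine Finset.sum_subset ?_ ?_
  · intro j hj
    rw [Finset.mem_range] at hj ⊢
    omega
  · intro j hj hj'
    rw [Finset.mem_range] at hj hj'
    exact hg i j (by omega)

/-- the auxiliary polynomial `∑ c i j x^i y^j` of degree `≤ D`, vanishing to order `μ r s` at `(-d r, -d' s)`.
PROOF. Siegel's lemma of Mathlib (`Int.Matrix.exists_ne_zero_int_vec_norm_le`, Mathlib.NumberTheory.SiegelsLemma)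
with unknowns indexed by `{(i,j) : i + j ≤ D}` (there are `(D+1)(D+2)/2 ≤ (D+1)^2`) and equations indexed by
`(r, s, u, v)`, `u + v < μ r s` (`∑ μ (μ+1) / 2` of them). The entries are
`C(i,u) C(j,v) (-d r)^(i-u) (-d' s)^(j-v)`, of absolute value `≤ 2^i 2^j B^(i+j) ≤ (2B)^D`. The exponent
`m / (n - m)` is `≤ m ≤ (D+1)^2`. If there is no equation take `c 0 0 = 1`. Outside the triangle put `c i j = 0`. -/
theorem aux_poly {t D B : ℕ} (hB : 1 ≤ B) (μ : Fin t → Fin t → ℕ) (d d' : Fin t → ℕ)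
    (hd : ∀ r, d r ≤ B) (hd' : ∀ s, d' s ≤ B)
    (hμ : ∑ r, ∑ s, μ r s * (μ r s + 1) < (D + 1) * (D + 2)) :
    ∃ c : ℕ → ℕ → ℤ, (∃ i j, c i j ≠ 0) ∧ (∀ i j, D < i + j → c i j = 0) ∧
      (∀ i j, |c i j| ≤ ((Hb D B : ℕ) : ℤ)) ∧
      ∀ r s u v, u + v < μ r s →
        ∑ i ∈ Finset.range (D + 1), ∑ j ∈ Finset.range (D + 1),
          c i j * ((i.choose u : ℤ) * (-(d r : ℤ)) ^ (i - u)) *
            ((j.choose v : ℤ) * (-(d' s : ℤ)) ^ (j - v)) = 0 := by
  classical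
  set β := Σ k : Fin (D + 1), Fin (k.1 + 1) with hβ
  set α := Σ rs : Fin t × Fin t, Σ k : Fin (μ rs.1 rs.2), Fin (k.1 + 1) with hα
  have hcβ : 2 * Fintype.card β = (D + 1) * (D + 2) := PSieg_card (D + 1)
  have hcα : 2 * Fintype.card α = ∑ r, ∑ s, μ r s * (μ r s + 1) := by
    have h0 : Fintype.card α = ∑ rs : Fin t × Fin t,
        Fintype.card (Σ k : Fin (μ rs.1 rs.2), Fin (k.1 + 1)) := Fintype.card_sigma
    rw [h0, Finset.mul_sum, Fintype.sum_prod_type]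
    refine Finset.sum_congr rfl fun r _ => Finset.sum_congr rfl fun s _ => ?_
    exact PSieg_card (μ r s)
  have hcard : Fintype.card α < Fintype.card β := by omega
  have hBz : (1 : ℤ) ≤ B := by exact_mod_cast hB
  let A : Matrix α β ℤ := fun e p =>
    ((p.2.1.choose e.2.2.1 : ℤ) * (-(d e.1.1 : ℤ)) ^ (p.2.1 - e.2.2.1)) *
      (((p.1.1 - p.2.1).choose (e.2.1.1 - e.2.2.1) : ℤ) *
        (-(d' e.1.2 : ℤ)) ^ (p.1.1 - p.2.1 - (e.2.1.1 - e.2.2.1)))
  have hA : ∀ e p, |A e p| ≤ (((2 * B) ^ D : ℕ) : ℤ) := by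
    intro e p
    have hp1 : p.1.1 ≤ D := Nat.lt_succ_iff.1 p.1.2
    have hp2 : p.2.1 ≤ p.1.1 := Nat.lt_succ_iff.1 p.2.2
    have key : ∀ i u x : ℕ, x ≤ B → |(i.choose u : ℤ) * (-(x : ℤ)) ^ (i - u)| ≤ ((2 * B) ^ i : ℕ) := by
      intro i u x hx
      rw [abs_mul, abs_pow, abs_neg, Nat.abs_cast, Nat.abs_cast]
      have h1 : i.choose u ≤ 2 ^ i := Nat.choose_le_two_pow i u
      have h2 : x ^ (i - u) ≤ B ^ i :=
        (Nat.pow_le_pow_left hx _).trans (Nat.pow_le_pow_right hB (Nat.sub_le _ _))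
      have h3 := Nat.mul_le_mul h1 h2
      rw [← mul_pow] at h3
      exact_mod_cast h3
    show |_ * _| ≤ _
    rw [abs_mul]
    refine (mul_le_mul (key _ _ _ (hd _)) (key _ _ _ (hd' _)) (abs_nonneg _) (by positivity)).trans ?_
    rw [← Nat.cast_mul, ← pow_add]
    have h4 : p.2.1 + (p.1.1 - p.2.1) = p.1.1 := by omega
    rw [h4]
    have h5 : (2 * B) ^ p.1.1 ≤ (2 * B) ^ D := Nat.pow_le_pow_right (by omega) hp1
    exact_mod_cast h5
  obtain ⟨x, hx0, hxA, hxb⟩ := PSieg_siegel A ((2 * B) ^ D) (Nat.one_le_pow _ _ (by omega)) hA hcard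
  have hH : (Fintype.card β * (2 * B) ^ D) ^ Fintype.card α ≤ Hb D B := by
    unfold Hb
    have h1 : Fintype.card β ≤ (D + 1) ^ 2 := by nlinarith
    have h2 : Fintype.card α ≤ (D + 1) ^ 2 := hcard.le.trans h1
    have h3 : 1 ≤ (2 * B) ^ D := Nat.one_le_pow _ _ (by omega)
    refine (Nat.pow_le_pow_left (Nat.mul_le_mul_right _ h1) _).trans
      (Nat.pow_le_pow_right ?_ h2)
    have h4 : 1 ≤ (D + 1) ^ 2 := Nat.one_le_pow _ _ (by omega)
    calc 0 < 1 * 1 := by norm_num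
      _ ≤ (D + 1) ^ 2 * (2 * B) ^ D := Nat.mul_le_mul h4 h3
  let c : ℕ → ℕ → ℤ := fun i j =>
    if h : i + j < D + 1 then x ⟨⟨i + j, h⟩, ⟨i, by show i < i + j + 1; omega⟩⟩ else 0
  have hc0 : ∀ i j, D < i + j → c i j = 0 := by
    intro i j h
    exact dif_neg (by omega)
  have hcx : ∀ p : β, c p.2.1 (p.1.1 - p.2.1) = x p := by
    rintro ⟨⟨k, hk⟩, ⟨b, hb⟩⟩
    have hb' : b ≤ k := Nat.lt_succ_iff.1 hb
    have e : b + (k - b) = k := by omega
    show (if h : b + (k - b) < D + 1 then x ⟨⟨b + (k - b), h⟩, ⟨b, _⟩⟩ else 0) = _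
    rw [dif_pos (by omega)]
    have key : ∀ (k' : ℕ) (h1 : k' < D + 1) (h2 : b < k' + 1), k' = k →
        (⟨⟨k', h1⟩, ⟨b, h2⟩⟩ : β) = ⟨⟨k, hk⟩, ⟨b, hb⟩⟩ := by
      rintro k' h1 h2 rfl
      rfl
    exact congrArg x (key _ _ _ e)
  refine ⟨c, ?_, hc0, ?_, ?_⟩
  · by_contra h
    push Not at h
    apply hx0
    funext p
    rw [← hcx p]
    exact h _ _
  · intro i j
    by_cases h : i + j < D + 1
    · show |dite _ _ _| ≤ _
      rw [dif_pos h]
      exact (hxb _).trans (by exact_mod_cast hH)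
    · show |dite _ _ _| ≤ _
      rw [dif_neg h, abs_zero]
      positivity
  · intro r s u v huv
    rw [PSieg_sum D _ (fun i j h => by rw [hc0 i j h, zero_mul, zero_mul])]
    rw [← hxA ⟨(r, s), ⟨u + v, huv⟩, ⟨u, by show u < u + v + 1; omega⟩⟩]
    refine Finset.sum_congr rfl fun p _ => ?_
    rw [hcx p]
    show _ = ((p.2.1.choose u : ℤ) * (-(d r : ℤ)) ^ (p.2.1 - u)) *
      (((p.1.1 - p.2.1).choose (u + v - u) : ℤ) *
        (-(d' s : ℤ)) ^ (p.1.1 - p.2.1 - (u + v - u))) * x p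
    rw [Nat.add_sub_cancel_left]
    ring

end Fac88
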