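import Pool.Agent.W_198aa6_h88.PIdx
import Pool.Agent.W_198aa6_h88.PBound
import Pool.Agent.W_198aa6_h88.PBad
import Pool.Agent.W_198aa6_h88.PAvg

set_option autoImplicit false

namespace Fac88

open Nat

theorem PWin_two_pow (n : ℕ) : 2 ^ (n - 1) ≤ n ! := by
  induction n with
  | zero => simp
  | succ n ih =>
    rcases Nat.eq_zero_or_pos n with rfl | hn
    · simp
    · have h1 : n + 1 - 1 = (n - 1) + 1 := by omega
      rw [h1, pow_succ, Nat.factorial_succ]
      calc 2 ^ (n - 1) * 2 ≤ n ! * (n + 1) := Nat.mul_le_mul ih (by omega)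
        _ = (n + 1) * n ! := by ring

theorem PWin_EE (X t : ℕ) : LL X ≤ EE X t := by
  unfold EE
  have h1 : 1 ≤ (DT X t + 1) ^ 3 := Nat.one_le_pow _ _ (by omega)
  nlinarith

/-- `a` is large. PROOF. If `a ≤ 2^EE` or `a < n` then `a + n ≤ 2^(EE+1)` (as `2 n ≤ 8 X ≤ 2^EE`), so
`n! ≤ 2^((EE+1) t)`, but `n! ≥ 2^(n-1)` and `(EE+1) t < X - 1` for large `X` (`EE_le`, `poly_LL_le`). -/
theorem a_large : ∃ X0 : ℕ, ∀ X ≥ X0, ∀ n, X ≤ n → n ≤ 4 * X → ∀ t, 2 ≤ t → t ≤ LL X + 2 → ∀ a : ℕ,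
    n ! ≤ (a + n) ^ t → 2 ^ EE X t < a ∧ n ≤ a := by
  obtain ⟨X0, hX0⟩ := poly_LL_le (8 * 10 ^ 12) 11
  refine ⟨X0, ?_⟩
  intro X hX n hn hn4 t ht2 ht a ha
  have h1 := hX0 X hX
  have hE := EE_le X t ht
  have hLE := PWin_EE X t
  have hnE : n < 2 ^ EE X t :=
    lt_of_le_of_lt hn4 (lt_of_lt_of_le (lt_two_pow_LL X) (Nat.pow_le_pow_right (by norm_num) hLE))
  have hL := LL_pos X
  have key : (EE X t + 1) * t + 2 ≤ X := by
    obtain ⟨L, hLe⟩ : ∃ L, L = LL X := ⟨_, rfl⟩
    rw [← hLe] at h1 hE hL ht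
    have e1 : 1 ≤ L ^ 10 := Nat.one_le_pow _ _ hL
    have e2 : 1 ≤ L ^ 11 := Nat.one_le_pow _ _ hL
    have e3 : L ^ 11 = L ^ 10 * L := pow_succ L 10
    have e4 : EE X t + 1 ≤ 2 * 10 ^ 12 * L ^ 10 := by nlinarith
    have e5 : t ≤ 3 * L := by omega
    calc (EE X t + 1) * t + 2 ≤ (2 * 10 ^ 12 * L ^ 10) * (3 * L) + 2 :=
          Nat.add_le_add_right (Nat.mul_le_mul e4 e5) 2
      _ = 6 * 10 ^ 12 * L ^ 11 + 2 := by rw [e3]; ring
      _ ≤ 8 * 10 ^ 12 * L ^ 11 := by nlinarith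
      _ ≤ X := h1
  by_contra hcon
  have ha2 : a ≤ 2 ^ EE X t := by
    by_contra h3
    apply hcon
    push Not at h3
    refine ⟨h3, ?_⟩
    omega
  have h4 : a + n ≤ 2 ^ (EE X t + 1) := by
    rw [pow_succ]
    omega
  have h5 : 2 ^ (n - 1) ≤ 2 ^ ((EE X t + 1) * t) := by
    calc 2 ^ (n - 1) ≤ n ! := PWin_two_pow n
      _ ≤ (a + n) ^ t := ha
      _ ≤ (2 ^ (EE X t + 1)) ^ t := Nat.pow_le_pow_left h4 t
      _ = 2 ^ ((EE X t + 1) * t) := by rw [pow_mul]
  have h6 : n - 1 ≤ (EE X t + 1) * t := (Nat.pow_le_pow_iff_right (by norm_num)).1 h5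
  omega

/-- PROOF. Choose `x k : Dat k t` for `k ∈ S` (`dat_of_fac`). Split `S` into `t` classes according to the index
`(x k).i 2`; for a class `S'`, `N = |S'|`, apply `avg` with `P = primesTo K`, `δ = t`, `i p k = ((x k).i p : ℕ) + 1`,
`w = wt K`, `p0 = 2`, `B = T/t + wt K 2 / 4` (`pair_bound`), `bad k` = the `k' ∈ S'` with `¬ Sep ...`,
`Bd = BD X t` (`bad_card`, `a_large`). As `T = ∑ wt = log K! ≤ K L` and `wt K 2 ≥ K/2`, `1 - 1/t ≥ 1/2`:
`N^2 wt K 2 / 4 ≤ N Bd T`, so `N K / 8 ≤ Bd K L`, `N ≤ 8 Bd L`. -/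
theorem window_t : ∃ X0 : ℕ, ∀ X ≥ X0, ∀ K, X ≤ K → K ≤ 3 * X → ∀ t, 2 ≤ t → t ≤ LL X + 2 →
    ∀ S : Finset ℕ, S ⊆ Finset.Icc K (K + WW X) → (∀ k ∈ S, Eqt t k) →
    S.card ≤ t * (8 * BD X t * LL X) := by
  classical
  obtain ⟨X1, hX1⟩ := a_large
  obtain ⟨X2, hX2⟩ := pair_bound
  obtain ⟨X3, hX3⟩ := Sur46.wt_two
  refine ⟨max (max X1 X2) (max X3 2), ?_⟩
  intro X hX K hK hK3 t ht2 ht S hS hE
  have hXX1 : X1 ≤ X := by omega
  have hXX2 : X2 ≤ X := by omega
  have hXX3 : X3 ≤ X := by omega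
  have hXX4 : 2 ≤ X := by omega
  have hWW : WW X ≤ X := Nat.div_le_self _ _
  have hne : ∀ k, k ∈ S → Nonempty (Dat k t) := by
    intro k hk
    obtain ⟨a, m, A, hA, hm⟩ := hE k hk
    exact dat_of_fac hA hm
  obtain ⟨x, -⟩ : ∃ x : ∀ k, k ∈ S → Dat k t, True := ⟨fun k hk => Classical.choice (hne k hk), trivial⟩
  obtain ⟨a, ha⟩ : ∃ a : ℕ → ℕ, ∀ k (hk : k ∈ S), a k = (x k hk).a :=
    ⟨fun k => if hk : k ∈ S then (x k hk).a else 0, fun k hk => by simp [hk]⟩
  obtain ⟨ix, hix⟩ : ∃ ix : ℕ → ℕ → ℕ, ∀ p k (hk : k ∈ S), ix p k = ((x k hk).i p : ℕ) + 1 :=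
    ⟨fun p k => if hk : k ∈ S then ((x k hk).i p : ℕ) + 1 else 1, fun p k hk => by simp [hk]⟩
  have hrange : ∀ k ∈ S, K ≤ k ∧ k ≤ K + WW X := fun k hk => Finset.mem_Icc.1 (hS hk)
  have hbig : ∀ k ∈ S, K ≤ k ∧ 2 ^ EE X t < a k ∧ k ≤ a k ∧ (a k) ^ t ≤ k ! ∧
      k ! ≤ (a k + k) ^ t := by
    intro k hk
    obtain ⟨h1, h2⟩ := hrange k hk
    have h3 := hX1 X hXX1 k (by omega) (by omega) t ht2 ht (x k hk).a (x k hk).hi
    rw [ha k hk]
    exact ⟨h1, h3.1, h3.2, (x k hk).lo, (x k hk).hi⟩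
  have hcls : ∀ b ∈ Finset.Icc 1 t, (S.filter (fun k => ix 2 k = b)).card ≤ 8 * BD X t * LL X := by
    intro b _
    obtain ⟨S', hS'⟩ : ∃ S', S' = S.filter (fun k => ix 2 k = b) := ⟨_, rfl⟩
    rw [← hS']
    have hsub : ∀ k ∈ S', k ∈ S := by
      intro k hk
      rw [hS'] at hk
      exact (Finset.mem_filter.1 hk).1
    have h2b : ∀ k ∈ S', ix 2 k = b := by
      intro k hk
      rw [hS'] at hk
      exact (Finset.mem_filter.1 hk).2
    have hw : ∀ p ∈ Sur46.primesTo K, 0 ≤ Sur46.wt K p := by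
      intro p _
      unfold Sur46.wt
      exact mul_nonneg (Nat.cast_nonneg _) (Real.log_natCast_nonneg p)
    have h2P : 2 ∈ Sur46.primesTo K := by
      rw [Sur46.primesTo, Finset.mem_filter, Finset.mem_range]
      exact ⟨by omega, Nat.prime_two⟩
    have hT := Sur46.sum_wt K
    have hT0 : 0 ≤ Real.log (K ! : ℕ) := Real.log_natCast_nonneg _
    have htR : (2 : ℝ) ≤ t := by exact_mod_cast ht2
    have hA := avg (Sur46.primesTo K) S' ix t (by omega) (Sur46.wt K) hw
      (fun p _ k hk => by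
        rw [hix p k (hsub k hk)]
        exact ⟨by omega, (x k (hsub k hk)).i p |>.isLt⟩)
      2 h2P (fun k hk k' hk' => by rw [h2b k hk, h2b k' hk'])
      (Real.log (K ! : ℕ) / t + Sur46.wt K 2 / 4)
      (by
        have := hw 2 h2P
        positivity)
      (fun k => S'.filter (fun k' => ¬ Sep (DT X t) (2 ^ EE X t) (a k) (a k')))
      (BD X t)
      (fun k hk => ⟨Finset.filter_subset _ _, by
        have := bad_card (K := K) (t := t) (D := DT X t) (E := EE X t) (by omega) (by omega) S a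
          hbig k (hsub k hk)
          (S'.filter (fun k' => ¬ Sep (DT X t) (2 ^ EE X t) (a k) (a k')))
          (fun k' hk' => by
            rw [Finset.mem_filter] at hk'
            exact ⟨hsub k' hk'.1, hk'.2⟩)
        exact this⟩)
      (fun k hk k' hk' hnb => by
        have hsep : Sep (DT X t) (2 ^ EE X t) (a k) (a k') := by
          by_contra hcon
          exact hnb (Finset.mem_filter.2 ⟨hk', hcon⟩)
        have hkS := hsub k hk
        have hkS' := hsub k' hk'
        rw [ha k hkS, ha k' hkS'] at hsep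
        have h3 := hX2 X hXX2 K hK hK3 t ht2 ht k k' (hrange k hkS).1 (hrange k hkS).2
          (hrange k' hkS').1 (hrange k' hkS').2 (x k hkS) (x k' hkS') hsep
        have h4 : (Sur46.primesTo K).filter (fun p => ix p k = ix p k') =
            (Sur46.primesTo K).filter (fun p => (x k hkS).i p = (x k' hkS').i p) := by
          apply Finset.filter_congr
          intro p _
          rw [hix p k hkS, hix p k' hkS']
          constructor
          · intro h5
            exact Fin.ext (by omega)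
          · intro h5
            rw [h5]
        rw [h4]
        exact h3)
    rw [hT] at hA
    obtain ⟨T, hTe⟩ : ∃ T, T = Real.log (K ! : ℕ) := ⟨_, rfl⟩
    obtain ⟨N, hN⟩ : ∃ N : ℝ, N = (S'.card : ℝ) := ⟨_, rfl⟩
    obtain ⟨w2, hw2⟩ : ∃ w2, w2 = Sur46.wt K 2 := ⟨_, rfl⟩
    rw [← hTe, ← hN, ← hw2] at hA
    rw [← hTe] at hT0
    have hw2K : (K : ℝ) / 2 ≤ w2 := by
      rw [hw2]
      exact hX3 K (by omega)
    have hKpos : (0 : ℝ) < K := by
      have : 0 < K := by omega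
      exact_mod_cast this
    have hN0 : 0 ≤ N := by
      rw [hN]
      positivity
    have hTL : T ≤ K * LL X := by
      have h1 := Sur46.log_fact_le_mul K (by omega)
      rw [← hTe] at h1
      have h2 : Real.log (K : ℝ) ≤ LL X := by
        have h3 : (K : ℝ) ≤ 2 ^ (LL X) := by
          have : K ≤ 2 ^ (LL X) := by
            have := lt_two_pow_LL X
            omega
          exact_mod_cast this
        calc Real.log (K : ℝ) ≤ Real.log (2 ^ (LL X)) := Real.log_le_log hKpos h3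
          _ = LL X * Real.log 2 := by rw [Real.log_pow]
          _ ≤ LL X * 1 := by
              apply mul_le_mul_of_nonneg_left _ (by positivity)
              have := Real.log_two_lt_d9
              linarith
          _ = LL X := mul_one _
      calc T ≤ K * Real.log K := h1
        _ ≤ K * LL X := mul_le_mul_of_nonneg_left h2 hKpos.le
    -- main inequality
    have hB0 : (0 : ℝ) ≤ BD X t := Nat.cast_nonneg _
    have h10 : N ^ 2 * w2 / 4 ≤ N * BD X t * T := by
      have e1 : N ^ 2 / t * T = N ^ 2 * (T / t) := by ring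
      have e2 : (1 : ℝ) / t ≤ 1 / 2 := one_div_le_one_div_of_le (by norm_num) htR
      have e3 : N ^ 2 * (1 - 1 / t) * w2 ≥ N ^ 2 * (1 / 2) * w2 := by
        have : 0 ≤ w2 := by linarith [div_nonneg hKpos.le (by norm_num : (0 : ℝ) ≤ 2)]
        apply mul_le_mul_of_nonneg_right _ this
        apply mul_le_mul_of_nonneg_left _ (by positivity)
        linarith
      rw [e1] at hA
      nlinarith
    have h11 : N ≤ 8 * BD X t * LL X := by
      rcases hN0.eq_or_lt with h0 | h0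
      · rw [← h0]
        positivity
      · have h12 : N * w2 / 4 ≤ BD X t * T := by
          have h13 : N * (N * w2 / 4) ≤ N * (BD X t * T) := by
            calc N * (N * w2 / 4) = N ^ 2 * w2 / 4 := by ring
              _ ≤ N * BD X t * T := h10
              _ = N * (BD X t * T) := by ring
          exact le_of_mul_le_mul_left h13 h0
        have h14 : N * K / 8 ≤ BD X t * (K * LL X) := by
          calc N * K / 8 = N * (K / 2) / 4 := by ring
            _ ≤ N * w2 / 4 := by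
                have := mul_le_mul_of_nonneg_left hw2K hN0
                linarith
            _ ≤ BD X t * T := h12
            _ ≤ BD X t * (K * LL X) := mul_le_mul_of_nonneg_left hTL hB0
        have h15 : K * N ≤ K * (8 * BD X t * LL X) := by nlinarith
        exact le_of_mul_le_mul_left h15 hKpos
    rw [hN] at h11
    exact_mod_cast h11
  have hfib := Finset.card_eq_sum_card_fiberwise (f := ix 2) (s := S) (t := Finset.Icc 1 t)
    (fun k hk => by
      rw [Finset.mem_coe] at hk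
      rw [hix 2 k hk]
      have := (x k hk).i 2 |>.isLt
      simp only [Finset.coe_Icc, Set.mem_Icc]
      omega)
  rw [hfib]
  calc ∑ b ∈ Finset.Icc 1 t, (S.filter (fun k => ix 2 k = b)).card
      ≤ ∑ _b ∈ Finset.Icc 1 t, 8 * BD X t * LL X := Finset.sum_le_sum hcls
    _ = t * (8 * BD X t * LL X) := by
        rw [Finset.sum_const, Nat.card_Icc, smul_eq_mul]
        congr 1

end Fac88
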