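import Mathlib

set_option autoImplicit false

namespace Fac88

/-- PROPORTIONALITY.  `P, Q` coprime, `P ∣ x`, `Q ∣ z`, `P ∣ x'`, `Q ∣ z'`, `|x - z| ≤ q`, `|x' - z'| ≤ q`
and `P Q > 2 q (x + x')`.  Then `x ≠ z` (otherwise `P Q ∣ x`, but `0 < x < P Q`), `x' ≠ z'`, and with
`D = x - z`, `D' = x' - z'` (integers): `P Q` divides `x z'` and `x' z`, and
`x z' - x' z = x' D - x D'`, `|x' D - x D'| ≤ (x + x') q < P Q`, so `x' D = x D'`.  As `x, x' > 0` and
`D, D' ≠ 0`: `x' |D| = x |D'|`. -/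
theorem prop2 {P Q x z x' z' q : ℕ} (hPQ : Nat.Coprime P Q) (hx : 0 < x) (hx' : 0 < x')
    (hP : P ∣ x) (hQ : Q ∣ z) (hP' : P ∣ x') (hQ' : Q ∣ z')
    (h1 : x ≤ z + q) (h2 : z ≤ x + q) (h1' : x' ≤ z' + q) (h2' : z' ≤ x' + q) (hq : 1 ≤ q)
    (hbig : 2 * q * (x + x') < P * Q) :
    ∃ d d' : ℕ, 1 ≤ d ∧ d ≤ q ∧ 1 ≤ d' ∧ d' ≤ q ∧ x' * d = x * d' := by
  have hxz : x ≠ z := by
    intro h
    rw [← h] at hQ
    have h3 := Nat.le_of_dvd hx (Nat.Coprime.mul_dvd_of_dvd_of_dvd hPQ hP hQ)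
    nlinarith
  have hxz' : x' ≠ z' := by
    intro h
    rw [← h] at hQ'
    have h3 := Nat.le_of_dvd hx' (Nat.Coprime.mul_dvd_of_dvd_of_dvd hPQ hP' hQ')
    nlinarith
  have hd1 : P * Q ∣ x * z' := Nat.mul_dvd_mul hP hQ'
  have hd2 : P * Q ∣ x' * z := Nat.mul_dvd_mul hP' hQ
  have hdiv : ((P * Q : ℕ) : ℤ) ∣ (x : ℤ) * z' - x' * z := by
    apply dvd_sub
    · have := Int.natCast_dvd_natCast.2 hd1
      simpa using this
    · have := Int.natCast_dvd_natCast.2 hd2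
      simpa using this
  have hD : |(x : ℤ) - z| ≤ q := by rw [abs_le]; omega
  have hD' : |(x' : ℤ) - z'| ≤ q := by rw [abs_le]; omega
  have hzero : (x : ℤ) * z' - x' * z = 0 := by
    apply Int.eq_zero_of_abs_lt_dvd hdiv
    have e : (x : ℤ) * z' - x' * z = x' * (x - z) - x * (x' - z') := by ring
    rw [e]
    calc |(x' : ℤ) * (x - z) - x * (x' - z')| ≤ |(x' : ℤ) * (x - z)| + |(x : ℤ) * (x' - z')| :=
          abs_sub _ _
      _ = (x' : ℤ) * |(x : ℤ) - z| + x * |(x' : ℤ) - z'| := by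
          rw [abs_mul, abs_mul, Nat.abs_cast, Nat.abs_cast]
      _ ≤ (x' : ℤ) * q + x * q := by
          apply add_le_add
          · exact mul_le_mul_of_nonneg_left hD (Int.natCast_nonneg _)
          · exact mul_le_mul_of_nonneg_left hD' (Int.natCast_nonneg _)
      _ < ((P * Q : ℕ) : ℤ) := by
          have h5 : x' * q + x * q < P * Q := by nlinarith
          exact_mod_cast h5
  have heq : (x' : ℤ) * (x - z) = x * (x' - z') := by linarith
  refine ⟨((x : ℤ) - z).natAbs, ((x' : ℤ) - z').natAbs, ?_, ?_, ?_, ?_, ?_⟩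
  · omega
  · omega
  · omega
  · omega
  · have h6 := congrArg Int.natAbs heq
    rw [Int.natAbs_mul, Int.natAbs_mul, Int.natAbs_natCast, Int.natAbs_natCast] at h6
    exact h6

end Fac88
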