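import Pool.Agent.W_198aa6_h88.Defs

set_option autoImplicit false

namespace Fac88

open Nat

/-- `2^{n-s} 3^{n/2-s}` is much larger than `2^{n+k}`.  `3^5 > 2^7`, so `3^{n/2 - s} ≥ 2^{7/5 (n/2 - s) - ..}`, about
`2^{0.7 n - 1.4 s}`; `T ≥ log_2 n + 3` is large, so `k ≤ n / (2T) ≤ n/100`, and `2 T^2 ≤ n`, so
`s ≤ T (log_2 n + 2) ≤ √n (log_2 n + 2) = o(n)`. -/
theorem Q_big : ∃ N0 : ℕ, ∀ n ≥ N0, ∀ k T s : ℕ, 2 * T * (k + T + 3) ≤ n → Nat.log 2 n + 3 ≤ T →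
    s ≤ T * (Nat.log 2 n + 2) →
    2 * (n + k) * 2 ^ (n + k + 2) < 2 ^ (n - s) * 3 ^ (n / 2 - s) := by
  sorry


end Fac88
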