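import Pool.Agent.W_198aa6_h88.RatioOne

set_option autoImplicit false

namespace Fac88

open Nat

/-- PROOF. Put `E = q^(k+T+1)`, `η = 1/(16 E)`.  `t ≤ T ≤ q`, `n ≤ q` so `16 t n E ≤ 16 q^{k+T+3} ≤ x`, and
`ratio_one` gives `u = N/x^t`, `u' = N'/x'^t'` in `[1 - η, 1 + 2 η]`, so `u'/u ∈ [1 - 4η, 1 + 4η]` (note
`η ≤ 1/16`).  `R = N'/N = (u'/u) x'^t' / x^t` and `x' = x d'/d`.
* `t < t'`: `R d^t' = (u'/u) x^(t'-t) d'^t' ≥ x/2 ≥ 8 q^{k+T+3}`, but `R d^t' ≤ q^k q^T`: contradiction.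
* `t' < t`: `R d^t x'^(t-t') = (u'/u) d'^t ≤ 2 q^T`, but the left side is `≥ x' ≥ 16 q^{k+T+3}`.
* `t = t'`: `|R d^t - d'^t| = d'^t |u'/u - 1| ≤ q^T * 4 η < 1`, so the integers are equal. -/
theorem ratio_step {N N' n q k t t' T x x' d d' R : ℕ} (hq : 2 ≤ q) (hnq : n ≤ q) (hT : T ≤ q)
    (ht0 : 1 ≤ t) (ht0' : 1 ≤ t') (ht : t ≤ T) (ht' : t' ≤ T)
    (hx : 16 * q ^ (k + T + 3) ≤ x) (hx' : 16 * q ^ (k + T + 3) ≤ x')
    (h1 : (x - n) ^ t ≤ N) (h2 : N ≤ (x + n) ^ t)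
    (h1' : (x' - q) ^ t' ≤ N') (h2' : N' ≤ (x' + q) ^ t')
    (hR : N' = N * R) (hRk : R ≤ q ^ k) (hR1 : 1 ≤ R)
    (hd : 1 ≤ d) (hdq : d ≤ q) (hd' : 1 ≤ d') (hdq' : d' ≤ q) (hxd : x' * d = x * d') :
    t = t' ∧ R * d ^ t = d' ^ t := by
  have hqr : (2 : ℝ) ≤ q := by exact_mod_cast hq
  have hq1 : (1 : ℝ) ≤ q := by linarith
  have hq0 : (0 : ℝ) < q := by linarith
  set E : ℝ := (q : ℝ) ^ (k + T + 1) with hEdef
  have hE1 : 1 ≤ E := one_le_pow₀ hq1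
  have hE0 : 0 < E := by linarith
  have hE3 : (q : ℝ) ^ (k + T + 3) = q * q * E := by
    rw [hEdef]; ring
  have hxr : 16 * (q * q * E) ≤ (x : ℝ) := by
    rw [← hE3]; exact_mod_cast hx
  have hxr' : 16 * (q * q * E) ≤ (x' : ℝ) := by
    rw [← hE3]; exact_mod_cast hx'
  have hqq1 : (1 : ℝ) ≤ (q : ℝ) * q := by nlinarith
  have hqqE : E ≤ q * q * E := by nlinarith
  have hx0 : (0 : ℝ) < x := by linarith
  have hx0' : (0 : ℝ) < x' := by linarith
  have hx0n : 0 < x := by exact_mod_cast hx0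
  have hx0n' : 0 < x' := by exact_mod_cast hx0'
  have htq : (t : ℝ) ≤ q := by exact_mod_cast ht.trans hT
  have htq' : (t' : ℝ) ≤ q := by exact_mod_cast ht'.trans hT
  have hnr : (n : ℝ) ≤ q := by exact_mod_cast hnq
  have hc1 : 16 * (t : ℝ) * n * E ≤ x := by
    refine le_trans ?_ hxr
    have : (t : ℝ) * n ≤ q * q := mul_le_mul htq hnr (by positivity) (by positivity)
    nlinarith
  have hc1' : 16 * (t' : ℝ) * q * E ≤ x' := by
    refine le_trans ?_ hxr'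
    have : (t' : ℝ) * q ≤ q * q := mul_le_mul htq' le_rfl (by positivity) (by positivity)
    nlinarith
  obtain ⟨hu1, hu2⟩ := ratio_one hE1 hx0n hc1 h1 h2
  obtain ⟨hu1', hu2'⟩ := ratio_one hE1 hx0n' hc1' h1' h2'
  set u : ℝ := (N : ℝ) / (x : ℝ) ^ t with hu
  set u' : ℝ := (N' : ℝ) / (x' : ℝ) ^ t' with hu'
  have hNu : (N : ℝ) = u * (x : ℝ) ^ t := by
    rw [hu]; field_simp
  have hNu' : (N' : ℝ) = u' * (x' : ℝ) ^ t' := by
    rw [hu']; field_simp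
  have hRr : (N' : ℝ) = N * R := by exact_mod_cast hR
  have hxdr : (x' : ℝ) * d = x * d' := by exact_mod_cast hxd
  have hi16 : 1 / (16 * E) ≤ 1 / 16 := by
    apply div_le_div_of_nonneg_left (by norm_num) (by norm_num)
    linarith
  have e8 : 1 / (8 * E) = 2 * (1 / (16 * E)) := by
    field_simp
    norm_num
  rw [e8] at hu2 hu2'
  set η : ℝ := 1 / (16 * E) with hη
  have hη0 : 0 < η := by rw [hη]; positivity
  have hηE : η * E = 1 / 16 := by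
    rw [hη]; field_simp
  have hmain : u * (x : ℝ) ^ t * R = u' * (x' : ℝ) ^ t' := by
    rw [← hNu, ← hNu', hRr]
  have hRk' : (R : ℝ) ≤ (q : ℝ) ^ k := by exact_mod_cast hRk
  have hR1' : (1 : ℝ) ≤ R := by exact_mod_cast hR1
  have hdr : (1 : ℝ) ≤ d := by exact_mod_cast hd
  have hdr' : (1 : ℝ) ≤ d' := by exact_mod_cast hd'
  have hdqr : (d : ℝ) ≤ q := by exact_mod_cast hdq
  have hdqr' : (d' : ℝ) ≤ q := by exact_mod_cast hdq'
  have hqT : ∀ s : ℕ, s ≤ T → (q : ℝ) ^ s ≤ (q : ℝ) ^ T := fun s hs => pow_le_pow_right₀ hq1 hs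
  have hqTE : (q : ℝ) ^ T ≤ E := by
    rw [hEdef]; exact pow_le_pow_right₀ hq1 (by omega)
  have hqkTE : (q : ℝ) ^ k * (q : ℝ) ^ T ≤ E := by
    rw [hEdef, ← pow_add]; exact pow_le_pow_right₀ hq1 (by omega)
  rcases lt_trichotomy t t' with hlt | heq | hgt
  · exfalso
    obtain ⟨s, rfl⟩ : ∃ s, t' = t + s := ⟨t' - t, by omega⟩
    have hs : 1 ≤ s := by omega
    have key : u * R * (d : ℝ) ^ (t + s) = u' * (x : ℝ) ^ s * (d' : ℝ) ^ (t + s) := by
      have h3 : (x : ℝ) ^ t * (u * R * (d : ℝ) ^ (t + s))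
          = (x : ℝ) ^ t * (u' * (x : ℝ) ^ s * (d' : ℝ) ^ (t + s)) := by
        calc (x : ℝ) ^ t * (u * R * (d : ℝ) ^ (t + s))
            = (u * (x : ℝ) ^ t * R) * (d : ℝ) ^ (t + s) := by ring
          _ = u' * ((x' : ℝ) * d) ^ (t + s) := by rw [hmain, mul_pow]; ring
          _ = u' * ((x : ℝ) * d') ^ (t + s) := by rw [hxdr]
          _ = (x : ℝ) ^ t * (u' * (x : ℝ) ^ s * (d' : ℝ) ^ (t + s)) := by rw [mul_pow]; ring
      exact mul_left_cancel₀ (by positivity) h3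
    have hdpow : (d : ℝ) ^ (t + s) ≤ (q : ℝ) ^ T :=
      (pow_le_pow_left₀ (by linarith) hdqr _).trans (hqT _ ht')
    have hdpow' : (1 : ℝ) ≤ (d' : ℝ) ^ (t + s) := one_le_pow₀ hdr'
    have hxs : (x : ℝ) ≤ (x : ℝ) ^ s := by
      calc (x : ℝ) = (x : ℝ) ^ 1 := (pow_one _).symm
        _ ≤ (x : ℝ) ^ s := pow_le_pow_right₀ (by nlinarith) hs
    have hL : u * R * (d : ℝ) ^ (t + s) ≤ 2 * E := by
      have h4 : (R : ℝ) * (d : ℝ) ^ (t + s) ≤ E := by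
        calc (R : ℝ) * (d : ℝ) ^ (t + s) ≤ (q : ℝ) ^ k * (q : ℝ) ^ T :=
              mul_le_mul hRk' hdpow (by positivity) (by positivity)
          _ ≤ E := hqkTE
      have h5 : 0 ≤ (R : ℝ) * (d : ℝ) ^ (t + s) := by positivity
      have h6 : u ≤ 2 := by linarith
      calc u * R * (d : ℝ) ^ (t + s) = u * (R * (d : ℝ) ^ (t + s)) := by ring
        _ ≤ 2 * (R * (d : ℝ) ^ (t + s)) := mul_le_mul_of_nonneg_right h6 h5
        _ ≤ 2 * E := by linarith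
    have hRR : (1 / 2) * (x : ℝ) ≤ u' * (x : ℝ) ^ s * (d' : ℝ) ^ (t + s) := by
      have h6 : 1 / 2 ≤ u' := by linarith
      calc (1 / 2) * (x : ℝ) ≤ u' * (x : ℝ) ^ s := mul_le_mul h6 hxs hx0.le (by linarith)
        _ = u' * (x : ℝ) ^ s * 1 := by ring
        _ ≤ u' * (x : ℝ) ^ s * (d' : ℝ) ^ (t + s) := by
            apply mul_le_mul_of_nonneg_left hdpow'
            positivity
    rw [key] at hL
    linarith
  · subst heq
    refine ⟨rfl, ?_⟩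
    have key : u * (R * (d : ℝ) ^ t) = u' * (d' : ℝ) ^ t := by
      have h3 : (x : ℝ) ^ t * (u * (R * (d : ℝ) ^ t)) = (x : ℝ) ^ t * (u' * (d' : ℝ) ^ t) := by
        calc (x : ℝ) ^ t * (u * (R * (d : ℝ) ^ t))
            = (u * (x : ℝ) ^ t * R) * (d : ℝ) ^ t := by ring
          _ = u' * ((x' : ℝ) * d) ^ t := by rw [hmain, mul_pow]; ring
          _ = u' * ((x : ℝ) * d') ^ t := by rw [hxdr]
          _ = (x : ℝ) ^ t * (u' * (d' : ℝ) ^ t) := by rw [mul_pow]; ring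
      exact mul_left_cancel₀ (by positivity) h3
    have hdpow' : (d' : ℝ) ^ t ≤ E :=
      ((pow_le_pow_left₀ (by linarith) hdqr' _).trans (hqT _ ht)).trans hqTE
    have hd0' : 0 ≤ (d' : ℝ) ^ t := by positivity
    have hdiff : u * (R * (d : ℝ) ^ t - (d' : ℝ) ^ t) = (u' - u) * (d' : ℝ) ^ t := by
      rw [mul_sub, key]; ring
    have hup : (u' - u) * (d' : ℝ) ^ t ≤ 3 / 16 := by
      have h7 : (u' - u) ≤ 3 * η := by linarith
      calc (u' - u) * (d' : ℝ) ^ t ≤ (3 * η) * (d' : ℝ) ^ t := mul_le_mul_of_nonneg_right h7 hd0'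
        _ ≤ (3 * η) * E := mul_le_mul_of_nonneg_left hdpow' (by positivity)
        _ = 3 / 16 := by rw [mul_assoc, hηE]; norm_num
    have hlo : -(3 / 16) ≤ (u' - u) * (d' : ℝ) ^ t := by
      have h7 : -(3 * η) ≤ (u' - u) := by linarith
      calc -(3 / 16 : ℝ) = -((3 * η) * E) := by rw [mul_assoc, hηE]; norm_num
        _ ≤ -((3 * η) * (d' : ℝ) ^ t) := by
            apply neg_le_neg
            exact mul_le_mul_of_nonneg_left hdpow' (by positivity)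
        _ = -(3 * η) * (d' : ℝ) ^ t := by ring
        _ ≤ (u' - u) * (d' : ℝ) ^ t := mul_le_mul_of_nonneg_right h7 hd0'
    have hu12 : 1 / 2 ≤ u := by linarith
    have hz : (((R * d ^ t : ℕ) : ℤ) - ((d' ^ t : ℕ) : ℤ)) = 0 := by
      have hlt1 : (R : ℝ) * (d : ℝ) ^ t - (d' : ℝ) ^ t < 1 := by
        by_contra hcon
        push Not at hcon
        have : u * 1 ≤ u * ((R : ℝ) * (d : ℝ) ^ t - (d' : ℝ) ^ t) :=
          mul_le_mul_of_nonneg_left hcon (by linarith)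
        linarith
      have hgt1 : -1 < (R : ℝ) * (d : ℝ) ^ t - (d' : ℝ) ^ t := by
        by_contra hcon
        push Not at hcon
        have : u * ((R : ℝ) * (d : ℝ) ^ t - (d' : ℝ) ^ t) ≤ u * (-1) :=
          mul_le_mul_of_nonneg_left hcon (by linarith)
        linarith
      have h8 : ((((R * d ^ t : ℕ) : ℤ) - ((d' ^ t : ℕ) : ℤ) : ℤ) : ℝ) < 1 := by
        push_cast
        exact hlt1
      have h9 : (-1 : ℝ) < ((((R * d ^ t : ℕ) : ℤ) - ((d' ^ t : ℕ) : ℤ) : ℤ) : ℝ) := by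
        push_cast
        exact hgt1
      have h10 : (((R * d ^ t : ℕ) : ℤ) - ((d' ^ t : ℕ) : ℤ)) < 1 := by exact_mod_cast h8
      have h11 : -1 < (((R * d ^ t : ℕ) : ℤ) - ((d' ^ t : ℕ) : ℤ)) := by exact_mod_cast h9
      omega
    have h12 : ((R * d ^ t : ℕ) : ℤ) = ((d' ^ t : ℕ) : ℤ) := by linarith
    exact_mod_cast h12
  · exfalso
    obtain ⟨s, rfl⟩ : ∃ s, t = t' + s := ⟨t - t', by omega⟩
    have hs : 1 ≤ s := by omega
    have key : u * R * (x' : ℝ) ^ s * (d : ℝ) ^ (t' + s) = u' * (d' : ℝ) ^ (t' + s) := by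
      have h3 : (x' : ℝ) ^ t' * (u * R * (x' : ℝ) ^ s * (d : ℝ) ^ (t' + s))
          = (x' : ℝ) ^ t' * (u' * (d' : ℝ) ^ (t' + s)) := by
        calc (x' : ℝ) ^ t' * (u * R * (x' : ℝ) ^ s * (d : ℝ) ^ (t' + s))
            = u * R * ((x' : ℝ) * d) ^ (t' + s) := by rw [mul_pow]; ring
          _ = u * R * ((x : ℝ) * d') ^ (t' + s) := by rw [hxdr]
          _ = (u * (x : ℝ) ^ (t' + s) * R) * (d' : ℝ) ^ (t' + s) := by rw [mul_pow]; ring
          _ = (x' : ℝ) ^ t' * (u' * (d' : ℝ) ^ (t' + s)) := by rw [hmain]; ring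
      exact mul_left_cancel₀ (by positivity) h3
    have hdpow : (1 : ℝ) ≤ (d : ℝ) ^ (t' + s) := one_le_pow₀ hdr
    have hdpow' : (d' : ℝ) ^ (t' + s) ≤ E :=
      ((pow_le_pow_left₀ (by linarith) hdqr' _).trans (hqT _ ht)).trans hqTE
    have hxs : (x' : ℝ) ≤ (x' : ℝ) ^ s := by
      calc (x' : ℝ) = (x' : ℝ) ^ 1 := (pow_one _).symm
        _ ≤ (x' : ℝ) ^ s := pow_le_pow_right₀ (by nlinarith) hs
    have hu12 : 1 / 2 ≤ u := by linarith
    have hL : (1 / 2) * (x' : ℝ) ≤ u * R * (x' : ℝ) ^ s * (d : ℝ) ^ (t' + s) := by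
      calc (1 / 2) * (x' : ℝ) = ((1 / 2) * 1) * x' := by ring
        _ ≤ (u * R) * (x' : ℝ) ^ s := by
            apply mul_le_mul _ hxs hx0'.le (by positivity)
            exact mul_le_mul hu12 hR1' (by norm_num) (by linarith)
        _ = u * R * (x' : ℝ) ^ s * 1 := by ring
        _ ≤ u * R * (x' : ℝ) ^ s * (d : ℝ) ^ (t' + s) := by
            apply mul_le_mul_of_nonneg_left hdpow
            have : 0 ≤ u := by linarith
            positivity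
    have hRR : u' * (d' : ℝ) ^ (t' + s) ≤ 2 * E := by
      have h6 : u' ≤ 2 := by linarith
      calc u' * (d' : ℝ) ^ (t' + s) ≤ 2 * (d' : ℝ) ^ (t' + s) :=
            mul_le_mul_of_nonneg_right h6 (by positivity)
        _ ≤ 2 * E := by linarith
    rw [key] at hL
    linarith

end Fac88
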