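import Pool.Agent.W_198aa6_h88.MedVal
import Pool.Agent.W_198aa6_h88.QBig
import Pool.Agent.W_198aa6_h88.ABig
import Pool.Agent.W_198aa6_h88.NotPow
import Pool.Agent.W_198aa6_h88.Ratio
import Pool.Agent.W_198aa6_h88.Prop2

set_option autoImplicit false

namespace Fac88

open Nat

/-- MEDIUM NUMBER OF FACTORS: at most one `n` in short intervals.
ASSEMBLY. `q = n + k`, `T = τ`, `s = τ (log_2 n + 2)`; `log_2 q ≤ log_2 n + 1` (`k ≤ n`).  `two_pow_dvd`,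
`three_pow_dvd` for `n` and for `q` (`2^(n-s) ∣ 2^(q-s)`, `3^(n/2-s) ∣ 3^(q/2-s)`), `a_lt`, `Q_big`, then
`prop2` with `P = 2^(n-s)`, `Q = 3^(n/2-s)`; then `a_big`, `ratio_step` with `N = n!`, `N' = q!`,
`R = q!/n! = (n+1)...(n+k) ≤ q^k`; finally `R d^t = d'^t` gives `d ∣ d'` (`Nat.pow_dvd_pow_iff`), `R = s^t`,
against `not_pow`. -/
theorem med_pair : ∃ N0 : ℕ, ∀ n ≥ N0, ∀ k τ : ℕ, 1 ≤ k → 2 * τ * (k + τ + 3) ≤ n → Med τ n →
    Med τ (n + k) → False := by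
  sorry

end Fac88
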