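import Mathlib

set_option autoImplicit false

namespace Fac88

open Nat

/-- Bernoulli: if `(x-n)^t ≤ N ≤ (x+n)^t` and `16 t n E ≤ x`, `E ≥ 1`, then
`1 - 1/(16 E) ≤ N / x^t ≤ 1 + 1/(8 E)` (`one_add_mul_le_pow`, and
`(1 + n/x)^t ≤ exp (t n / x) ≤ 1 + 2 t n / x`). -/
theorem ratio_one {N x n t : ℕ} {E : ℝ} (hE : 1 ≤ E) (hx : 0 < x) (hxn : 16 * (t : ℝ) * n * E ≤ x)
    (h1 : (x - n) ^ t ≤ N) (h2 : N ≤ (x + n) ^ t) :
    1 - 1 / (16 * E) ≤ (N : ℝ) / (x : ℝ) ^ t ∧ (N : ℝ) / (x : ℝ) ^ t ≤ 1 + 1 / (8 * E) := by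
  have hE0 : (0 : ℝ) < E := by linarith
  have hx0 : (0 : ℝ) < x := by exact_mod_cast hx
  have hn0 : (0 : ℝ) ≤ n := Nat.cast_nonneg n
  have hi16 : (0 : ℝ) < 1 / (16 * E) := by positivity
  have hi8 : (0 : ℝ) < 1 / (8 * E) := by positivity
  rcases Nat.eq_zero_or_pos t with ht | ht
  · subst ht
    have hN : N = 1 := by
      simp only [pow_zero] at h1 h2
      omega
    subst hN
    simp only [pow_zero, Nat.cast_one, div_one]
    constructor <;> linarith
  · have ht1 : (1 : ℝ) ≤ t := by exact_mod_cast ht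
    have htn : (n : ℝ) ≤ (t : ℝ) * n := by nlinarith
    have htn0 : 0 ≤ (t : ℝ) * n := by positivity
    have htE : (t : ℝ) * n ≤ (t : ℝ) * n * E := by nlinarith
    have hnx : (n : ℝ) ≤ x := by nlinarith
    have hnx' : n ≤ x := by exact_mod_cast hnx
    have hy : (t : ℝ) * (n / x) ≤ 1 / (16 * E) := by
      rw [mul_div_assoc', div_le_div_iff₀ hx0 (by positivity)]
      nlinarith
    have hy1 : 1 / (16 * E) ≤ 1 / 16 := by
      apply div_le_div_of_nonneg_left (by norm_num) (by norm_num)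
      linarith
    have hy0 : 0 ≤ (t : ℝ) * (n / x) := by positivity
    constructor
    · rw [le_div_iff₀ (by positivity)]
      have e1 : ((x - n : ℕ) : ℝ) = x * (1 + -(n / x)) := by
        rw [Nat.cast_sub hnx']
        field_simp
        ring
      have h1r : (((x - n : ℕ) : ℝ)) ^ t ≤ N := by exact_mod_cast h1
      rw [e1, mul_pow] at h1r
      have hb : 1 + (t : ℝ) * -((n : ℝ) / x) ≤ (1 + -((n : ℝ) / x)) ^ t := by
        apply one_add_mul_le_pow
        have : (n : ℝ) / x ≤ 1 := (div_le_one hx0).2 hnx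
        linarith
      have hb2 : 1 - 1 / (16 * E) ≤ (1 + -((n : ℝ) / x)) ^ t := by
        refine le_trans ?_ hb
        linarith
      calc (1 - 1 / (16 * E)) * (x : ℝ) ^ t ≤ (1 + -((n : ℝ) / x)) ^ t * (x : ℝ) ^ t := by
            apply mul_le_mul_of_nonneg_right hb2 (by positivity)
        _ = (x : ℝ) ^ t * (1 + -((n : ℝ) / x)) ^ t := by ring
        _ ≤ N := h1r
    · rw [div_le_iff₀ (by positivity)]
      have e1 : ((x + n : ℕ) : ℝ) = x * (1 + n / x) := by
        push_cast
        field_simp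
      have h2r : (N : ℝ) ≤ (((x + n : ℕ) : ℝ)) ^ t := by exact_mod_cast h2
      rw [e1, mul_pow] at h2r
      have hexp : (1 + (n : ℝ) / x) ^ t ≤ Real.exp ((t : ℝ) * (n / x)) := by
        rw [Real.exp_nat_mul]
        apply pow_le_pow_left₀ (by positivity)
        have := Real.add_one_le_exp ((n : ℝ) / x)
        linarith
      set y := (t : ℝ) * (n / x) with hydef
      have hexp2 : Real.exp y ≤ 1 + 2 * y := by
        have h3 := Real.add_one_le_exp (-y)
        have h4 : Real.exp y * Real.exp (-y) = 1 := by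
          rw [← Real.exp_add]; simp
        have h5 : 0 < Real.exp y := Real.exp_pos y
        have hy2 : y ≤ 1 / 16 := hy.trans hy1
        have h6 : Real.exp y * (1 - y) ≤ 1 := by
          calc Real.exp y * (1 - y) ≤ Real.exp y * Real.exp (-y) := by
                apply mul_le_mul_of_nonneg_left _ h5.le
                linarith
            _ = 1 := h4
        have h7 : (1 : ℝ) ≤ (1 + 2 * y) * (1 - y) := by nlinarith
        have h8 : (0 : ℝ) < 1 - y := by linarith
        by_contra hcon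
        push Not at hcon
        have : (1 + 2 * y) * (1 - y) < Real.exp y * (1 - y) := mul_lt_mul_of_pos_right hcon h8
        linarith
      have h9 : (1 + (n : ℝ) / x) ^ t ≤ 1 + 1 / (8 * E) := by
        have e2 : 1 / (8 * E) = 2 * (1 / (16 * E)) := by
          field_simp
          norm_num
        rw [e2]
        linarith
      calc (N : ℝ) ≤ (x : ℝ) ^ t * (1 + n / x) ^ t := h2r
        _ ≤ (x : ℝ) ^ t * (1 + 1 / (8 * E)) := by
            apply mul_le_mul_of_nonneg_left h9 (by positivity)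
        _ = (1 + 1 / (8 * E)) * (x : ℝ) ^ t := by ring


end Fac88
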