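import Pool.Agent.W_198aa6_h88.Defs
import Pool.Agent.W_156d3b_h46.PDefs

set_option autoImplicit false

namespace Fac88

open Nat

theorem TwoP_set {n a s : ℕ} {A : Finset ℕ} (h : IsFac n 2 a s A) :
    1 ≤ s ∧ A = {a, a + s} := by
  have hs : 1 ≤ s := by
    by_contra hcon
    have hs0 : s = 0 := by omega
    have hsub : A ⊆ {a} := by
      intro x hx
      have := h.bd x hx
      rw [Finset.mem_singleton]
      omega
    have h1 := Finset.card_le_card hsub
    rw [h.card, Finset.card_singleton] at h1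
    omega
  refine ⟨hs, ?_⟩
  symm
  apply Finset.eq_of_subset_of_card_le
  · intro z hz
    rw [Finset.mem_insert, Finset.mem_singleton] at hz
    rcases hz with rfl | rfl
    · exact h.lo
    · exact h.hi
  · rw [h.card, Finset.card_pair (by omega)]

theorem TwoP_prod {n a s : ℕ} {A : Finset ℕ} (h : IsFac n 2 a s A) : a * (a + s) = n ! := by
  obtain ⟨hs, hA⟩ := TwoP_set h
  rw [← h.prod, hA, Finset.prod_pair (by omega)]

/-- TWO FACTORS: `n! = a (a+s)`. If `v_p(a) ≥ v_p(a+s)` then `p^(v_p(a+s))` divides `s`, so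
`v_p(n!) ≤ v_p(a) + v_p(s)` (index 1); otherwise `v_p(n!) ≤ v_p(a+s) + v_p(s)` (index 2). -/
theorem two_index {n a s : ℕ} {A : Finset ℕ} (h : IsFac n 2 a s A) {p : ℕ} (hp : p.Prime) :
    ∃ i, 1 ≤ i ∧ i ≤ 2 ∧ ∀ e, p ^ e ∣ n ! → p ^ e ∣ (a + (i - 1) * s) * s := by
  have ha : 0 < a := h.a_pos
  have hprod := TwoP_prod h
  have has : a + s ≠ 0 := by omega
  have hfac : (n !).factorization p = a.factorization p + (a + s).factorization p := by
    rw [← hprod, Nat.factorization_mul ha.ne' has]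
    rfl
  have hle : ∀ e, p ^ e ∣ n ! → e ≤ a.factorization p + (a + s).factorization p := by
    intro e he
    rw [← hfac]
    exact (hp.pow_dvd_iff_le_factorization (Nat.factorial_ne_zero n)).1 he
  have h1 : p ^ a.factorization p ∣ a := Nat.ordProj_dvd a p
  have h2 : p ^ (a + s).factorization p ∣ a + s := Nat.ordProj_dvd (a + s) p
  rcases le_total ((a + s).factorization p) (a.factorization p) with hc | hc
  · refine ⟨1, le_refl _, by omega, ?_⟩
    intro e he
    have h3 : p ^ (a + s).factorization p ∣ s :=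
      (Nat.dvd_add_right ((pow_dvd_pow p hc).trans h1)).1 h2
    have h4 : a + (1 - 1) * s = a := by simp
    rw [h4]
    refine (pow_dvd_pow p (hle e he)).trans ?_
    rw [pow_add]
    exact Nat.mul_dvd_mul h1 h3
  · refine ⟨2, by omega, le_refl _, ?_⟩
    intro e he
    have h3 : p ^ a.factorization p ∣ s :=
      (Nat.dvd_add_right h1).1 ((pow_dvd_pow p hc).trans h2)
    have h4 : a + (2 - 1) * s = a + s := by simp
    rw [h4]
    refine (pow_dvd_pow p (hle e he)).trans ?_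
    rw [add_comm, pow_add]
    exact Nat.mul_dvd_mul h2 h3

/-- `4 n! + s^2 = (2a+s)^2`. (`A = {a, a+s}`, `s ≥ 1` because `A` has two elements.) -/
theorem two_square {n a s : ℕ} {A : Finset ℕ} (h : IsFac n 2 a s A) :
    1 ≤ s ∧ 4 * n ! + s ^ 2 = (2 * a + s) ^ 2 := by
  refine ⟨(TwoP_set h).1, ?_⟩
  rw [← TwoP_prod h]
  ring

/-- With `z = 2a+s`, `z' = 2a'+s'`: if `s' z = s z'` then `s'^2 n! = s^2 n'!`, so
`s'^2 = s^2 (n+1)...(n')  ≥ n' (n'-1) > (n'-1)^2 ≥ s'^2`. -/
theorem two_ne {n n' a a' s s' : ℕ} {A A' : Finset ℕ} (h : IsFac n 2 a s A)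
    (h' : IsFac n' 2 a' s' A') (hs' : s' < n') (hnn : n + 2 ≤ n') :
    s' * (2 * a + s) ≠ s * (2 * a' + s') := by
  intro heq
  obtain ⟨h1, h2⟩ := two_square h
  obtain ⟨h3, h4⟩ := two_square h'
  have h5 : s' ^ 2 * n ! = s ^ 2 * n' ! := by
    have h6 : s' ^ 2 * (4 * n ! + s ^ 2) = s ^ 2 * (4 * n' ! + s' ^ 2) := by
      rw [h2, h4, ← mul_pow, ← mul_pow, heq]
    have h7 : 4 * (s' ^ 2 * n !) = 4 * (s ^ 2 * n' !) := by
      have : 4 * (s' ^ 2 * n !) + s ^ 2 * s' ^ 2 = 4 * (s ^ 2 * n' !) + s ^ 2 * s' ^ 2 := by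
        linarith
      exact Nat.add_right_cancel this
    omega
  obtain ⟨k, rfl⟩ : ∃ k, n' = k + 2 := ⟨n' - 2, by omega⟩
  have hnk : n ≤ k := by omega
  have h6 : n ! ≤ k ! := Nat.factorial_le hnk
  have h7 : (k + 2)! = (k + 2) * ((k + 1) * k !) := by
    rw [Nat.factorial_succ, Nat.factorial_succ]
  have h8 : s' ^ 2 ≤ (k + 1) ^ 2 := Nat.pow_le_pow_left (by omega) 2
  have h9 : 0 < k ! := Nat.factorial_pos k
  have h10 : s ^ 2 * (k + 2)! ≤ (k + 1) ^ 2 * k ! := by
    rw [← h5]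
    exact Nat.mul_le_mul h8 h6
  have h11 : (k + 2)! ≤ s ^ 2 * (k + 2)! := Nat.le_mul_of_pos_left _ (by positivity)
  have h12 : (k + 2) * (k + 1) * k ! ≤ (k + 1) ^ 2 * k ! := by
    calc (k + 2) * (k + 1) * k ! = (k + 2)! := by rw [h7]; ring
      _ ≤ _ := h11.trans h10
  have h13 := Nat.le_of_mul_le_mul_right h12 h9
  nlinarith

end Fac88
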