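import Pool.Agent.W_198aa6_h88.TwoP
import Pool.Agent.W_156d3b_h46.Pair

set_option autoImplicit false

namespace Fac88

open Nat

/-- PROOF. Let `z = 2a+s`, `z' = 2a'+s'`, `B = (primesTo K).filter (j p = j' p)`, `v = (K!).factorization`.
`p^(v p)` divides `K!`, hence `n!` and `n'!` (`K ≤ n, n'`), hence `(z - s) s` and `(z' - s') s'` (index 1;
`2a = z - s`) or `(z + s) s` and `(z' + s') s'` (index 2; `2(a+s) = z + s`), hence (integers)
`s s' (s' z - s z') = s'^2 * (s (z ∓ s)) - s^2 * (s' (z' ∓ s'))`. The `p^(v p)` are coprime, so their product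
divides `s s' |s' z - s z'| ≠ 0` (`two_ne`), which is `≤ q^3 (z + z')` for `q = n'`. Take logarithms:
`z^2 = 4 n! + s^2 ≤ 8 (n')!`, same for `z'`, so `z + z' ≤ 2 √8 √(n'!)  ≤ 8 √(n'!)`.
(Compare `Sur46.pair_le`.) -/
theorem two_pair {K n n' a a' s s' : ℕ} {A A' : Finset ℕ} (hK : 4 ≤ K) (hKn : K ≤ n)
    (h : IsFac n 2 a s A) (h' : IsFac n' 2 a' s' A') (hs : s < n) (hs' : s' < n')
    (hnn : n + 2 ≤ n') (j j' : ℕ → ℕ)
    (hj1 : ∀ p, p.Prime → 1 ≤ j p ∧ j p ≤ 2)
    (hj : ∀ p, p.Prime → ∀ e, p ^ e ∣ n ! → p ^ e ∣ (a + (j p - 1) * s) * s)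
    (hj' : ∀ p, p.Prime → ∀ e, p ^ e ∣ n' ! → p ^ e ∣ (a' + (j' p - 1) * s') * s') :
    ∑ p ∈ (Sur46.primesTo K).filter (fun p => j p = j' p), Sur46.wt K p ≤
      3 * Real.log n' + Real.log 8 + Real.log (n' ! : ℕ) / 2 := by
  obtain ⟨hs1, hsq⟩ := two_square h
  obtain ⟨hs1', hsq'⟩ := two_square h'
  have hne := two_ne h h' hs' hnn
  set B := (Sur46.primesTo K).filter (fun p => j p = j' p) with hB
  have hBp : ∀ p ∈ B, p.Prime ∧ j p = j' p := by
    intro p hp
    rw [hB, Finset.mem_filter, Sur46.primesTo, Finset.mem_filter] at hp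
    exact ⟨hp.1.2, hp.2⟩
  set W : ℤ := (s : ℤ) * s' * (s' * (2 * a + s) - s * (2 * a' + s')) with hW
  have hdvd : ∏ p ∈ B, p ^ (K !).factorization p ∣ W.natAbs := by
    refine Finset.prod_dvd_of_isRelPrime ?_ ?_
    · intro p hp q hq hpq
      change IsRelPrime (p ^ (K !).factorization p) (q ^ (K !).factorization q)
      rw [← Nat.coprime_iff_isRelPrime]
      exact Nat.Coprime.pow _ _
        ((Nat.coprime_primes (hBp p hp).1 (hBp q hq).1).2 hpq)
    · intro p hp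
      obtain ⟨hpp, hjj⟩ := hBp p hp
      have h0 : p ^ (K !).factorization p ∣ K ! := Nat.ordProj_dvd _ _
      have h1 := hj p hpp _ (h0.trans (Nat.factorial_dvd_factorial hKn))
      have h2 := hj' p hpp _ (h0.trans (Nat.factorial_dvd_factorial (by omega)))
      have h1z : ((p ^ (K !).factorization p : ℕ) : ℤ) ∣ (((a + (j p - 1) * s) * s : ℕ) : ℤ) :=
        Int.natCast_dvd_natCast.2 h1
      have h2z : ((p ^ (K !).factorization p : ℕ) : ℤ) ∣ (((a' + (j' p - 1) * s') * s' : ℕ) : ℤ) :=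
        Int.natCast_dvd_natCast.2 h2
      refine Int.natCast_dvd.1 ?_
      obtain ⟨hj1a, hj1b⟩ := hj1 p hpp
      have hjc : j p = 1 ∨ j p = 2 := by omega
      rcases hjc with hjc | hjc
      · rw [← hjj, hjc] at h2z
        rw [hjc] at h1z
        have e : W = 2 * (s' : ℤ) ^ 2 * (((a + (1 - 1) * s) * s : ℕ) : ℤ) -
            2 * (s : ℤ) ^ 2 * (((a' + (1 - 1) * s') * s' : ℕ) : ℤ) := by
          rw [hW]; push_cast; ring
        rw [e]
        exact dvd_sub (Dvd.dvd.mul_left h1z _) (Dvd.dvd.mul_left h2z _)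
      · rw [← hjj, hjc] at h2z
        rw [hjc] at h1z
        have e : W = 2 * (s' : ℤ) ^ 2 * (((a + (2 - 1) * s) * s : ℕ) : ℤ) -
            2 * (s : ℤ) ^ 2 * (((a' + (2 - 1) * s') * s' : ℕ) : ℤ) := by
          rw [hW]; push_cast; ring
        rw [e]
        exact dvd_sub (Dvd.dvd.mul_left h1z _) (Dvd.dvd.mul_left h2z _)
  have hW0 : W ≠ 0 := by
    rw [hW]
    refine mul_ne_zero (mul_ne_zero (by exact_mod_cast (by omega : s ≠ 0))
      (by exact_mod_cast (by omega : s' ≠ 0))) ?_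
    intro h0
    apply hne
    have h1 : (s' : ℤ) * (2 * a + s) = s * (2 * a' + s') := by linarith
    exact_mod_cast h1
  have hle1 : ∏ p ∈ B, p ^ (K !).factorization p ≤ W.natAbs :=
    Nat.le_of_dvd (Int.natAbs_pos.2 hW0) hdvd
  have hle2 : W.natAbs ≤ n' ^ 3 * ((2 * a + s) + (2 * a' + s')) := by
    have e1 : (s : ℤ) * s' * (s' * (2 * a + s)) ≤ n' * n' * (n' * (2 * a + s)) := by
      have := Nat.mul_le_mul (Nat.mul_le_mul (by omega : s ≤ n') (by omega : s' ≤ n'))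
        (Nat.mul_le_mul_right (2 * a + s) (by omega : s' ≤ n'))
      exact_mod_cast this
    have e2 : (s : ℤ) * s' * (s * (2 * a' + s')) ≤ n' * n' * (n' * (2 * a' + s')) := by
      have := Nat.mul_le_mul (Nat.mul_le_mul (by omega : s ≤ n') (by omega : s' ≤ n'))
        (Nat.mul_le_mul_right (2 * a' + s') (by omega : s ≤ n'))
      exact_mod_cast this
    have e3 : (0 : ℤ) ≤ (s : ℤ) * s' * (s' * (2 * a + s)) := by positivity
    have e4 : (0 : ℤ) ≤ (s : ℤ) * s' * (s * (2 * a' + s')) := by positivity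
    have e5 : W = (s : ℤ) * s' * (s' * (2 * a + s)) - (s : ℤ) * s' * (s * (2 * a' + s')) := by
      rw [hW]; ring
    have e6 : (0 : ℤ) ≤ n' * n' * (n' * (2 * a + s)) := le_trans e3 e1
    have e7 : (0 : ℤ) ≤ n' * n' * (n' * (2 * a' + s')) := le_trans e4 e2
    have e8 : ((n' ^ 3 * ((2 * a + s) + (2 * a' + s')) : ℕ) : ℤ) =
        n' * n' * (n' * (2 * a + s)) + n' * n' * (n' * (2 * a' + s')) := by
      push_cast; ring
    have e9 : |W| ≤ ((n' ^ 3 * ((2 * a + s) + (2 * a' + s')) : ℕ) : ℤ) := by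
      rw [e8, abs_le]
      constructor <;> linarith
    rw [Int.abs_eq_natAbs] at e9
    exact_mod_cast e9
  have hsum : ∑ p ∈ B, Sur46.wt K p =
      Real.log ((∏ p ∈ B, p ^ (K !).factorization p : ℕ) : ℝ) := by
    rw [Nat.cast_prod, Real.log_prod]
    · refine Finset.sum_congr rfl fun p _ => ?_
      rw [Sur46.wt, Nat.cast_pow, Real.log_pow]
    · intro p hp
      have := (hBp p hp).1.pos
      positivity
  have hDpos : 0 < ∏ p ∈ B, p ^ (K !).factorization p :=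
    Finset.prod_pos fun p hp => Nat.pow_pos (hBp p hp).1.pos
  have hn'0 : (0 : ℝ) < n' := by exact_mod_cast (by omega : 0 < n')
  have hfac : n' ^ 2 ≤ 4 * n' ! := by
    have h1 : n' * (n' - 1) ≤ n' ! := by
      obtain ⟨k, rfl⟩ : ∃ k, n' = k + 2 := ⟨n' - 2, by omega⟩
      rw [Nat.factorial_succ, Nat.factorial_succ]
      have : k + 2 - 1 = k + 1 := by omega
      rw [this]
      have hk : 1 ≤ k ! := Nat.factorial_pos k
      calc (k + 2) * (k + 1) = (k + 1 + 1) * ((k + 1) * 1) := by ring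
        _ ≤ (k + 1 + 1) * ((k + 1) * k !) :=
            Nat.mul_le_mul_left _ (Nat.mul_le_mul_left _ hk)
    have h2 : n' ^ 2 ≤ 4 * (n' * (n' - 1)) := by
      obtain ⟨k, rfl⟩ : ∃ k, n' = k + 2 := ⟨n' - 2, by omega⟩
      have : k + 2 - 1 = k + 1 := by omega
      rw [this]
      nlinarith
    omega
  have hfle : n ! ≤ n' ! := Nat.factorial_le (by omega)
  have hz : (2 * a + s) ^ 2 ≤ 8 * n' ! := by
    have h1 : s ^ 2 ≤ n' ^ 2 := Nat.pow_le_pow_left (by omega) 2
    omega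
  have hz' : (2 * a' + s') ^ 2 ≤ 8 * n' ! := by
    have h1 : s' ^ 2 ≤ n' ^ 2 := Nat.pow_le_pow_left (by omega) 2
    omega
  have hF : (0 : ℝ) < (n' ! : ℕ) := by exact_mod_cast Nat.factorial_pos n'
  have hZpos : (0 : ℝ) < (2 * a + s) + (2 * a' + s') := by
    have : (0 : ℝ) < (s : ℝ) := by exact_mod_cast (by omega : 0 < s)
    positivity
  have hZ : Real.log ((2 * a + s) + (2 * a' + s') : ℝ) ≤ Real.log 8 + Real.log (n' ! : ℕ) / 2 := by
    have h1 : (((2 * a + s) + (2 * a' + s') : ℝ)) ^ 2 ≤ 8 ^ 2 * (n' ! : ℕ) := by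
      have a1 : ((2 * a + s : ℝ)) ^ 2 ≤ 8 * (n' ! : ℕ) := by exact_mod_cast hz
      have a2 : ((2 * a' + s' : ℝ)) ^ 2 ≤ 8 * (n' ! : ℕ) := by exact_mod_cast hz'
      nlinarith [sq_nonneg ((2 * a + s : ℝ) - (2 * a' + s'))]
    have h2 := Real.log_le_log (by positivity) h1
    rw [Real.log_pow, Real.log_mul (by norm_num) hF.ne', Real.log_pow] at h2
    push_cast at h2 ⊢
    linarith
  rw [hsum]
  calc Real.log ((∏ p ∈ B, p ^ (K !).factorization p : ℕ) : ℝ)
      ≤ Real.log ((n' : ℝ) ^ 3 * ((2 * a + s) + (2 * a' + s'))) := by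
        refine Real.log_le_log (by exact_mod_cast hDpos) ?_
        exact_mod_cast le_trans hle1 hle2
    _ = 3 * Real.log n' + Real.log ((2 * a + s) + (2 * a' + s') : ℝ) := by
        rw [Real.log_mul (by positivity) hZpos.ne', Real.log_pow]
        push_cast
        ring
    _ ≤ 3 * Real.log n' + Real.log 8 + Real.log (n' ! : ℕ) / 2 := by linarith


end Fac88
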