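import Pool.Agent.W_198aa6_h88.CoreS
import Pool.Agent.W_198aa6_h88.FiberS
import Pool.Agent.W_156d3b_h46.Window

set_option autoImplicit false

namespace Fac88

open Nat

/-- windows, exactly `r` factors. Same proof as `Sur46.windowA`: `fiber_card` with `δ = r` gives fibres of
size `≤ 5 r`, `Sur46.exists_lacunary` with `G = X^3`, `F = 5 r`, and `core r` (`(a k)^r ≤ k!` by
`IsFac.pow_le`; `m k < k ≤ K + W X ≤ 4 X`, `r ≤ Lg X` for large `X`). -/
theorem window_eq (r : ℕ) (hr : 2 ≤ r) : ∃ X0 : ℕ, ∀ X ≥ X0, ∀ K, X ≤ K → K ≤ 3 * X →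
    ∀ S : Finset ℕ, S ⊆ Finset.Icc K (K + Sur46.W X) → (∀ k ∈ S, Eqt r k) →
    S.card ≤ 20 * r * (Sur46.primesTo (Sur46.Y r X)).card := by
  obtain ⟨X1, h1⟩ := core r hr
  refine ⟨max (max X1 (2 ^ r)) 2, ?_⟩
  intro X hX K hXK hK3 S hS hm
  have hX1 : X1 ≤ X := le_trans (le_trans (le_max_left _ _) (le_max_left _ _)) hX
  have hXr : 2 ^ r ≤ X := le_trans (le_trans (le_max_right _ _) (le_max_left _ _)) hX
  have hX2 : 2 ≤ X := le_trans (le_max_right _ _) hX
  have hW := Sur46.W_le (X := X) (by omega)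
  have hrL : r ≤ Lg X := by
    unfold Lg
    have h3 : r ≤ Nat.log 2 (4 * X) := Nat.le_log_of_pow_le (by norm_num) (by omega)
    omega
  have hex : ∀ k, ∃ a m A, k ∈ S → IsFac k r a m A ∧ m < k := by
    intro k
    by_cases hk : k ∈ S
    · obtain ⟨a, m, A, h⟩ := hm k hk
      exact ⟨a, m, A, fun _ => h⟩
    · exact ⟨0, 0, ∅, fun h => absurd h hk⟩
  choose a m A hm' using hex
  have hX3 : 2 ≤ X ^ 3 := le_trans hX2 (Nat.le_self_pow (by norm_num) X)
  have hmX : ∀ k ∈ S, m k ≤ 4 * X := by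
    intro k hk
    have h3 := (hm' k hk).2
    have h4 := Finset.mem_Icc.1 (hS hk)
    omega
  have hfib : ∀ v, (S.filter (fun k => Nat.log (X ^ 3) (a k) = v)).card ≤ 5 * r := by
    intro v
    apply fiber_card (K := K) hX2 hXK (by omega) S a m A _ v
    intro k hk
    exact ⟨(Finset.mem_Icc.1 (hS hk)).1, (hm' k hk).1, hmX k hk⟩
  obtain ⟨T, hTS, hlac, hcard⟩ := Sur46.exists_lacunary hX3 S a
    (fun k hk => (hm' k hk).1.a_pos) hfib
  have hlt := h1 X hX1 K hXK hK3 T (fun _ => r) a m A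
    (by
      intro k hk
      have hkS := hTS hk
      have hI := Finset.mem_Icc.1 (hS hkS)
      have hfac := (hm' k hkS).1
      exact ⟨hI.1, hI.2, hfac, hmX k hkS, hrL, hfac.pow_le⟩) hlac
  calc S.card ≤ 2 * (5 * r) * T.card := hcard
    _ ≤ 2 * (5 * r) * (2 * (Sur46.primesTo (Sur46.Y r X)).card) := Nat.mul_le_mul_left _ hlt.le
    _ = 20 * r * (Sur46.primesTo (Sur46.Y r X)).card := by ring

/-- windows, at least `r`, at most `log_2 k + 2 ≤ Lg X` factors. Same proof as `Sur46.windowB`: the fibres of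
`Nat.log (X^3) (a k)` split according to `t k ∈ [1, Lg X]` and `fiber_card` bounds each part by `5 Lg X`, so
`F = 5 (Lg X)^2`; `core r` (`(a k)^r ≤ (a k)^(t k) ≤ k!` as `a k ≥ 1`). -/
theorem window_few (r : ℕ) (hr : 2 ≤ r) : ∃ X0 : ℕ, ∀ X ≥ X0, ∀ K, X ≤ K → K ≤ 3 * X →
    ∀ S : Finset ℕ, S ⊆ Finset.Icc K (K + Sur46.W X) → (∀ k ∈ S, Few r k) →
    S.card ≤ 20 * (Lg X) ^ 2 * (Sur46.primesTo (Sur46.Y r X)).card := by
  obtain ⟨X1, h1⟩ := core r hr
  refine ⟨max X1 2, ?_⟩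
  intro X hX K hXK hK3 S hS hm
  have hX1 : X1 ≤ X := le_trans (le_max_left _ _) hX
  have hX2 : 2 ≤ X := le_trans (le_max_right _ _) hX
  have hW := Sur46.W_le (X := X) (by omega)
  have hex : ∀ k, ∃ t a m A, k ∈ S → (IsFac k t a m A ∧ m < k ∧ r ≤ t ∧ t ≤ Nat.log 2 k + 2) := by
    intro k
    by_cases hk : k ∈ S
    · obtain ⟨t, a, m, A, h⟩ := hm k hk
      exact ⟨t, a, m, A, fun _ => h⟩
    · exact ⟨0, 0, 0, ∅, fun h => absurd h hk⟩
  choose t a m A hm' using hex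
  have hX3 : 2 ≤ X ^ 3 := le_trans hX2 (Nat.le_self_pow (by norm_num) X)
  have hmX : ∀ k ∈ S, m k ≤ 4 * X := by
    intro k hk
    have h3 := (hm' k hk).2.1
    have h4 := Finset.mem_Icc.1 (hS hk)
    omega
  have htL : ∀ k ∈ S, t k ≤ Lg X := by
    intro k hk
    have h3 := (hm' k hk).2.2.2
    have h4 := Finset.mem_Icc.1 (hS hk)
    have h5 : Nat.log 2 k ≤ Nat.log 2 (4 * X) := Nat.log_mono_right (by omega)
    unfold Lg
    omega
  have hfib : ∀ v, (S.filter (fun k => Nat.log (X ^ 3) (a k) = v)).card ≤ 5 * (Lg X) ^ 2 := by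
    intro v
    have hsub : ∀ k ∈ S.filter (fun k => Nat.log (X ^ 3) (a k) = v), t k ∈ Finset.Icc 1 (Lg X) := by
      intro k hk
      have hkS := (Finset.mem_filter.1 hk).1
      exact Finset.mem_Icc.2 ⟨(hm' k hkS).1.t_pos, htL k hkS⟩
    have hmain := Finset.card_le_mul_card_image_of_maps_to (f := t)
      (s := S.filter (fun k => Nat.log (X ^ 3) (a k) = v)) (t := Finset.Icc 1 (Lg X)) hsub
      (5 * Lg X)
      (by
        intro δ hδ
        have hδ' := Finset.mem_Icc.1 hδ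
        have h3 := fiber_card (K := K) (δ := δ) hX2 hXK hδ'.1 (S.filter (fun k => t k = δ)) a m A
          (by
            intro k hk
            obtain ⟨hkS, hkd⟩ := Finset.mem_filter.1 hk
            refine ⟨(Finset.mem_Icc.1 (hS hkS)).1, ?_, hmX k hkS⟩
            have := (hm' k hkS).1
            rw [hkd] at this
            exact this) v
        rw [Finset.filter_filter] at h3 ⊢
        have heq : (S.filter (fun k => Nat.log (X ^ 3) (a k) = v ∧ t k = δ)).card =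
            (S.filter (fun k => t k = δ ∧ Nat.log (X ^ 3) (a k) = v)).card := by
          congr 1
          ext k
          simp only [Finset.mem_filter]
          tauto
        rw [heq]
        exact le_trans h3 (Nat.mul_le_mul_left _ hδ'.2))
    calc _ ≤ 5 * Lg X * (Finset.Icc 1 (Lg X)).card := hmain
      _ = 5 * (Lg X) ^ 2 := by rw [Nat.card_Icc]; simp; ring
  obtain ⟨T, hTS, hlac, hcard⟩ := Sur46.exists_lacunary hX3 S a
    (fun k hk => (hm' k hk).1.a_pos) hfib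
  have hlt := h1 X hX1 K hXK hK3 T t a m A
    (by
      intro k hk
      have hkS := hTS hk
      have hI := Finset.mem_Icc.1 (hS hkS)
      obtain ⟨hfac, -, hrt, -⟩ := hm' k hkS
      refine ⟨hI.1, hI.2, hfac, hmX k hkS, htL k hkS, ?_⟩
      calc (a k) ^ r ≤ (a k) ^ (t k) := Nat.pow_le_pow_right hfac.a_pos hrt
        _ ≤ k ! := hfac.pow_le) hlac
  calc S.card ≤ 2 * (5 * (Lg X) ^ 2) * T.card := hcard
    _ ≤ 2 * (5 * (Lg X) ^ 2) * (2 * (Sur46.primesTo (Sur46.Y r X)).card) :=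
        Nat.mul_le_mul_left _ hlt.le
    _ = 20 * (Lg X) ^ 2 * (Sur46.primesTo (Sur46.Y r X)).card := by ring

end Fac88
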